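import Pool.Agent.Helper865.EulerBesov.Profile

set_option autoImplicit false

open Set Filter Topology MeasureTheory Real
open scoped ContDiff ENNReal RealInnerProductSpace

namespace Pool.Agent.Helper865.EulerBesov

/-- a periodic profile with three derivatives -/
structure Prof (f g g1 g2 : ℝ → ℝ) : Prop where
  hf : ∀ y, HasDerivAt f (g y) y
  hg : ∀ y, HasDerivAt g (g1 y) y
  hg1 : ∀ y, HasDerivAt g1 (g2 y) y
  cg2 : Continuous g2
  per : ∀ y, f (y + 2 * π) = f y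

lemma per_deriv {f g : ℝ → ℝ} (hf : ∀ y, HasDerivAt f (g y) y)
    (hp : ∀ y, f (y + 2 * π) = f y) (y : ℝ) : g (y + 2 * π) = g y := by
  have h1 : HasDerivAt (fun y => f (y + 2 * π)) (g (y + 2 * π)) y :=
    HasDerivAt.comp_add_const y (2 * π) (hf (y + 2 * π))
  have h2 : (fun y => f (y + 2 * π)) = f := funext hp
  rw [h2] at h1
  exact h1.unique (hf y)

lemma cont_of_hasDerivAt {f g : ℝ → ℝ} (hf : ∀ y, HasDerivAt f (g y) y) : Continuous f :=
  continuous_iff_continuousAt.2 fun y => (hf y).continuousAt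

lemma contDiff_of_hasDerivAt {f g : ℝ → ℝ} (hf : ∀ y, HasDerivAt f (g y) y)
    (hg : Continuous g) : ContDiff ℝ 1 f := by
  rw [contDiff_one_iff_deriv]
  refine ⟨fun y => (hf y).differentiableAt, ?_⟩
  have : deriv f = g := funext fun y => (hf y).deriv
  rwa [this]

section Prof
variable {f g g1 g2 : ℝ → ℝ} (h : Prof f g g1 g2)
include h

lemma Prof.perg (y : ℝ) : g (y + 2 * π) = g y := per_deriv h.hf h.per y
lemma Prof.perg1 (y : ℝ) : g1 (y + 2 * π) = g1 y := per_deriv h.hg h.perg y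
lemma Prof.perg2 (y : ℝ) : g2 (y + 2 * π) = g2 y := per_deriv h.hg1 h.perg1 y
lemma Prof.cf : Continuous f := cont_of_hasDerivAt h.hf
lemma Prof.cg : Continuous g := cont_of_hasDerivAt h.hg
lemma Prof.cg1 : Continuous g1 := cont_of_hasDerivAt h.hg1
lemma Prof.sf : ContDiff ℝ 1 f := contDiff_of_hasDerivAt h.hf h.cg
lemma Prof.sg : ContDiff ℝ 1 g := contDiff_of_hasDerivAt h.hg h.cg1
lemma Prof.sg1 : ContDiff ℝ 1 g1 := contDiff_of_hasDerivAt h.hg1 h.cg2
lemma Prof.perI (t y : ℝ) : In g t (y + 2 * π) = In g t y := by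
  unfold In
  rw [h.perg]

end Prof

lemma exists_bd (T : ℝ) (h : ℝ → ℝ → ℝ) (hc : Continuous fun z : ℝ × ℝ => h z.1 z.2)
    (hp : ∀ t y, h t (y + 2 * π) = h t y) :
    ∃ M : ℝ, 0 ≤ M ∧ ∀ t ∈ Icc 0 T, ∀ y, |h t y| ≤ M := by
  have hK : IsCompact (Icc (0:ℝ) T ×ˢ Icc (0:ℝ) (2 * π)) := isCompact_Icc.prod isCompact_Icc
  obtain ⟨C, hC⟩ := hK.exists_bound_of_continuousOn hc.continuousOn
  refine ⟨max C 0, le_max_right _ _, fun t ht y => ?_⟩
  have hper : Function.Periodic (h t) (2 * π) := fun y => hp t y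
  obtain ⟨y', hy', heq⟩ := hper.exists_mem_Ico₀ (by positivity) y
  rw [heq]
  exact (hC (t, y') ⟨ht, Ico_subset_Icc_self hy'⟩).trans (le_max_left _ _)

variable {n : ℕ}

lemma pd_eq_of_hasDerivAt {f : E n → ℝ} {x : E n} (hf : DifferentiableAt ℝ f x) {j : Fin n}
    {f' : ℝ} (h : HasDerivAt (fun s : ℝ => f (x + s • EuclideanSpace.single j 1)) f' 0) :
    pd j f x = f' := by
  have h1 : HasDerivAt (fun s : ℝ => x + s • EuclideanSpace.single j (1:ℝ))
      (EuclideanSpace.single j 1) 0 := by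
    simpa using ((hasDerivAt_id (0:ℝ)).smul_const (EuclideanSpace.single j (1:ℝ))).const_add x
  have h2 : HasFDerivAt f (fderiv ℝ f x) (x + (0:ℝ) • EuclideanSpace.single j (1:ℝ)) := by
    simpa using hf.hasFDerivAt
  exact (h2.comp_hasDerivAt 0 h1).unique h

variable {d : ℕ}

lemma pd_two {F : ℝ → ℝ → ℝ} {FX FY : ℝ} {x : E (d + 2)}
    (hF : DifferentiableAt ℝ (fun x : E (d + 2) => F (x 0) (x 1)) x)
    (hX : HasDerivAt (fun X => F X (x 1)) FX (x 0))
    (hY : HasDerivAt (fun Y => F (x 0) Y) FY (x 1)) :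
    pd 0 (fun x : E (d + 2) => F (x 0) (x 1)) x = FX ∧
    pd 1 (fun x : E (d + 2) => F (x 0) (x 1)) x = FY ∧
    ∀ i : Fin d, pd i.succ.succ (fun x : E (d + 2) => F (x 0) (x 1)) x = 0 := by
  refine ⟨?_, ?_, ?_⟩
  · apply pd_eq_of_hasDerivAt hF
    have h1 : ∀ s : ℝ, (x + s • EuclideanSpace.single (0 : Fin (d + 2)) (1:ℝ)) 0 = x 0 + s := by
      intro s; simp
    have h2 : ∀ s : ℝ, (x + s • EuclideanSpace.single (0 : Fin (d + 2)) (1:ℝ)) 1 = x 1 := by
      intro s; simp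
    simp only [h1, h2]
    exact HasDerivAt.comp_const_add (x 0) 0 (by simpa using hX)
  · apply pd_eq_of_hasDerivAt hF
    have h1 : ∀ s : ℝ, (x + s • EuclideanSpace.single (1 : Fin (d + 2)) (1:ℝ)) 0 = x 0 := by
      intro s; simp
    have h2 : ∀ s : ℝ, (x + s • EuclideanSpace.single (1 : Fin (d + 2)) (1:ℝ)) 1 = x 1 + s := by
      intro s; simp
    simp only [h1, h2]
    exact HasDerivAt.comp_const_add (x 1) 0 (by simpa using hY)
  · intro i
    apply pd_eq_of_hasDerivAt hF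
    have h1 : ∀ s : ℝ, (x + s • EuclideanSpace.single i.succ.succ (1:ℝ)) 0 = x 0 := by
      intro s
      simp [(Fin.succ_ne_zero i.succ).symm]
    have h2 : ∀ s : ℝ, (x + s • EuclideanSpace.single i.succ.succ (1:ℝ)) 1 = x 1 := by
      intro s
      simp [(Fin.succ_succ_ne_one i).symm]
    simp only [h1, h2]
    exact hasDerivAt_const _ _

end Pool.Agent.Helper865.EulerBesov
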