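import Pool.Agent.Helper865.EulerBesov.Approx

set_option autoImplicit false

open Set Filter Topology MeasureTheory Real
open scoped ContDiff ENNReal RealInnerProductSpace

namespace Pool.Agent.Helper865.EulerBesov

variable {d : ℕ}

/-- the approximate solution, in components -/
noncomputable def ua (f g g1 : ℝ → ℝ) (ε K : ℝ) (i : Fin (d + 2)) (t : ℝ) (x : E (d + 2)) : ℝ :=
  if i = 0 then U1 f g g1 ε K t (x 0) (x 1)
  else if i = 1 then U2 f g ε K t (x 0) (x 1) else 0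

/-- its time derivative -/
noncomputable def dua (f g g1 : ℝ → ℝ) (ε K : ℝ) (i : Fin (d + 2)) (t : ℝ) (x : E (d + 2)) : ℝ :=
  if i = 0 then U1t f g g1 ε K t (x 0) (x 1)
  else if i = 1 then U2t f g ε K t (x 0) (x 1) else 0

/-- its pressure -/
noncomputable def pres (f g : ℝ → ℝ) (ε K : ℝ) (t : ℝ) (x : E (d + 2)) : ℝ :=
  P0 f g ε K t (x 0) (x 1)

section basic
variable (f g g1 : ℝ → ℝ) (ε K : ℝ)

lemma ua_zero : ua (d := d) f g g1 ε K 0 = fun t x => U1 f g g1 ε K t (x 0) (x 1) := by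
  ext t x; simp [ua]
lemma ua_one : ua (d := d) f g g1 ε K 1 = fun t x => U2 f g ε K t (x 0) (x 1) := by
  ext t x; simp [ua]
lemma ua_ss (i : Fin d) : ua f g g1 ε K i.succ.succ = fun _ _ => 0 := by
  ext t x; simp [ua, Fin.succ_ne_zero, Fin.succ_succ_ne_one]
lemma dua_zero : dua (d := d) f g g1 ε K 0 = fun t x => U1t f g g1 ε K t (x 0) (x 1) := by
  ext t x; simp [dua]
lemma dua_one : dua (d := d) f g g1 ε K 1 = fun t x => U2t f g ε K t (x 0) (x 1) := by
  ext t x; simp [dua]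
lemma dua_ss (i : Fin d) : dua f g g1 ε K i.succ.succ = fun _ _ => 0 := by
  ext t x; simp [dua, Fin.succ_ne_zero, Fin.succ_succ_ne_one]
end basic

/-- case distinction on the index -/
lemma fin_cases2 {P : Fin (d + 2) → Prop} (h0 : P 0) (h1 : P 1) (h2 : ∀ i : Fin d, P i.succ.succ) :
    ∀ i, P i := by
  intro i
  refine Fin.cases h0 (fun i => ?_) i
  refine Fin.cases h1 (fun i => h2 i) i

lemma sum_fin2 (F : Fin (d + 2) → ℝ) : ∑ i, F i = F 0 + F 1 + ∑ i : Fin d, F i.succ.succ := by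
  rw [Fin.sum_univ_succ, Fin.sum_univ_succ, ← add_assoc]
  rfl

section smooth
variable {X : Type*} [TopologicalSpace X]

lemma cdU1 {f g g1 I : ℝ → ℝ} (hf : ContDiff ℝ 1 f) (hg : ContDiff ℝ 1 g) (hg1 : ContDiff ℝ 1 g1)
    (hI : ContDiff ℝ 1 I) (ε K t : ℝ) : ContDiff ℝ 1 (fun x : E (d + 2) =>
      f (x 1) + K⁻¹ ^ 2 * (2 * ε * t ^ 2 * g (x 1) * g1 (x 1) * I (x 1) ^ 2)
        * cos (K * (x 0 - t * f (x 1)))
    + K⁻¹ * (-ε * I (x 1)) * t * g (x 1) * sin (K * (x 0 - t * f (x 1)))) := by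
  fun_prop

lemma cdU2 {f I : ℝ → ℝ} (hf : ContDiff ℝ 1 f)
    (hI : ContDiff ℝ 1 I) (ε K t : ℝ) : ContDiff ℝ 1 (fun x : E (d + 2) =>
      K⁻¹ * (-ε * I (x 1)) * sin (K * (x 0 - t * f (x 1)))) := by
  fun_prop

lemma cdP0 {f g I : ℝ → ℝ} (hf : ContDiff ℝ 1 f) (hg : ContDiff ℝ 1 g)
    (hI : ContDiff ℝ 1 I) (ε K t : ℝ) : ContDiff ℝ 1 (fun x : E (d + 2) =>
      K⁻¹ ^ 2 * (-2 * ε * g (x 1) * I (x 1) ^ 2) * cos (K * (x 0 - t * f (x 1)))) := by
  fun_prop

lemma cU1 {f g g1 : ℝ → ℝ} {J t x y : X → ℝ} (hf : Continuous f) (hg : Continuous g)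
    (hg1 : Continuous g1) (hJ : Continuous J) (ht : Continuous t) (hx : Continuous x)
    (hy : Continuous y) (ε K : ℝ) : Continuous (fun w : X =>
      f (y w) + K⁻¹ ^ 2 * (2 * ε * t w ^ 2 * g (y w) * g1 (y w) * J w ^ 2)
        * cos (K * (x w - t w * f (y w)))
    + K⁻¹ * (-ε * J w) * t w * g (y w) * sin (K * (x w - t w * f (y w)))) := by
  fun_prop

lemma cU2 {f : ℝ → ℝ} {J t x y : X → ℝ} (hf : Continuous f)
    (hJ : Continuous J) (ht : Continuous t) (hx : Continuous x)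
    (hy : Continuous y) (ε K : ℝ) : Continuous (fun w : X =>
      K⁻¹ * (-ε * J w) * sin (K * (x w - t w * f (y w)))) := by
  fun_prop

lemma cU1t {f g g1 : ℝ → ℝ} {J t x y : X → ℝ} (hf : Continuous f) (hg : Continuous g)
    (hg1 : Continuous g1) (hJ : Continuous J) (ht : Continuous t) (hx : Continuous x)
    (hy : Continuous y) (ε K : ℝ) : Continuous (fun w : X =>
    K⁻¹ ^ 2 * (4 * ε * t w * g (y w) * g1 (y w) * J w ^ 2
      - 8 * ε * t w ^ 3 * g (y w) ^ 3 * g1 (y w) * J w ^ 3) * cos (K * (x w - t w * f (y w)))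
    + K⁻¹ * (2 * ε * t w ^ 2 * g (y w) * g1 (y w) * J w ^ 2) * f (y w)
      * sin (K * (x w - t w * f (y w)))
    + K⁻¹ * ((2 * ε * t w * g (y w) ^ 2 * J w ^ 2) * t w + (-ε * J w)) * g (y w)
      * sin (K * (x w - t w * f (y w)))
    - (-ε * J w) * t w * g (y w) * f (y w) * cos (K * (x w - t w * f (y w)))) := by
  fun_prop

lemma cU2t {f g : ℝ → ℝ} {J t x y : X → ℝ} (hf : Continuous f) (hg : Continuous g)
    (hJ : Continuous J) (ht : Continuous t) (hx : Continuous x)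
    (hy : Continuous y) (ε K : ℝ) : Continuous (fun w : X =>
    K⁻¹ * (2 * ε * t w * g (y w) ^ 2 * J w ^ 2) * sin (K * (x w - t w * f (y w)))
    - (-ε * J w) * f (y w) * cos (K * (x w - t w * f (y w)))) := by
  fun_prop

end smooth

section per

lemma single_zero_0 : (EuclideanSpace.single (0 : Fin (d + 2)) (2 * π)) 0 = 2 * π := by simp

/-- a function of the two first coordinates periodic in both -/
lemma isPer_two {F : ℝ → ℝ → ℝ} (hX : ∀ X Y, F (X + 2 * π) Y = F X Y)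
    (hY : ∀ X Y, F X (Y + 2 * π) = F X Y) : IsPer (fun x : E (d + 2) => F (x 0) (x 1)) := by
  intro x i
  refine fin_cases2 (P := fun i => F ((x + EuclideanSpace.single i (2 * π)) 0)
    ((x + EuclideanSpace.single i (2 * π)) 1) = F (x 0) (x 1)) ?_ ?_ ?_ i
  · simp [hX]
  · simp [hY]
  · intro i
    have h1 : (x + EuclideanSpace.single i.succ.succ (2 * π)) 0 = x 0 := by
      simp [(Fin.succ_ne_zero i.succ).symm]
    have h2 : (x + EuclideanSpace.single i.succ.succ (2 * π)) 1 = x 1 := by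
      simp [(Fin.succ_succ_ne_one i).symm]
    rw [h1, h2]

lemma sin_shift (K : ℕ) (a b : ℝ) : sin (K * (a + 2 * π - b)) = sin (K * (a - b)) := by
  rw [show (K : ℝ) * (a + 2 * π - b) = K * (a - b) + K * (2 * π) by ring]
  exact sin_add_nat_mul_two_pi _ K

lemma cos_shift (K : ℕ) (a b : ℝ) : cos (K * (a + 2 * π - b)) = cos (K * (a - b)) := by
  rw [show (K : ℝ) * (a + 2 * π - b) = K * (a - b) + K * (2 * π) by ring]
  exact cos_add_nat_mul_two_pi _ K

end per

end Pool.Agent.Helper865.EulerBesov
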