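import Pool.Agent.Helper865.EulerBesov.Approx2

set_option autoImplicit false

open Set Filter Topology MeasureTheory Real
open scoped ContDiff ENNReal RealInnerProductSpace

namespace Pool.Agent.Helper865.EulerBesov

variable {d : ℕ} {f g g1 g2 : ℝ → ℝ}

section facts
variable (h : Prof f g g1 g2) (ε K : ℝ)
include h

lemma Prof.c1 (i : Fin (d + 2)) (t : ℝ) : ContDiff ℝ 1 (ua (d := d) f g g1 ε K i t) := by
  refine fin_cases2 (P := fun i => ContDiff ℝ 1 (ua (d := d) f g g1 ε K i t)) ?_ ?_ ?_ i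
  · rw [ua_zero]
    exact cdU1 h.sf h.sg h.sg1 (In_contDiff h.sg t) ε K t
  · rw [ua_one]
    exact cdU2 h.sf (In_contDiff h.sg t) ε K t
  · intro i
    rw [ua_ss]
    exact contDiff_const

lemma Prof.c1p (t : ℝ) : ContDiff ℝ 1 (pres (d := d) f g ε K t) :=
  cdP0 h.sf h.sg (In_contDiff h.sg t) ε K t

lemma Prof.cJ : Continuous (fun z : ℝ × E (d + 2) => In g z.1 (z.2 1)) :=
  (In_continuous h.cg).comp (by fun_prop : Continuous fun z : ℝ × E (d + 2) => (z.1, z.2 1))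

lemma Prof.cont (i : Fin (d + 2)) :
    Continuous (fun z : ℝ × E (d + 2) => ua f g g1 ε K i z.1 z.2) := by
  refine fin_cases2 (P := fun i => Continuous (fun z : ℝ × E (d + 2) =>
    ua f g g1 ε K i z.1 z.2)) ?_ ?_ ?_ i
  · rw [ua_zero]
    exact cU1 h.cf h.cg h.cg1 h.cJ continuous_fst (by fun_prop) (by fun_prop) ε K
  · rw [ua_one]
    exact cU2 h.cf h.cJ continuous_fst (by fun_prop) (by fun_prop) ε K
  · intro i
    rw [ua_ss]
    exact continuous_const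

lemma Prof.dcont (i : Fin (d + 2)) :
    Continuous (fun z : ℝ × E (d + 2) => dua f g g1 ε K i z.1 z.2) := by
  refine fin_cases2 (P := fun i => Continuous (fun z : ℝ × E (d + 2) =>
    dua f g g1 ε K i z.1 z.2)) ?_ ?_ ?_ i
  · rw [dua_zero]
    exact cU1t h.cf h.cg h.cg1 h.cJ continuous_fst (by fun_prop) (by fun_prop) ε K
  · rw [dua_one]
    exact cU2t h.cf h.cg h.cJ continuous_fst (by fun_prop) (by fun_prop) ε K
  · intro i
    rw [dua_ss]
    exact continuous_const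

omit h in
lemma hasDeriv_ua (hK : K ≠ 0) (i : Fin (d + 2)) (t : ℝ) (x : E (d + 2)) :
    HasDerivAt (fun s => ua f g g1 ε K i s x) (dua f g g1 ε K i t x) t := by
  refine fin_cases2 (P := fun i => HasDerivAt (fun s => ua f g g1 ε K i s x)
    (dua f g g1 ε K i t x) t) ?_ ?_ ?_ i
  · rw [ua_zero, dua_zero]
    exact hU1t ε hK t _ _
  · rw [ua_one, dua_one]
    exact hU2t ε hK t _ _
  · intro i
    rw [ua_ss, dua_ss]
    exact hasDerivAt_const _ _

lemma Prof.perU (K : ℕ) (i : Fin (d + 2)) (t : ℝ) : IsPer (ua (d := d) f g g1 ε K i t) := by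
  refine fin_cases2 (P := fun i => IsPer (ua (d := d) f g g1 ε K i t)) ?_ ?_ ?_ i
  · rw [ua_zero]
    apply isPer_two (F := fun X Y => U1 f g g1 ε K t X Y)
    · intro X Y
      simp only [U1, sin_shift, cos_shift]
    · intro X Y
      simp only [U1, h.per, h.perg, h.perg1, h.perI]
  · rw [ua_one]
    apply isPer_two (F := fun X Y => U2 f g ε K t X Y)
    · intro X Y
      simp only [U2, sin_shift]
    · intro X Y
      simp only [U2, h.per, h.perI]
  · intro i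
    rw [ua_ss]
    intro x k
    rfl

lemma Prof.perP (K : ℕ) (t : ℝ) : IsPer (pres (d := d) f g ε K t) := by
  apply isPer_two (F := fun X Y => P0 f g ε K t X Y)
  · intro X Y
    simp only [P0, cos_shift]
  · intro X Y
    simp only [P0, h.per, h.perg, h.perI]

/-- spatial derivatives of the approximate solution -/
lemma Prof.pdU1 (hK : K ≠ 0) (t : ℝ) (x : E (d + 2)) :
    pd 0 (ua (d := d) f g g1 ε K 0 t) x = U1X f g g1 ε K t (x 0) (x 1) ∧
    pd 1 (ua (d := d) f g g1 ε K 0 t) x = U1Y f g g1 g2 ε K t (x 0) (x 1) ∧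
    ∀ i : Fin d, pd i.succ.succ (ua (d := d) f g g1 ε K 0 t) x = 0 := by
  have hd := (h.c1 ε K (0 : Fin (d + 2)) t).differentiable one_ne_zero x
  rw [ua_zero] at hd ⊢
  exact pd_two (F := fun X Y => U1 f g g1 ε K t X Y) hd (hU1X ε hK t _ _)
    (hU1Y ε hK h.hf h.hg h.hg1 t _ _)

lemma Prof.pdU2 (hK : K ≠ 0) (t : ℝ) (x : E (d + 2)) :
    pd 0 (ua (d := d) f g g1 ε K 1 t) x = U2X f g ε K t (x 0) (x 1) ∧
    pd 1 (ua (d := d) f g g1 ε K 1 t) x = U2Y f g g1 ε K t (x 0) (x 1) ∧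
    ∀ i : Fin d, pd i.succ.succ (ua (d := d) f g g1 ε K 1 t) x = 0 := by
  have hd := (h.c1 ε K (1 : Fin (d + 2)) t).differentiable one_ne_zero x
  rw [ua_one] at hd ⊢
  exact pd_two (F := fun X Y => U2 f g ε K t X Y) hd (hU2X ε hK t _ _)
    (hU2Y ε hK h.hf h.hg t _ _)

lemma Prof.pdP (hK : K ≠ 0) (t : ℝ) (x : E (d + 2)) :
    pd 0 (pres (d := d) f g ε K t) x = P0X f g ε K t (x 0) (x 1) ∧
    pd 1 (pres (d := d) f g ε K t) x = P0Y f g g1 ε K t (x 0) (x 1) ∧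
    ∀ i : Fin d, pd i.succ.succ (pres (d := d) f g ε K t) x = 0 := by
  have hd := (h.c1p (d := d) ε K t).differentiable one_ne_zero x
  exact pd_two (F := fun X Y => P0 f g ε K t X Y) hd (hP0X ε hK t _ _)
    (hP0Y ε hK h.hf h.hg t _ _)

end facts

lemma pd_zero_fun {n : ℕ} (j : Fin n) (x : E n) : pd j (fun _ : E n => (0:ℝ)) x = 0 := by
  unfold pd
  simp

lemma Prof.pdss (ε K t : ℝ) (i : Fin d) (j : Fin (d + 2)) (x : E (d + 2)) :
    pd j (ua f g g1 ε K i.succ.succ t) x = 0 := by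
  rw [ua_ss]
  exact pd_zero_fun j x

lemma Prof.divU (h : Prof f g g1 g2) (ε : ℝ) {K : ℝ} (hK : K ≠ 0) (t : ℝ) (x : E (d + 2)) :
    ∑ j, pd j (ua (d := d) f g g1 ε K j t) x = 0 := by
  rw [sum_fin2, (h.pdU1 ε K hK t x).1, (h.pdU2 ε K hK t x).2.1]
  simp_rw [Prof.pdss]
  simp [div0]

/-- a triple product bound -/
lemma abs_trig_le {a θ : ℝ} : |a * cos θ| ≤ |a| ∧ |a * sin θ| ≤ |a| := by
  constructor
  · rw [abs_mul]
    exact mul_le_of_le_one_right (abs_nonneg _) (abs_cos_le_one _)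
  · rw [abs_mul]
    exact mul_le_of_le_one_right (abs_nonneg _) (abs_sin_le_one _)

theorem Prof.approx (h : Prof f g g1 g2) (ε T : ℝ) : ∃ L C : ℝ, 0 ≤ L ∧ 0 ≤ C ∧
    ∀ K : ℕ, 1 ≤ K → ApproxSol (n := d + 2) T L (C * (K : ℝ)⁻¹ ^ 2)
      (ua f g g1 ε K) (dua f g g1 ε K) (pres f g ε K) := by
  have hI := In_continuous h.cg
  have cg := h.cg
  have cg1 := h.cg1
  have cg2 := h.cg2
  -- bounds
  obtain ⟨B1, hB10, hB1⟩ := exists_bd T (fun t Y => 4 * ε * t * g Y * g1 Y * In g t Y ^ 2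
      - 8 * ε * t ^ 3 * g Y ^ 3 * g1 Y * In g t Y ^ 3) (by fun_prop)
      (fun t y => by simp only [h.perg, h.perg1, h.perI])
  obtain ⟨B2, hB20, hB2⟩ := exists_bd T (fun t Y =>
      (-ε * In g t Y) * (2 * ε * t ^ 2 * (g1 Y ^ 2 + g Y * g2 Y) * In g t Y ^ 2
      - 8 * ε * t ^ 4 * g Y ^ 2 * g1 Y ^ 2 * In g t Y ^ 3)
        - (2 * ε * t ^ 2 * g Y * g1 Y * In g t Y ^ 2) ^ 2) (by fun_prop)
      (fun t y => by simp only [h.perg, h.perg1, h.perg2, h.perI])
  obtain ⟨B3, hB30, hB3⟩ := exists_bd T (fun t Y =>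
      (-ε * In g t Y) * (2 * ε * t ^ 2 * g Y * g1 Y * In g t Y ^ 2) * (t * g Y)) (by fun_prop)
      (fun t y => by simp only [h.perg, h.perg1, h.perI])
  obtain ⟨B4, hB40, hB4⟩ := exists_bd T (fun t Y =>
      (-ε * In g t Y) * ((2 * ε * t ^ 2 * g Y * g1 Y * In g t Y ^ 2) * t * g Y
      + (-ε * In g t Y) * t * g1 Y)) (by fun_prop)
      (fun t y => by simp only [h.perg, h.perg1, h.perI])
  obtain ⟨B5, hB50, hB5⟩ := exists_bd T (fun t Y =>
      (-2 * ε * g1 Y * In g t Y ^ 2 + 8 * ε * t ^ 2 * g Y ^ 2 * g1 Y * In g t Y ^ 3))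
      (by fun_prop) (fun t y => by simp only [h.perg, h.perg1, h.perI])
  obtain ⟨B6, hB60, hB6⟩ := exists_bd T (fun t Y =>
      (-ε * In g t Y) * (2 * ε * t ^ 2 * g Y * g1 Y * In g t Y ^ 2))
      (by fun_prop) (fun t y => by simp only [h.perg, h.perg1, h.perI])
  obtain ⟨G1, hG10, hG1⟩ := exists_bd T (fun t Y =>
      2 * ε * t ^ 2 * g Y * g1 Y * In g t Y ^ 2)
      (by fun_prop) (fun t y => by simp only [h.perg, h.perg1, h.perI])
  obtain ⟨G2, hG20, hG2⟩ := exists_bd T (fun t Y => (-ε * In g t Y) * t * g Y)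
      (by fun_prop) (fun t y => by simp only [h.perg, h.perI])
  obtain ⟨G3, hG30, hG3⟩ := exists_bd T (fun t Y => -ε * In g t Y)
      (by fun_prop) (fun t y => by simp only [h.perI])
  obtain ⟨G4, hG40, hG4⟩ := exists_bd T (fun t Y => g Y)
      (by fun_prop) (fun t y => by simp only [h.perg])
  obtain ⟨G5, hG50, hG5⟩ := exists_bd T (fun t Y =>
      (2 * ε * t ^ 2 * (g1 Y ^ 2 + g Y * g2 Y) * In g t Y ^ 2
      - 8 * ε * t ^ 4 * g Y ^ 2 * g1 Y ^ 2 * In g t Y ^ 3)) (by fun_prop)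
      (fun t y => by simp only [h.perg, h.perg1, h.perg2, h.perI])
  obtain ⟨G6, hG60, hG6⟩ := exists_bd T (fun t Y =>
      (2 * ε * t ^ 2 * g Y * g1 Y * In g t Y ^ 2) * t * g Y) (by fun_prop)
      (fun t y => by simp only [h.perg, h.perg1, h.perI])
  obtain ⟨G7, hG70, hG7⟩ := exists_bd T (fun t Y =>
      ((2 * ε * t ^ 2 * g Y * g1 Y * In g t Y ^ 2) * t * g Y
      + (-ε * In g t Y) * t * g1 Y)) (by fun_prop)
      (fun t y => by simp only [h.perg, h.perg1, h.perI])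
  obtain ⟨G8, hG80, hG8⟩ := exists_bd T (fun t Y =>
      (-ε * In g t Y) * (t * g Y) ^ 2) (by fun_prop)
      (fun t y => by simp only [h.perg, h.perI])
  refine ⟨G1 + G2 + G3 + G4 + G5 + G6 + G7 + G8, B1 + B2 + B3 + B4 + (B5 + B6), by positivity,
    by positivity, ?_⟩
  intro K hK1
  have hKr : (1:ℝ) ≤ K := by exact_mod_cast hK1
  have hK0 : (K : ℝ) ≠ 0 := by positivity
  have hκ0 : 0 ≤ (K : ℝ)⁻¹ := by positivity
  have hκ1 : (K : ℝ)⁻¹ ≤ 1 := inv_le_one_of_one_le₀ hKr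
  have hκ : |(K : ℝ)⁻¹| ≤ 1 := by rw [abs_of_nonneg hκ0]; exact hκ1
  have hκ2 : |(K : ℝ)⁻¹ ^ 2| ≤ 1 := by
    rw [abs_of_nonneg (by positivity)]
    exact pow_le_one₀ hκ0 hκ1
  have shr : ∀ a b c : ℝ, |a| ≤ 1 → |b| ≤ c → |a * b| ≤ c := fun a b c ha hb => by
    rw [abs_mul]
    calc |a| * |b| ≤ 1 * |b| := by gcongr
      _ ≤ c := by simpa using hb
  have trc : ∀ a b c : ℝ, |a| ≤ b → |a * cos c| ≤ b := fun a b c h =>
    abs_trig_le.1.trans h
  have trs : ∀ a b c : ℝ, |a| ≤ b → |a * sin c| ≤ b := fun a b c h =>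
    abs_trig_le.2.trans h
  refine ⟨fun i t => h.c1 ε K i t, fun i => h.cont ε K i, fun i => h.dcont ε K i,
    fun i t x => hasDeriv_ua ε K hK0 i t x, fun i t => h.perU ε K i t,
    fun t x => h.divU ε hK0 t x, fun t => h.c1p ε K t, fun t => h.perP ε K t, ?_, ?_⟩
  · -- gradient bounds
    intro t ht i j x
    have b1 : |U1X f g g1 ε K t (x 0) (x 1)| ≤ G1 + G2 := by
      unfold U1X
      refine (abs_add_le _ _).trans (add_le_add ?_ ?_)
      · apply trs
        rw [abs_neg]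
        exact shr _ _ _ hκ (hG1 t ht _)
      · exact trc _ _ _ (hG2 t ht _)
    have b2 : |U2X f g ε K t (x 0) (x 1)| ≤ G3 := trc _ _ _ (hG3 t ht _)
    have b3 : |U2Y f g g1 ε K t (x 0) (x 1)| ≤ G1 + G2 := by
      unfold U2Y
      refine (abs_sub _ _).trans (add_le_add ?_ ?_)
      · apply trs
        exact shr _ _ _ hκ (hG1 t ht _)
      · exact trc _ _ _ (hG2 t ht _)
    have b4 : |U1Y f g g1 g2 ε K t (x 0) (x 1)| ≤ G4 + G5 + G6 + G7 + G8 := by
      unfold U1Y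
      refine (abs_sub _ _).trans (add_le_add ?_ ?_)
      · refine (abs_add_le _ _).trans (add_le_add ?_ ?_)
        · refine (abs_add_le _ _).trans (add_le_add ?_ ?_)
          · refine (abs_add_le _ _).trans (add_le_add (hG4 t ht _) ?_)
            apply trc
            exact shr _ _ _ hκ2 (hG5 t ht _)
          · apply trs
            have := shr _ _ _ hκ (hG6 t ht (x 1))
            simpa only [mul_assoc] using this
        · apply trs
          exact shr _ _ _ hκ (hG7 t ht _)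
      · exact trc _ _ _ (hG8 t ht _)
    refine fin_cases2 (P := fun i => |pd j (ua (d := d) f g g1 ε K i t) x| ≤
      G1 + G2 + G3 + G4 + G5 + G6 + G7 + G8) ?_ ?_ ?_ i
    · refine fin_cases2 (P := fun j => |pd j (ua (d := d) f g g1 ε K 0 t) x| ≤
        G1 + G2 + G3 + G4 + G5 + G6 + G7 + G8) ?_ ?_ ?_ j
      · rw [(h.pdU1 ε K hK0 t x).1]; linarith
      · rw [(h.pdU1 ε K hK0 t x).2.1]; linarith
      · intro j
        rw [(h.pdU1 ε K hK0 t x).2.2 j, abs_zero]; positivity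
    · refine fin_cases2 (P := fun j => |pd j (ua (d := d) f g g1 ε K 1 t) x| ≤
        G1 + G2 + G3 + G4 + G5 + G6 + G7 + G8) ?_ ?_ ?_ j
      · rw [(h.pdU2 ε K hK0 t x).1]; linarith
      · rw [(h.pdU2 ε K hK0 t x).2.1]; linarith
      · intro j
        rw [(h.pdU2 ε K hK0 t x).2.2 j, abs_zero]; positivity
    · intro i
      rw [Prof.pdss, abs_zero]; positivity
  · -- residual
    intro t ht x
    have r1 : |dua f g g1 ε K 0 t x + ∑ j, ua f g g1 ε K j t x * pd j (ua f g g1 ε K 0 t) x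
        + pd 0 (pres f g ε K t) x| ≤ (B1 + B2 + B3 + B4) * (K : ℝ)⁻¹ ^ 2 := by
      rw [sum_fin2, (h.pdU1 ε K hK0 t x).1, (h.pdU1 ε K hK0 t x).2.1, (h.pdP ε K hK0 t x).1]
      simp_rw [(h.pdU1 ε K hK0 t x).2.2, mul_zero]
      rw [Finset.sum_const_zero, add_zero, dua_zero, ua_zero, ua_one]
      simp only []
      rw [← add_assoc, res1 ε f g g1 g2 hK0 t (x 0) (x 1), abs_mul, mul_comm,
        abs_of_nonneg (by positivity : (0:ℝ) ≤ (K : ℝ)⁻¹ ^ 2)]
      refine mul_le_mul_of_nonneg_right ?_ (by positivity)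
      refine (abs_add_le _ _).trans (add_le_add ?_ ?_)
      · refine (abs_add_le _ _).trans (add_le_add ?_ ?_)
        · refine (abs_add_le _ _).trans (add_le_add ?_ ?_)
          · exact trc _ _ _ (hB1 t ht _)
          · rw [← mul_assoc]
            exact trc _ _ _ (trs _ _ _ (shr _ _ _ hκ (hB2 t ht _)))
        · rw [pow_two (cos _), ← mul_assoc]
          exact trc _ _ _ (trc _ _ _ (hB3 t ht _))
      · rw [pow_two (sin _), ← mul_assoc]
        exact trs _ _ _ (trs _ _ _ (hB4 t ht _))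
    have r2 : |dua f g g1 ε K 1 t x + ∑ j, ua f g g1 ε K j t x * pd j (ua f g g1 ε K 1 t) x
        + pd 1 (pres f g ε K t) x| ≤ (B5 + B6) * (K : ℝ)⁻¹ ^ 2 := by
      rw [sum_fin2, (h.pdU2 ε K hK0 t x).1, (h.pdU2 ε K hK0 t x).2.1, (h.pdP ε K hK0 t x).2.1]
      simp_rw [(h.pdU2 ε K hK0 t x).2.2, mul_zero]
      rw [Finset.sum_const_zero, add_zero, dua_one, ua_zero, ua_one]
      simp only []
      rw [← add_assoc, res2 ε f g g1 t (x 0) (x 1), abs_mul, mul_comm,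
        abs_of_nonneg (by positivity : (0:ℝ) ≤ (K : ℝ)⁻¹ ^ 2)]
      refine mul_le_mul_of_nonneg_right ?_ (by positivity)
      exact (abs_add_le _ _).trans (add_le_add (trc _ _ _ (hB5 t ht _)) (hB6 t ht _))
    have r3 : ∀ i : Fin d, dua f g g1 ε K i.succ.succ t x
        + ∑ j, ua f g g1 ε K j t x * pd j (ua f g g1 ε K i.succ.succ t) x
        + pd i.succ.succ (pres f g ε K t) x = 0 := by
      intro i
      rw [(h.pdP ε K hK0 t x).2.2, dua_ss]
      simp_rw [Prof.pdss]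
      simp
    rw [sum_fin2]
    simp_rw [r3]
    set R1 := dua f g g1 ε K 0 t x + ∑ j, ua f g g1 ε K j t x * pd j (ua f g g1 ε K 0 t) x
        + pd 0 (pres f g ε K t) x with hR1
    set R2 := dua f g g1 ε K 1 t x + ∑ j, ua f g g1 ε K j t x * pd j (ua f g g1 ε K 1 t) x
        + pd 1 (pres f g ε K t) x with hR2
    have s1 : R1 ^ 2 ≤ ((B1 + B2 + B3 + B4) * (K : ℝ)⁻¹ ^ 2) ^ 2 := by
      rw [← sq_abs]
      exact pow_le_pow_left₀ (abs_nonneg _) r1 2
    have s2 : R2 ^ 2 ≤ ((B5 + B6) * (K : ℝ)⁻¹ ^ 2) ^ 2 := by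
      rw [← sq_abs]
      exact pow_le_pow_left₀ (abs_nonneg _) r2 2
    have s3 : 0 ≤ (B1 + B2 + B3 + B4) * (K : ℝ)⁻¹ ^ 2 := by positivity
    have s4 : 0 ≤ (B5 + B6) * (K : ℝ)⁻¹ ^ 2 := by positivity
    simp only [ne_eq, OfNat.ofNat_ne_zero, not_false_eq_true, zero_pow, Finset.sum_const_zero,
      add_zero]
    rw [add_mul]
    nlinarith [mul_nonneg s3 s4]

end Pool.Agent.Helper865.EulerBesov
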