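import Pool.Agent.Helper865.EulerBesov.Kernel

set_option autoImplicit false

open Set Filter Topology MeasureTheory Real
open scoped ContDiff ENNReal RealInnerProductSpace FourierTransform

namespace Pool.Agent.Helper865.EulerBesov

variable {n : ℕ} {χ : E n → ℝ}

lemma integrable_lowpass (hχ : IsCutoff χ) {w : E n → E n} (hw : Continuous w) {A : ℝ}
    (hA : ∀ x, ‖w x‖ ≤ A) (N : ℕ) (x : E n) :
    Integrable (fun y => kernel χ y • w (x - (1 / 2 : ℝ) ^ N • y)) := by
  refine (integrable_kernel hχ).smul_bdd A ?_ ?_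
  · exact (hw.comp (by fun_prop)).aestronglyMeasurable
  · exact Filter.Eventually.of_forall fun y => hA _

lemma norm_lowpass_le (hχ : IsCutoff χ) {w : E n → E n} {A : ℝ}
    (hA : ∀ x, ‖w x‖ ≤ A) (N : ℕ) (x : E n) :
    ‖lowpass χ N w x‖ ≤ kerL1 χ * A := by
  unfold lowpass kerL1
  rw [← integral_mul_const]
  refine (norm_integral_le_integral_norm _).trans ?_
  apply integral_mono_of_nonneg (Filter.Eventually.of_forall fun y => norm_nonneg _)
  · exact (integrable_kernel hχ).abs.mul_const _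
  · refine Filter.Eventually.of_forall fun y => ?_
    simp only [norm_smul, norm_eq_abs]
    exact mul_le_mul_of_nonneg_left (hA _) (abs_nonneg _)

lemma lowpass_sub (hχ : IsCutoff χ) {u w : E n → E n} (hu : Continuous u) (hw : Continuous w)
    {A B : ℝ} (hA : ∀ x, ‖u x‖ ≤ A) (hB : ∀ x, ‖w x‖ ≤ B) (N : ℕ) (x : E n) :
    lowpass χ N (u - w) x = lowpass χ N u x - lowpass χ N w x := by
  unfold lowpass
  rw [← integral_sub (integrable_lowpass hχ hu hA N x) (integrable_lowpass hχ hw hB N x)]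
  congr 1
  ext1 y
  rw [Pi.sub_apply, smul_sub]

lemma lowpass_add (hχ : IsCutoff χ) {u w : E n → E n} (hu : Continuous u) (hw : Continuous w)
    {A B : ℝ} (hA : ∀ x, ‖u x‖ ≤ A) (hB : ∀ x, ‖w x‖ ≤ B) (N : ℕ) (x : E n) :
    lowpass χ N (u + w) x = lowpass χ N u x + lowpass χ N w x := by
  unfold lowpass
  rw [← integral_add (integrable_lowpass hχ hu hA N x) (integrable_lowpass hχ hw hB N x)]
  congr 1
  ext1 y
  rw [Pi.add_apply, smul_add]

/-- Lipschitz inputs give Lipschitz outputs. -/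
lemma lowpass_lipschitz_of_lipschitz (hχ : IsCutoff χ) {w : E n → E n} (hw : Continuous w)
    {A L : ℝ} (hA : ∀ x, ‖w x‖ ≤ A) (hL : ∀ x y, ‖w x - w y‖ ≤ L * ‖x - y‖) (N : ℕ)
    (x y : E n) :
    ‖lowpass χ N w x - lowpass χ N w y‖ ≤ kerL1 χ * L * ‖x - y‖ := by
  unfold lowpass kerL1
  rw [← integral_sub (integrable_lowpass hχ hw hA N x) (integrable_lowpass hχ hw hA N y),
    mul_assoc, ← integral_mul_const]
  refine (norm_integral_le_integral_norm _).trans ?_
  apply integral_mono_of_nonneg (Filter.Eventually.of_forall fun y => norm_nonneg _)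
  · exact (integrable_kernel hχ).abs.mul_const _
  · refine Filter.Eventually.of_forall fun z => ?_
    simp only [← smul_sub, norm_smul, norm_eq_abs]
    refine mul_le_mul_of_nonneg_left ((hL _ _).trans_eq ?_) (abs_nonneg _)
    congr 2
    abel

lemma lowpass_zero_eq (w : E n → E n) (x : E n) :
    lowpass χ 0 w x = ∫ z, kernel χ (x - z) • w z := by
  unfold lowpass
  rw [← integral_sub_left_eq_self (fun z => kernel χ z • w (x - (1 / 2 : ℝ) ^ 0 • z)) volume x]
  congr 1
  ext1 z
  simp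

lemma lowpass_zero_lipschitz (hχ : IsCutoff χ) {C : ℝ}
    (hC : ∀ x y : E n, (∫ z, |kernel χ (x - z) - kernel χ (y - z)|) ≤ C * ‖x - y‖)
    {w : E n → E n} (hw : Continuous w) {A : ℝ} (hA : ∀ x, ‖w x‖ ≤ A) (x y : E n) :
    ‖lowpass χ 0 w x - lowpass χ 0 w y‖ ≤ C * A * ‖x - y‖ := by
  have hA0 : 0 ≤ A := (norm_nonneg _).trans (hA 0)
  have hint : ∀ x : E n, Integrable (fun z => kernel χ (x - z) • w z) := by
    intro x
    refine ((integrable_kernel hχ).comp_sub_left x).smul_bdd A ?_ ?_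
    · exact hw.aestronglyMeasurable
    · exact Filter.Eventually.of_forall fun y => hA _
  rw [lowpass_zero_eq, lowpass_zero_eq, ← integral_sub (hint x) (hint y)]
  refine (norm_integral_le_integral_norm _).trans ?_
  calc (∫ z, ‖kernel χ (x - z) • w z - kernel χ (y - z) • w z‖)
      ≤ ∫ z, |kernel χ (x - z) - kernel χ (y - z)| * A := by
        apply integral_mono_of_nonneg (Filter.Eventually.of_forall fun y => norm_nonneg _)
        · exact (((integrable_kernel hχ).comp_sub_left x).sub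
            ((integrable_kernel hχ).comp_sub_left y)).abs.mul_const _
        · refine Filter.Eventually.of_forall fun z => ?_
          simp only [← sub_smul, norm_smul, norm_eq_abs]
          exact mul_le_mul_of_nonneg_left (hA _) (abs_nonneg _)
    _ = (∫ z, |kernel χ (x - z) - kernel χ (y - z)|) * A := integral_mul_const _ _
    _ ≤ (C * ‖x - y‖) * A := mul_le_mul_of_nonneg_right (hC x y) hA0
    _ = C * A * ‖x - y‖ := by ring

lemma lowpass_eq_zero_scaled (N : ℕ) (w : E n → E n) (x : E n) :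
    lowpass χ N w x = lowpass χ 0 (fun z => w ((1 / 2 : ℝ) ^ N • z)) ((2 : ℝ) ^ N • x) := by
  unfold lowpass
  congr 1
  ext1 y
  simp only [pow_zero, one_smul, smul_sub, smul_smul]
  congr 3
  rw [← mul_pow]
  norm_num

lemma lowpass_lipschitz (hχ : IsCutoff χ) {C : ℝ}
    (hC : ∀ x y : E n, (∫ z, |kernel χ (x - z) - kernel χ (y - z)|) ≤ C * ‖x - y‖)
    {w : E n → E n} (hw : Continuous w) {A : ℝ} (hA : ∀ x, ‖w x‖ ≤ A) (N : ℕ) (x y : E n) :
    ‖lowpass χ N w x - lowpass χ N w y‖ ≤ C * A * 2 ^ N * ‖x - y‖ := by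
  have hc : Continuous (fun z : E n => w ((1 / 2 : ℝ) ^ N • z)) :=
    hw.comp (continuous_const_smul _)
  have h := lowpass_zero_lipschitz hχ hC (w := fun z : E n => w ((1 / 2 : ℝ) ^ N • z)) hc
    (A := A) (fun z => hA _) ((2 : ℝ) ^ N • x) ((2 : ℝ) ^ N • y)
  rw [lowpass_eq_zero_scaled N w x, lowpass_eq_zero_scaled N w y]
  refine h.trans_eq ?_
  rw [← smul_sub, norm_smul, norm_eq_abs, abs_of_pos (by positivity : (0:ℝ) < 2 ^ N)]
  ring

lemma tendsto_lowpass (hχ : IsCutoff χ) {w : E n → E n} (hw : Continuous w) {A : ℝ}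
    (hA : ∀ x, ‖w x‖ ≤ A) (x : E n) :
    Tendsto (fun N => lowpass χ N w x) atTop (𝓝 (w x)) := by
  have h1 : w x = ∫ y, kernel χ y • w x := by
    rw [integral_smul_const, integral_kernel hχ, one_smul]
  rw [h1]
  unfold lowpass
  apply tendsto_integral_of_dominated_convergence (fun y => |kernel χ y| * A)
  · intro N
    exact (integrable_lowpass hχ hw hA N x).aestronglyMeasurable
  · exact (integrable_kernel hχ).abs.mul_const _
  · intro N
    refine Filter.Eventually.of_forall fun y => ?_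
    simp only [norm_smul, norm_eq_abs]
    exact mul_le_mul_of_nonneg_left (hA _) (abs_nonneg _)
  · refine Filter.Eventually.of_forall fun y => ?_
    apply Tendsto.const_smul
    have h2 : Tendsto (fun N : ℕ => x - (1 / 2 : ℝ) ^ N • y) atTop (𝓝 (x - (0:ℝ) • y)) := by
      apply Tendsto.const_sub
      apply Tendsto.smul_const
      exact tendsto_pow_atTop_nhds_zero_of_lt_one (by norm_num) (by norm_num)
    rw [zero_smul, sub_zero] at h2
    exact (hw.tendsto x).comp h2

lemma sum_block (u : E n → E n) (x : E n) (N : ℕ) :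
    ∑ j ∈ Finset.range (N + 1), block χ j u x = lowpass χ N u x := by
  induction N with
  | zero => simp [block]
  | succ N ih =>
    rw [Finset.sum_range_succ, ih]
    simp [block]

/-- bound on all blocks -/
def BlockBound (χ : E n → ℝ) (M : ℝ) (u : E n → E n) : Prop :=
  ∀ j x, ‖block χ j u x‖ ≤ M * 2 * (1 / 2 : ℝ) ^ j

lemma BlockBound.nonneg {M : ℝ} {u : E n → E n} (h : BlockBound χ M u) : 0 ≤ M := by
  have := (norm_nonneg _).trans (h 0 0)
  simp at this
  linarith

lemma norm_sub_lowpass_le (hχ : IsCutoff χ) {u : E n → E n} (hu : Continuous u) {A : ℝ}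
    (hA : ∀ x, ‖u x‖ ≤ A) {M : ℝ} (hM : BlockBound χ M u) (N : ℕ) (x : E n) :
    ‖u x - lowpass χ N u x‖ ≤ M * 2 * (1 / 2 : ℝ) ^ N := by
  have hM0 := hM.nonneg
  have hlim : Tendsto (fun K => ‖lowpass χ K u x - lowpass χ N u x‖) atTop
      (𝓝 ‖u x - lowpass χ N u x‖) := ((tendsto_lowpass hχ hu hA x).sub_const _).norm
  refine le_of_tendsto hlim ?_
  filter_upwards [eventually_ge_atTop N] with K hK
  obtain ⟨d, rfl⟩ := Nat.exists_eq_add_of_le hK
  have key : ∀ d : ℕ, ‖lowpass χ (N + d) u x - lowpass χ N u x‖ ≤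
      M * 2 * ((1 / 2 : ℝ) ^ N - (1 / 2 : ℝ) ^ (N + d)) := by
    intro d
    induction d with
    | zero => simp
    | succ d ih =>
      have h1 : lowpass χ (N + (d + 1)) u x - lowpass χ N u x =
          block χ (N + d + 1) u x + (lowpass χ (N + d) u x - lowpass χ N u x) := by
        simp only [block]
        rw [← add_assoc]
        abel
      rw [h1]
      refine (norm_add_le _ _).trans ?_
      have h2 := hM (N + d + 1) x
      have h3 : (1 / 2 : ℝ) ^ (N + d + 1) = (1 / 2 : ℝ) ^ (N + d) / 2 := by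
        rw [pow_succ]; ring
      have h4 : (1 / 2 : ℝ) ^ (N + (d + 1)) = (1 / 2 : ℝ) ^ (N + d) / 2 := by
        rw [← add_assoc, pow_succ]; ring
      rw [h3] at h2
      rw [h4]
      linarith
  refine (key d).trans ?_
  have : (0:ℝ) ≤ (1 / 2 : ℝ) ^ (N + d) := by positivity
  nlinarith

lemma norm_le_of_blockBound (hχ : IsCutoff χ) {u : E n → E n} (hu : Continuous u) {A : ℝ}
    (hA : ∀ x, ‖u x‖ ≤ A) {M : ℝ} (hM : BlockBound χ M u) (x : E n) :
    ‖u x‖ ≤ 4 * M := by
  have h1 := norm_sub_lowpass_le hχ hu hA hM 0 x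
  have h2 := hM 0 x
  simp only [block, pow_zero, mul_one] at h1 h2
  calc ‖u x‖ = ‖(u x - lowpass χ 0 u x) + lowpass χ 0 u x‖ := by congr 1; abel
    _ ≤ ‖u x - lowpass χ 0 u x‖ + ‖lowpass χ 0 u x‖ := norm_add_le _ _
    _ ≤ 4 * M := by linarith

/-- Hölder regularity (exponent `2/3`, in the form needed later) of fields with
`‖Δ_j u‖ ≲ 2^{-j}`. -/
lemma exists_holder (hχ : IsCutoff χ) :
    ∃ C : ℝ, 0 ≤ C ∧ ∀ (u : E n → E n), Continuous u → (∃ A, ∀ x, ‖u x‖ ≤ A) →
      ∀ M : ℝ, BlockBound χ M u → ∀ r : ℝ, 0 < r → r ≤ 1 → ∀ x y : E n, ‖x - y‖ ≤ r ^ 3 →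
        ‖u x - u y‖ ≤ C * M * r ^ 2 := by
  obtain ⟨C₁, hC₁0, hC₁⟩ := exists_kernel_lipschitz hχ
  have hk := one_le_kerL1 hχ
  -- choose b = 2^s ≥ kerL1 + 1
  obtain ⟨s, hs⟩ : ∃ s : ℕ, kerL1 χ + 1 ≤ (2 : ℝ) ^ s :=
    (pow_unbounded_of_one_lt (kerL1 χ + 1) (by norm_num : (1:ℝ) < 2)).imp fun _ h => h.le
  set b : ℝ := (2 : ℝ) ^ s with hb
  have hb2 : 2 ≤ b := by linarith
  set D : ℝ := max (2 * C₁ * b ^ 2) (4 * C₁) with hD
  have hD0 : 0 ≤ D := le_max_of_le_left (by positivity)
  refine ⟨4 + D * b, by positivity, ?_⟩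
  intro u hu hbd M hM r hr0 hr1 x y hxy
  obtain ⟨A, hA⟩ := hbd
  have hM0 := hM.nonneg
  have hu4 := norm_le_of_blockBound hχ hu hA hM
  -- Lipschitz constants along multiples of 2 s
  have hG : ∀ k : ℕ, ∀ x y : E n,
      ‖lowpass χ (2 * s * k) u x - lowpass χ (2 * s * k) u y‖ ≤ D * M * b ^ k * ‖x - y‖ := by
    intro k
    induction k with
    | zero =>
      intro x y
      have h := lowpass_lipschitz hχ hC₁ hu hu4 0 x y
      simp only [pow_zero, mul_one, mul_zero] at h ⊢
      refine h.trans ?_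
      have : 4 * C₁ ≤ D := le_max_right _ _
      have h2 : C₁ * (4 * M) ≤ D * M := by nlinarith
      gcongr
    | succ k ih =>
      intro x y
      set N := 2 * s * k with hN
      have hN' : 2 * s * (k + 1) = N + 2 * s := by rw [hN]; ring
      rw [hN']
      -- continuity of lowpass N u
      have hcN : Continuous (lowpass χ N u) := by
        have hlip : LipschitzWith (Real.toNNReal (D * M * b ^ k)) (lowpass χ N u) := by
          apply LipschitzWith.of_dist_le_mul
          intro x y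
          rw [dist_eq_norm, dist_eq_norm, Real.coe_toNNReal _ (by positivity)]
          exact ih x y
        exact hlip.continuous
      have hbN : ∀ x, ‖lowpass χ N u x‖ ≤ kerL1 χ * (4 * M) := norm_lowpass_le hχ hu4 N
      set w := u - lowpass χ N u with hw
      have hwc : Continuous w := hu.sub hcN
      have hwb : ∀ x, ‖w x‖ ≤ M * 2 * (1 / 2 : ℝ) ^ N := fun x =>
        norm_sub_lowpass_le hχ hu hA hM N x
      have hdec : ∀ x, lowpass χ (N + 2 * s) u x =
          lowpass χ (N + 2 * s) w x + lowpass χ (N + 2 * s) (lowpass χ N u) x := by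
        intro x
        rw [← lowpass_add hχ hwc hcN hwb hbN]
        congr 1
        rw [hw]
        simp
      rw [hdec, hdec]
      have e1 := lowpass_lipschitz hχ hC₁ hwc hwb (N + 2 * s) x y
      have e2 := lowpass_lipschitz_of_lipschitz hχ hcN hbN ih (N + 2 * s) x y
      have e3 : C₁ * (M * 2 * (1 / 2 : ℝ) ^ N) * 2 ^ (N + 2 * s) = 2 * C₁ * b ^ 2 * M := by
        rw [pow_add, hb, ← pow_mul, mul_comm s 2]
        have : (1 / 2 : ℝ) ^ N * 2 ^ N = 1 := by rw [← mul_pow]; norm_num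
        calc C₁ * (M * 2 * (1 / 2 : ℝ) ^ N) * (2 ^ N * 2 ^ (2 * s))
            = 2 * C₁ * 2 ^ (2 * s) * M * ((1 / 2 : ℝ) ^ N * 2 ^ N) := by ring
          _ = 2 * C₁ * 2 ^ (2 * s) * M := by rw [this]; ring
      rw [e3] at e1
      have h3 : 2 * C₁ * b ^ 2 ≤ D := le_max_left _ _
      have h4 : 1 ≤ b ^ k := one_le_pow₀ (by linarith)
      calc ‖lowpass χ (N + 2 * s) w x + lowpass χ (N + 2 * s) (lowpass χ N u) x -
            (lowpass χ (N + 2 * s) w y + lowpass χ (N + 2 * s) (lowpass χ N u) y)‖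
          = ‖(lowpass χ (N + 2 * s) w x - lowpass χ (N + 2 * s) w y) +
            (lowpass χ (N + 2 * s) (lowpass χ N u) x -
              lowpass χ (N + 2 * s) (lowpass χ N u) y)‖ := by congr 1; abel
        _ ≤ 2 * C₁ * b ^ 2 * M * ‖x - y‖ + kerL1 χ * (D * M * b ^ k) * ‖x - y‖ :=
            (norm_add_le _ _).trans (add_le_add e1 e2)
        _ ≤ D * M * b ^ (k + 1) * ‖x - y‖ := by
            rw [← add_mul]
            apply mul_le_mul_of_nonneg_right _ (norm_nonneg _)
            have h5 : 2 * C₁ * b ^ 2 * M ≤ D * M * b ^ k := by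
              calc 2 * C₁ * b ^ 2 * M ≤ D * M := mul_le_mul_of_nonneg_right h3 hM0
                _ = D * M * 1 := by ring
                _ ≤ D * M * b ^ k := by gcongr
            have h6 : D * M * b ^ (k + 1) = D * M * b ^ k * b := by rw [pow_succ]; ring
            rw [h6]
            have h7 : 0 ≤ D * M * b ^ k := by positivity
            nlinarith
  -- choose k
  have hexk : ∃ k : ℕ, 1 / r ≤ b ^ k :=
    (pow_unbounded_of_one_lt (1 / r) (by linarith : (1:ℝ) < b)).imp fun _ h => h.le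
  classical
  set k := Nat.find hexk with hk'
  have hk1 : 1 / r ≤ b ^ k := Nat.find_spec hexk
  have hk2 : b ^ k ≤ b / r := by
    rcases Nat.eq_zero_or_pos k with h0 | hpos
    · rw [h0, pow_zero]
      rw [le_div_iff₀ hr0]
      nlinarith
    · have hlt : ¬ (1 / r ≤ b ^ (k - 1)) := Nat.find_min hexk (by omega)
      push Not at hlt
      have : b ^ k = b * b ^ (k - 1) := by
        rw [← pow_succ']
        congr 1
        omega
      rw [this]
      calc b * b ^ (k - 1) ≤ b * (1 / r) := by gcongr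
        _ = b / r := by ring
  have hN2 : (1 / 2 : ℝ) ^ (2 * s * k) = (1 / b ^ k) ^ 2 := by
    rw [hb, ← pow_mul, div_pow, div_pow, one_pow, one_pow, ← pow_mul]
    congr 2
    ring
  have hinv : 1 / b ^ k ≤ r := by
    rw [div_le_iff₀ (by positivity)]
    rw [div_le_iff₀ hr0] at hk1
    linarith
  have hsm : (1 / 2 : ℝ) ^ (2 * s * k) ≤ r ^ 2 := by
    rw [hN2]
    exact pow_le_pow_left₀ (by positivity) hinv 2
  have t1 := norm_sub_lowpass_le hχ hu hA hM (2 * s * k) x
  have t2 := norm_sub_lowpass_le hχ hu hA hM (2 * s * k) y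
  have t3 := hG k x y
  calc ‖u x - u y‖ = ‖(u x - lowpass χ (2 * s * k) u x) - (u y - lowpass χ (2 * s * k) u y) +
        (lowpass χ (2 * s * k) u x - lowpass χ (2 * s * k) u y)‖ := by congr 1; abel
    _ ≤ ‖u x - lowpass χ (2 * s * k) u x‖ + ‖u y - lowpass χ (2 * s * k) u y‖ +
        ‖lowpass χ (2 * s * k) u x - lowpass χ (2 * s * k) u y‖ :=
        (norm_add_le _ _).trans (add_le_add (norm_sub_le _ _) le_rfl)
    _ ≤ M * 2 * r ^ 2 + M * 2 * r ^ 2 + D * M * (b / r) * r ^ 3 := by
        refine add_le_add (add_le_add (t1.trans ?_) (t2.trans ?_)) (t3.trans ?_)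
        · gcongr
        · gcongr
        · gcongr
    _ = (4 + D * b) * M * r ^ 2 := by
        field_simp
        ring

end Pool.Agent.Helper865.EulerBesov
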