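import Pool.Agent.Helper865.EulerBesov.Compare
import Pool.Agent.Helper865.EulerBesov.Lowpass

set_option autoImplicit false

open Set Filter Topology MeasureTheory Real
open scoped ContDiff ENNReal RealInnerProductSpace

namespace Pool.Agent.Helper865.EulerBesov

variable {n : ℕ} {χ : E n → ℝ} {q : ℝ}

lemma besovNorm_rpow (hq : 0 < q) (u : E n → E n) :
    besovNorm χ q u ^ q =
      ∑' j : ℕ, (ENNReal.ofReal ((2 : ℝ) ^ ((j : ℤ) - 1)) * ⨆ x, ‖block χ j u x‖ₑ) ^ q := by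
  unfold besovNorm
  rw [← ENNReal.rpow_mul, one_div_mul_cancel hq.ne', ENNReal.rpow_one]

lemma besovNorm_le_of_rpow_le (hq : 0 < q) {u : E n → E n} {b : ℝ≥0∞}
    (h : besovNorm χ q u ^ q ≤ b) : besovNorm χ q u ≤ b ^ (1 / q) := by
  have := ENNReal.rpow_le_rpow h (by positivity : 0 ≤ 1 / q)
  rwa [← ENNReal.rpow_mul, mul_one_div_cancel hq.ne', ENNReal.rpow_one] at this

lemma iSup_block_le (hq : 0 < q) (u : E n → E n) (j : ℕ) :
    ENNReal.ofReal ((2 : ℝ) ^ ((j : ℤ) - 1)) * (⨆ x, ‖block χ j u x‖ₑ) ≤ besovNorm χ q u := by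
  have h1 : (ENNReal.ofReal ((2 : ℝ) ^ ((j : ℤ) - 1)) * ⨆ x, ‖block χ j u x‖ₑ) ^ q ≤
      besovNorm χ q u ^ q := by
    rw [besovNorm_rpow hq]
    exact ENNReal.le_tsum j
  exact (ENNReal.rpow_le_rpow_iff hq).1 h1

lemma le_besovNorm (hq : 0 < q) (u : E n → E n) (j : ℕ) (x : E n) :
    ENNReal.ofReal ((2 : ℝ) ^ ((j : ℤ) - 1)) * ‖block χ j u x‖ₑ ≤ besovNorm χ q u :=
  (mul_le_mul_right (le_iSup (fun x => ‖block χ j u x‖ₑ) x) _).trans (iSup_block_le hq u j)

lemma zpow_pred (j : ℕ) : (2 : ℝ) ^ ((j : ℤ) - 1) = 2 ^ j / 2 := by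
  rw [zpow_sub₀ two_ne_zero, zpow_natCast, zpow_one]

lemma blockBound_of_norm (hq : 0 < q) {u : E n → E n} {b : ℝ} (hb : 0 ≤ b)
    (h : besovNorm χ q u ≤ ENNReal.ofReal b) :
    BlockBound χ b u := by
  intro j x
  have h1 := (le_besovNorm hq u j x).trans h
  rw [← ofReal_norm, ← ENNReal.ofReal_mul (by positivity),
    ENNReal.ofReal_le_ofReal_iff hb, zpow_pred] at h1
  have h2 : (0:ℝ) < 2 ^ j := by positivity
  rw [one_div, inv_pow, ← div_eq_mul_inv, le_div_iff₀ h2]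
  linarith

lemma blockBound_of_norm_lt_top (hq : 0 < q) {u : E n → E n}
    (h : besovNorm χ q u < ⊤) : BlockBound χ (besovNorm χ q u).toReal u :=
  blockBound_of_norm hq ENNReal.toReal_nonneg (by rw [ENNReal.ofReal_toReal h.ne])

lemma block_add (hχ : IsCutoff χ) {u w : E n → E n} (hu : Continuous u) (hw : Continuous w)
    {A B : ℝ} (hA : ∀ x, ‖u x‖ ≤ A) (hB : ∀ x, ‖w x‖ ≤ B) (j : ℕ) (x : E n) :
    block χ j (u + w) x = block χ j u x + block χ j w x := by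
  cases j with
  | zero => exact lowpass_add hχ hu hw hA hB 0 x
  | succ j =>
    simp only [block]
    rw [lowpass_add hχ hu hw hA hB, lowpass_add hχ hu hw hA hB]
    abel

lemma BlockBound.add (hχ : IsCutoff χ) {u w : E n → E n} (hu : Continuous u) (hw : Continuous w)
    {A B : ℝ} (hA : ∀ x, ‖u x‖ ≤ A) (hB : ∀ x, ‖w x‖ ≤ B) {M₁ M₂ : ℝ}
    (h1 : BlockBound χ M₁ u) (h2 : BlockBound χ M₂ w) : BlockBound χ (M₁ + M₂) (u + w) := by
  intro j x
  rw [block_add hχ hu hw hA hB]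
  calc ‖block χ j u x + block χ j w x‖ ≤ ‖block χ j u x‖ + ‖block χ j w x‖ := norm_add_le _ _
    _ ≤ M₁ * 2 * (1 / 2 : ℝ) ^ j + M₂ * 2 * (1 / 2 : ℝ) ^ j := add_le_add (h1 j x) (h2 j x)
    _ = _ := by ring

lemma BlockBound.mono {u : E n → E n} {M₁ M₂ : ℝ} (h : BlockBound χ M₁ u) (hM : M₁ ≤ M₂) :
    BlockBound χ M₂ u := fun j x => (h j x).trans (by gcongr)

/-- quasi triangle inequality -/
lemma besovNorm_add_rpow (hχ : IsCutoff χ) (hq : 1 ≤ q) {u w : E n → E n} (hu : Continuous u)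
    (hw : Continuous w) {A B : ℝ} (hA : ∀ x, ‖u x‖ ≤ A) (hB : ∀ x, ‖w x‖ ≤ B) :
    besovNorm χ q (u + w) ^ q ≤
      (2 : ℝ≥0∞) ^ (q - 1) * (besovNorm χ q u ^ q + besovNorm χ q w ^ q) := by
  have hq0 : 0 < q := by linarith
  rw [besovNorm_rpow hq0, besovNorm_rpow hq0, besovNorm_rpow hq0, ← ENNReal.tsum_add,
    ← ENNReal.tsum_mul_left]
  apply ENNReal.tsum_le_tsum
  intro j
  refine le_trans ?_ (ENNReal.rpow_add_le_mul_rpow_add_rpow _ _ hq)
  apply ENNReal.rpow_le_rpow _ hq0.le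
  rw [← mul_add]
  apply mul_le_mul_right
  apply iSup_le
  intro x
  rw [block_add hχ hu hw hA hB]
  refine (enorm_add_le _ _).trans (add_le_add ?_ ?_)
  · exact le_iSup (fun x => ‖block χ j u x‖ₑ) x
  · exact le_iSup (fun x => ‖block χ j w x‖ₑ) x

/-- translation invariance -/
lemma lowpass_translate (u : E n → E n) (h : E n) (N : ℕ) (x : E n) :
    lowpass χ N (fun x => u (x + h)) x = lowpass χ N u (x + h) := by
  unfold lowpass
  congr 1
  ext1 y
  congr 2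
  show u (x - (1 / 2 : ℝ) ^ N • y + h) = u (x + h - (1 / 2 : ℝ) ^ N • y)
  rw [add_sub_right_comm]

lemma block_translate (u : E n → E n) (h : E n) (j : ℕ) (x : E n) :
    block χ j (fun x => u (x + h)) x = block χ j u (x + h) := by
  cases j with
  | zero => exact lowpass_translate u h 0 x
  | succ j => simp only [block, lowpass_translate]

lemma besovNorm_translate (u : E n → E n) (h : E n) :
    besovNorm χ q (fun x => u (x + h)) = besovNorm χ q u := by
  unfold besovNorm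
  congr 2
  ext j
  congr 2
  simp_rw [block_translate]
  exact (Equiv.addRight h).iSup_comp (g := fun x => ‖block χ j u x‖ₑ)

lemma MemBesov.translate {u : E n → E n} (hu : MemBesov χ q u) (h : E n) :
    MemBesov χ q (fun x => u (x + h)) := by
  obtain ⟨C, hC⟩ := hu.bounded
  refine ⟨hu.continuous.comp (by fun_prop), ⟨C, fun x => hC _⟩, ?_⟩
  rw [besovNorm_translate]
  exact hu.norm_lt_top

lemma DivFree.translate {u : E n → E n} (hu : DivFree u) (h : E n) :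
    DivFree (fun x => u (x + h)) := by
  intro ψ hψ hc
  have h1 : ContDiff ℝ ∞ (fun x => ψ (x - h)) := hψ.comp (by fun_prop)
  have h2 : HasCompactSupport (fun x => ψ (x - h)) := by
    have := hc.comp_homeomorph (Homeomorph.subRight h)
    exact this
  have h3 := hu _ h1 h2
  have h4 : ∀ x, fderiv ℝ (fun x => ψ (x - h)) x = fderiv ℝ ψ (x - h) := fun x =>
    fderiv_comp_sub h
  simp_rw [h4] at h3
  rw [← h3, ← integral_sub_right_eq_self (fun x => fderiv ℝ ψ x (u (x + h))) h]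
  simp

/-- lower bound for the norm from many large blocks -/
lemma le_besovNorm_of_card (hq : 0 < q) {u : E n → E n} (s : Finset ℕ) {c : ℝ}
    (h : ∀ j ∈ s, ∃ x, c ≤ (2 : ℝ) ^ ((j : ℤ) - 1) * ‖block χ j u x‖) :
    (s.card : ℝ≥0∞) * ENNReal.ofReal c ^ q ≤ besovNorm χ q u ^ q := by
  rw [besovNorm_rpow hq]
  calc (s.card : ℝ≥0∞) * ENNReal.ofReal c ^ q = ∑ j ∈ s, ENNReal.ofReal c ^ q := by
        rw [Finset.sum_const, nsmul_eq_mul]
    _ ≤ ∑ j ∈ s, (ENNReal.ofReal ((2 : ℝ) ^ ((j : ℤ) - 1)) * ⨆ x, ‖block χ j u x‖ₑ) ^ q := by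
        apply Finset.sum_le_sum
        intro j hj
        obtain ⟨x, hx⟩ := h j hj
        apply ENNReal.rpow_le_rpow _ hq.le
        calc ENNReal.ofReal c ≤ ENNReal.ofReal ((2 : ℝ) ^ ((j : ℤ) - 1) * ‖block χ j u x‖) :=
              ENNReal.ofReal_le_ofReal hx
          _ = ENNReal.ofReal ((2 : ℝ) ^ ((j : ℤ) - 1)) * ‖block χ j u x‖ₑ := by
              rw [ENNReal.ofReal_mul (by positivity), ofReal_norm]
          _ ≤ _ := mul_le_mul_right (le_iSup (fun x => ‖block χ j u x‖ₑ) x) _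
    _ ≤ _ := ENNReal.sum_le_tsum s

/-- upper bound for the norm from bounds of the blocks -/
lemma besovNorm_rpow_le (hq : 0 < q) {u : E n → E n} {b : ℕ → ℝ}
    (h : ∀ (j : ℕ) (x : E n), (2 : ℝ) ^ ((j : ℤ) - 1) * ‖block χ j u x‖ ≤ b j) :
    besovNorm χ q u ^ q ≤ ∑' j, ENNReal.ofReal (b j) ^ q := by
  rw [besovNorm_rpow hq]
  apply ENNReal.tsum_le_tsum
  intro j
  apply ENNReal.rpow_le_rpow _ hq.le
  rw [ENNReal.mul_iSup]
  apply iSup_le
  intro x
  rw [← ofReal_norm, ← ENNReal.ofReal_mul (by positivity)]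
  exact ENNReal.ofReal_le_ofReal (h j x)

end Pool.Agent.Helper865.EulerBesov
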