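import Pool.Agent.Helper865.EulerBesov.Approx3

set_option autoImplicit false

open Set Filter Topology MeasureTheory Real
open scoped ContDiff ENNReal RealInnerProductSpace

namespace Pool.Agent.Helper865.EulerBesov

variable {d : ℕ} {f g g1 g2 : ℝ → ℝ}

/-- amplitude of the oscillation at time `T` -/
noncomputable def rho (g : ℝ → ℝ) (ε T y : ℝ) : ℝ := (-ε * In g T y) * T * g y

lemma ua_init0 (f g g1 : ℝ → ℝ) (ε K : ℝ) (x : E (d + 2)) :
    ua f g g1 ε K 0 0 x = f (x 1) := by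
  rw [ua_zero]
  simp [U1]

lemma ua_init1 (f g g1 : ℝ → ℝ) (ε K : ℝ) (x : E (d + 2)) :
    ua f g g1 ε K 1 0 x = -(ε * K⁻¹) * sin (K * x 0) := by
  rw [ua_one]
  have h1 : (1 + (0:ℝ) ^ 2 * g (x 1) ^ 2)⁻¹ = 1 := by norm_num
  have h2 : K * (x 0 - 0 * f (x 1)) = K * x 0 := by ring
  simp only [U2, In, h1, h2]
  ring

theorem Prof.compare (h : Prof f g g1 g2) (ε : ℝ) {T : ℝ} (hT : 0 ≤ T) : ∃ C : ℝ, 0 ≤ C ∧
    ∀ K : ℕ, 1 ≤ K → ∀ A CH : ℝ, 0 ≤ A → 0 ≤ CH →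
    ∀ (v : ℝ → E (d + 2) → E (d + 2)) (p : ℝ → E (d + 2) → ℝ), HSol T A CH v p →
    (∀ x, v 0 x 0 = f (x 1)) → (∀ x, v 0 x 1 = -(ε * (K : ℝ)⁻¹) * sin (K * x 0)) →
    (∀ x, ∀ i : Fin d, v 0 x i.succ.succ = 0) →
    (∫ x in Q (d + 2), (v T x 0 - f (x 1) - (K : ℝ)⁻¹ * rho g ε T (x 1) *
      sin (K * (x 0 - T * f (x 1)))) ^ 2) ≤ C * (K : ℝ)⁻¹ ^ 4 := by
  obtain ⟨L, C₀, hL, hC₀, happ⟩ := h.approx (d := d) ε T
  have hI := In_continuous h.cg
  have cg := h.cg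
  have cg1 := h.cg1
  obtain ⟨G1, hG10, hG1⟩ := exists_bd T (fun t Y =>
      2 * ε * t ^ 2 * g Y * g1 Y * In g t Y ^ 2)
      (by fun_prop) (fun t y => by simp only [h.perg, h.perg1, h.perI])
  set Ω : ℝ := (volume (Q (d + 2))).toReal with hΩ
  have hΩ0 : 0 ≤ Ω := ENNReal.toReal_nonneg
  refine ⟨2 * (2 * (exp ((2 * (((d + 2 : ℕ) : ℝ) * L) + 1) * T) * (T * (C₀ ^ 2 * Ω))))
    + 2 * G1 ^ 2 * Ω, by positivity, ?_⟩
  intro K hK1 A CH hA hCH v p hv h0 h1 h2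
  have hap := happ K hK1
  have hinit : ∀ x i, v 0 x i = ua f g g1 ε K i 0 x := by
    intro x i
    refine fin_cases2 (P := fun i => v 0 x i = ua f g g1 ε K i 0 x) ?_ ?_ ?_ i
    · rw [h0, ua_init0]
    · rw [h1, ua_init1]
    · intro i
      rw [h2, ua_ss]
  have hst := stability hT hL hA hCH hap hv hinit
  have hκ0 : 0 ≤ (K : ℝ)⁻¹ := by positivity
  have hcv : Continuous (v T) := hv.vcont.comp (by fun_prop : Continuous fun y => (T, y))
  have hcu : ∀ i : Fin (d + 2), Continuous (ua f g g1 ε K i T) := fun i =>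
    (h.c1 ε K i T).continuous
  -- first component
  have hcomp : (∫ x in Q (d + 2), (v T x 0 - ua f g g1 ε K 0 T x) ^ 2) ≤
      ∫ x in Q (d + 2), ∑ i, (v T x i - ua f g g1 ε K i T x) ^ 2 := by
    apply integral_mono
    · apply integrableOn_Q
      have := hcu 0
      fun_prop
    · apply integrableOn_Q
      exact cont_aux2 (z := fun i x => v T x i - ua f g g1 ε K i T x) fun i =>
        ((by fun_prop : Continuous fun x => v T x i)).sub (hcu i)
    · intro x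
      exact Finset.single_le_sum (f := fun i => (v T x i - ua f g g1 ε K i T x) ^ 2)
        (fun i _ => sq_nonneg _) (Finset.mem_univ 0)
  have hdiff : ∀ x : E (d + 2), |ua f g g1 ε K 0 T x - (f (x 1) + (K : ℝ)⁻¹ * rho g ε T (x 1) *
      sin (K * (x 0 - T * f (x 1))))| ≤ G1 * (K : ℝ)⁻¹ ^ 2 := by
    intro x
    have e1 : ua f g g1 ε K 0 T x - (f (x 1) + (K : ℝ)⁻¹ * rho g ε T (x 1) *
      sin (K * (x 0 - T * f (x 1)))) = (K : ℝ)⁻¹ ^ 2 * ((2 * ε * T ^ 2 * g (x 1) * g1 (x 1)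
        * In g T (x 1) ^ 2) * cos (K * (x 0 - T * f (x 1)))) := by
      rw [ua_zero]
      simp only [U1, rho]
      ring
    rw [e1, abs_mul, abs_of_nonneg (by positivity : 0 ≤ (K : ℝ)⁻¹ ^ 2), mul_comm]
    refine mul_le_mul_of_nonneg_right ?_ (by positivity)
    exact abs_trig_le.1.trans (hG1 T ⟨hT, le_rfl⟩ _)
  have hpt : ∀ x : E (d + 2), (v T x 0 - f (x 1) - (K : ℝ)⁻¹ * rho g ε T (x 1) *
      sin (K * (x 0 - T * f (x 1)))) ^ 2 ≤ 2 * (v T x 0 - ua f g g1 ε K 0 T x) ^ 2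
      + 2 * (G1 * (K : ℝ)⁻¹ ^ 2) ^ 2 := by
    intro x
    have h3 := hdiff x
    set a := v T x 0 - ua f g g1 ε K 0 T x with ha
    set b := ua f g g1 ε K 0 T x - (f (x 1) + (K : ℝ)⁻¹ * rho g ε T (x 1) *
      sin (K * (x 0 - T * f (x 1)))) with hb
    have h4 : v T x 0 - f (x 1) - (K : ℝ)⁻¹ * rho g ε T (x 1) *
      sin (K * (x 0 - T * f (x 1))) = a + b := by
      rw [ha, hb]; ring
    rw [h4]
    have h5 : b ^ 2 ≤ (G1 * (K : ℝ)⁻¹ ^ 2) ^ 2 := by
      rw [← sq_abs b]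
      exact pow_le_pow_left₀ (abs_nonneg _) h3 2
    nlinarith [sq_nonneg (a - b)]
  have crho : Continuous (rho g ε T) := by
    unfold rho
    have h6 : Continuous (fun y => In g T y) :=
      hI.comp (by fun_prop : Continuous fun y : ℝ => (T, y))
    exact ((continuous_const.mul h6).mul continuous_const).mul cg
  have cf := h.cf
  have hfin : (∫ x in Q (d + 2), (v T x 0 - f (x 1) - (K : ℝ)⁻¹ * rho g ε T (x 1) *
      sin (K * (x 0 - T * f (x 1)))) ^ 2) ≤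
      ∫ x in Q (d + 2), (2 * (v T x 0 - ua f g g1 ε K 0 T x) ^ 2
      + 2 * (G1 * (K : ℝ)⁻¹ ^ 2) ^ 2) := by
    apply integral_mono
    · apply integrableOn_Q
      fun_prop
    · apply integrableOn_Q
      have := hcu 0
      fun_prop
    · exact hpt
  rw [integral_add, integral_const_mul, setIntegral_const] at hfin
  · simp only [smul_eq_mul, measureReal_def, ← hΩ] at hfin
    have hexp := exp_pos ((2 * (((d + 2 : ℕ) : ℝ) * L) + 1) * T)
    calc _ ≤ _ := hfin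
      _ ≤ 2 * (2 * (exp ((2 * (((d + 2 : ℕ) : ℝ) * L) + 1) * T) *
          (T * ((C₀ * (K : ℝ)⁻¹ ^ 2) ^ 2 * Ω)))) + Ω * (2 * (G1 * (K : ℝ)⁻¹ ^ 2) ^ 2) := by
          have := hcomp.trans hst
          linarith
      _ = _ := by ring
  · apply integrableOn_Q
    have := hcu 0
    fun_prop
  · exact integrableOn_Q continuous_const

end Pool.Agent.Helper865.EulerBesov
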