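import Pool.Agent.Helper865.EulerBesov.Besov

set_option autoImplicit false

open Set Filter Topology MeasureTheory Real
open scoped ContDiff ENNReal RealInnerProductSpace

namespace Pool.Agent.Helper865.EulerBesov

variable {n : ℕ} {χ : E n → ℝ} {q : ℝ}

/-- sine waves are eigenfunctions of the low-frequency cutoffs -/
lemma lowpass_sin (hχ : IsCutoff χ) (N : ℕ) (k e : E n) (x : E n) :
    lowpass χ N (fun x => sin ⟪x, k⟫ • e) x =
      (χ ((2 * π)⁻¹ • ((1 / 2 : ℝ) ^ N • k)) * sin ⟪x, k⟫) • e := by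
  unfold lowpass
  have h1 : ∀ y : E n, kernel χ y • (sin ⟪x - (1 / 2 : ℝ) ^ N • y, k⟫ • e) =
      (kernel χ y * cos ⟪y, (1 / 2 : ℝ) ^ N • k⟫ * sin ⟪x, k⟫
        - kernel χ y * sin ⟪y, (1 / 2 : ℝ) ^ N • k⟫ * cos ⟪x, k⟫) • e := by
    intro y
    rw [smul_smul]
    congr 1
    rw [inner_sub_left, real_inner_smul_left, real_inner_smul_right, sin_sub]
    ring
  simp_rw [h1]
  rw [integral_smul_const]
  congr 1
  have i1 : Integrable (fun y => kernel χ y * cos ⟪y, (1 / 2 : ℝ) ^ N • k⟫) := by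
    refine (integrable_kernel hχ).mul_bdd (c := 1) ?_ ?_
    · exact (by fun_prop : Continuous fun y : E n =>
        cos ⟪y, (1 / 2 : ℝ) ^ N • k⟫).aestronglyMeasurable
    · exact Filter.Eventually.of_forall fun y => by
        rw [Real.norm_eq_abs]; exact abs_cos_le_one _
  have i2 : Integrable (fun y => kernel χ y * sin ⟪y, (1 / 2 : ℝ) ^ N • k⟫) := by
    refine (integrable_kernel hχ).mul_bdd (c := 1) ?_ ?_
    · exact (by fun_prop : Continuous fun y : E n =>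
        sin ⟪y, (1 / 2 : ℝ) ^ N • k⟫).aestronglyMeasurable
    · exact Filter.Eventually.of_forall fun y => by
        rw [Real.norm_eq_abs]; exact abs_sin_le_one _
  rw [integral_sub (i1.mul_const _) (i2.mul_const _), integral_mul_const, integral_mul_const,
    integral_kernel_mul_cos hχ, integral_kernel_mul_sin hχ]
  ring

/-- the multiplier of the block `l` at the frequency `2^i` in direction `c` -/
noncomputable def mult (χ : E n → ℝ) (c : Fin n) : ℕ → ℕ → ℝ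
  | 0, i => χ ((2 * π)⁻¹ • ((1 / 2 : ℝ) ^ 0 • ((2:ℝ) ^ i • EuclideanSpace.single c 1)))
  | l + 1, i => χ ((2 * π)⁻¹ • ((1 / 2 : ℝ) ^ (l + 1) • ((2:ℝ) ^ i • EuclideanSpace.single c 1)))
      - χ ((2 * π)⁻¹ • ((1 / 2 : ℝ) ^ l • ((2:ℝ) ^ i • EuclideanSpace.single c 1)))

lemma abs_mult_le (hχ : IsCutoff χ) (c : Fin n) (l i : ℕ) : |mult χ c l i| ≤ 1 := by
  cases l with
  | zero =>
    rw [mult, abs_of_nonneg (hχ.nonneg _)]
    exact hχ.le_one _
  | succ l =>
    rw [mult, abs_le]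
    constructor
    · linarith [hχ.nonneg ((2 * π)⁻¹ • ((1 / 2 : ℝ) ^ (l + 1) • ((2:ℝ) ^ i •
        EuclideanSpace.single c 1))), hχ.le_one ((2 * π)⁻¹ • ((1 / 2 : ℝ) ^ l • ((2:ℝ) ^ i •
        EuclideanSpace.single c 1)))]
    · linarith [hχ.le_one ((2 * π)⁻¹ • ((1 / 2 : ℝ) ^ (l + 1) • ((2:ℝ) ^ i •
        EuclideanSpace.single c 1))), hχ.nonneg ((2 * π)⁻¹ • ((1 / 2 : ℝ) ^ l • ((2:ℝ) ^ i •
        EuclideanSpace.single c 1)))]

lemma norm_freq (c : Fin n) (l i : ℕ) :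
    ‖(2 * π)⁻¹ • ((1 / 2 : ℝ) ^ l • ((2:ℝ) ^ i • (EuclideanSpace.single c 1 : E n)))‖ =
      (2 * π)⁻¹ * ((1 / 2 : ℝ) ^ l * 2 ^ i) := by
  rw [norm_smul, norm_smul, norm_smul, PiLp.norm_single]
  rw [Real.norm_of_nonneg (by positivity : (0:ℝ) ≤ (2 * π)⁻¹),
    Real.norm_of_nonneg (by positivity : (0:ℝ) ≤ (1 / 2 : ℝ) ^ l),
    Real.norm_of_nonneg (by positivity : (0:ℝ) ≤ (2:ℝ) ^ i), norm_one, mul_one]

lemma chi_freq_zero (hχ : IsCutoff χ) (c : Fin n) {l i : ℕ} (h : l + 4 ≤ i) :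
    χ ((2 * π)⁻¹ • ((1 / 2 : ℝ) ^ l • ((2:ℝ) ^ i • EuclideanSpace.single c 1))) = 0 := by
  apply hχ.zero
  rw [norm_freq]
  have h1 : (2:ℝ) ^ (l + 4) ≤ 2 ^ i := pow_le_pow_right₀ (by norm_num) h
  have h2 : (1 / 2 : ℝ) ^ l * 2 ^ (l + 4) = 16 := by
    rw [pow_add, ← mul_assoc, ← mul_pow]
    norm_num
  have h3 : (16:ℝ) ≤ (1 / 2 : ℝ) ^ l * 2 ^ i := by
    rw [← h2]
    gcongr
  have hπ : π < 3.15 := pi_lt_d2
  have hπ0 : 0 < 2 * π := by positivity
  rw [inv_mul_eq_div, le_div_iff₀ hπ0]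
  linarith

lemma chi_freq_one (hχ : IsCutoff χ) (c : Fin n) {l i : ℕ} (h : i ≤ l) :
    χ ((2 * π)⁻¹ • ((1 / 2 : ℝ) ^ l • ((2:ℝ) ^ i • EuclideanSpace.single c 1))) = 1 := by
  apply hχ.one
  rw [norm_freq]
  have h1 : (2:ℝ) ^ i ≤ 2 ^ l := pow_le_pow_right₀ (by norm_num) h
  have h2 : (1 / 2 : ℝ) ^ l * 2 ^ l = 1 := by
    rw [← mul_pow]
    norm_num
  have h3 : (1 / 2 : ℝ) ^ l * 2 ^ i ≤ 1 := by
    calc (1 / 2 : ℝ) ^ l * 2 ^ i ≤ (1 / 2 : ℝ) ^ l * 2 ^ l := by gcongr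
      _ = 1 := h2
  have hπ : 3 < π := pi_gt_three
  have hπ0 : 0 < 2 * π := by positivity
  rw [inv_mul_eq_div, div_le_one₀ hπ0]
  linarith

lemma mult_eq_zero (hχ : IsCutoff χ) (c : Fin n) {l i : ℕ} (h : ¬ (l ≤ i ∧ i ≤ l + 3)) :
    mult χ c l i = 0 := by
  cases l with
  | zero =>
    rw [mult]
    exact chi_freq_zero hχ c (by omega)
  | succ l =>
    rw [mult]
    by_cases h1 : l + 1 ≤ i
    · have h2 : l + 1 + 4 ≤ i := by omega
      rw [chi_freq_zero hχ c h2, chi_freq_zero hχ c (by omega), sub_zero]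
    · rw [chi_freq_one hχ c (by omega), chi_freq_one hχ c (by omega), sub_self]

/-- lacunary trigonometric sums -/
noncomputable def trig (s : Finset ℕ) (a : ℕ → ℝ) (y : ℝ) : ℝ := ∑ i ∈ s, a i * sin (2 ^ i * y)

lemma continuous_trig (s : Finset ℕ) (a : ℕ → ℝ) : Continuous (trig s a) := by
  unfold trig
  fun_prop

lemma lowpass_trig (hχ : IsCutoff χ) (s : Finset ℕ) (a : ℕ → ℝ) (c : Fin n) (e : E n) (N : ℕ)
    (x : E n) : lowpass χ N (fun x => trig s a (x c) • e) x =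
      (∑ i ∈ s, a i * (χ ((2 * π)⁻¹ • ((1 / 2 : ℝ) ^ N • ((2:ℝ) ^ i •
        EuclideanSpace.single c 1))) * sin (2 ^ i * x c))) • e := by
  have hin : ∀ (i : ℕ) (x : E n), (2:ℝ) ^ i * x c =
      ⟪x, (2:ℝ) ^ i • (EuclideanSpace.single c 1 : E n)⟫ := by
    intro i x
    rw [real_inner_smul_right, EuclideanSpace.inner_single_right]
    simp
  have h1 : ∀ x : E n, trig s a (x c) • e =
      ∑ i ∈ s, a i • (sin ⟪x, (2:ℝ) ^ i • (EuclideanSpace.single c 1 : E n)⟫ • e) := by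
    intro x
    unfold trig
    rw [Finset.sum_smul]
    apply Finset.sum_congr rfl
    intro i _
    rw [hin, smul_smul]
  simp_rw [h1]
  unfold lowpass
  simp_rw [Finset.smul_sum, smul_comm (kernel χ _) (a _)]
  rw [integral_finsetSum]
  · rw [Finset.sum_smul]
    apply Finset.sum_congr rfl
    intro i _
    rw [integral_smul]
    have := lowpass_sin hχ N ((2:ℝ) ^ i • (EuclideanSpace.single c 1 : E n)) e x
    unfold lowpass at this
    rw [this, smul_smul, hin]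
  · intro i _
    refine Integrable.smul (a i) (f := fun y => kernel χ y • sin ⟪x - (1 / 2 : ℝ) ^ N • y,
      (2:ℝ) ^ i • (EuclideanSpace.single c 1 : E n)⟫ • e) ?_
    refine integrable_lowpass hχ (w := fun x => sin ⟪x, (2:ℝ) ^ i •
      (EuclideanSpace.single c 1 : E n)⟫ • e) (by fun_prop) (A := ‖e‖) ?_ N x
    intro x
    rw [norm_smul]
    exact mul_le_of_le_one_left (norm_nonneg _) (by
      rw [Real.norm_eq_abs]; exact abs_sin_le_one _)

lemma block_trig (hχ : IsCutoff χ) (s : Finset ℕ) (a : ℕ → ℝ) (c : Fin n) (e : E n) (l : ℕ)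
    (x : E n) : block χ l (fun x => trig s a (x c) • e) x =
      (∑ i ∈ s, a i * (mult χ c l i * sin (2 ^ i * x c))) • e := by
  cases l with
  | zero =>
    simp only [block, mult]
    exact lowpass_trig hχ s a c e 0 x
  | succ l =>
    simp only [block, mult]
    rw [lowpass_trig hχ, lowpass_trig hχ, ← sub_smul, ← Finset.sum_sub_distrib]
    congr 1
    apply Finset.sum_congr rfl
    intro i _
    ring

/-- block estimate for lacunary sums -/
lemma norm_block_trig_le (hχ : IsCutoff χ) (s : Finset ℕ) {a b : ℕ → ℝ} (hb : Antitone b)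
    (hb0 : ∀ i, 0 ≤ b i)
    (hab : ∀ i ∈ s, |a i| ≤ b i * (1 / 2 : ℝ) ^ i) (c : Fin n) {e : E n} (he : ‖e‖ ≤ 1) (l : ℕ)
    (x : E n) :
    (2 : ℝ) ^ ((l : ℤ) - 1) * ‖block χ l (fun x => trig s a (x c) • e) x‖ ≤ 2 * b l := by
  rw [block_trig hχ, norm_smul]
  have h1 : ‖∑ i ∈ s, a i * (mult χ c l i * sin (2 ^ i * x c))‖ ≤ 4 * (b l * (1 / 2 : ℝ) ^ l) := by
    calc ‖∑ i ∈ s, a i * (mult χ c l i * sin (2 ^ i * x c))‖
        ≤ ∑ i ∈ s, ‖a i * (mult χ c l i * sin (2 ^ i * x c))‖ := norm_sum_le _ _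
      _ = ∑ i ∈ s with l ≤ i ∧ i ≤ l + 3, ‖a i * (mult χ c l i * sin (2 ^ i * x c))‖ := by
          rw [Finset.sum_filter]
          apply Finset.sum_congr rfl
          intro i _
          split_ifs with h
          · rfl
          · rw [mult_eq_zero hχ c h]
            simp
      _ ≤ ∑ i ∈ s with l ≤ i ∧ i ≤ l + 3, b l * (1 / 2 : ℝ) ^ l := by
          apply Finset.sum_le_sum
          intro i hi
          rw [Finset.mem_filter] at hi
          have h2 : |mult χ c l i * sin (2 ^ i * x c)| ≤ 1 := by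
            rw [abs_mul]
            exact mul_le_one₀ (abs_mult_le hχ c l i) (abs_nonneg _) (abs_sin_le_one _)
          rw [Real.norm_eq_abs, abs_mul]
          calc |a i| * |mult χ c l i * sin (2 ^ i * x c)| ≤ |a i| * 1 := by gcongr
            _ ≤ b i * (1 / 2 : ℝ) ^ i := by rw [mul_one]; exact hab i hi.1
            _ ≤ b l * (1 / 2 : ℝ) ^ l := by
                apply mul_le_mul (hb hi.2.1) _ (by positivity) (hb0 l)
                exact pow_le_pow_of_le_one (by norm_num) (by norm_num) hi.2.1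
      _ ≤ 4 * (b l * (1 / 2 : ℝ) ^ l) := by
          rw [Finset.sum_const, nsmul_eq_mul]
          have hcard : (s.filter (fun i => l ≤ i ∧ i ≤ l + 3)).card ≤ 4 := by
            have hsub : s.filter (fun i => l ≤ i ∧ i ≤ l + 3) ⊆ Finset.Icc l (l + 3) := by
              intro i hi
              rw [Finset.mem_filter] at hi
              exact Finset.mem_Icc.2 hi.2
            have := Finset.card_le_card hsub
            rw [Nat.card_Icc] at this
            omega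
          have h3 : 0 ≤ b l * (1 / 2 : ℝ) ^ l := mul_nonneg (hb0 l) (by positivity)
          have h4 : ((s.filter (fun i => l ≤ i ∧ i ≤ l + 3)).card : ℝ) ≤ 4 := by exact_mod_cast hcard
          gcongr
  have h5 : (0:ℝ) ≤ (2 : ℝ) ^ ((l : ℤ) - 1) := by positivity
  calc (2 : ℝ) ^ ((l : ℤ) - 1) * (‖∑ i ∈ s, a i * (mult χ c l i * sin (2 ^ i * x c))‖ * ‖e‖)
      ≤ (2 : ℝ) ^ ((l : ℤ) - 1) * (4 * (b l * (1 / 2 : ℝ) ^ l) * 1) :=
        mul_le_mul_of_nonneg_left (mul_le_mul h1 he (norm_nonneg _) (by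
          have := hb0 l
          positivity)) h5
    _ = 2 * b l := by
        rw [zpow_pred]
        have : (2:ℝ) ^ l * (1 / 2 : ℝ) ^ l = 1 := by rw [← mul_pow]; norm_num
        calc (2:ℝ) ^ l / 2 * (4 * (b l * (1 / 2 : ℝ) ^ l) * 1) =
            2 * b l * ((2:ℝ) ^ l * (1 / 2 : ℝ) ^ l) := by ring
          _ = _ := by rw [this, mul_one]

/-- blocks of high-frequency sums vanish -/
lemma block_trig_eq_zero (hχ : IsCutoff χ) (s : Finset ℕ) (a : ℕ → ℝ) (c : Fin n) (e : E n)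
    (l : ℕ) (hs : ∀ i ∈ s, ¬ (l ≤ i ∧ i ≤ l + 3)) (x : E n) :
    block χ l (fun x => trig s a (x c) • e) x = 0 := by
  rw [block_trig hχ, Finset.sum_eq_zero, zero_smul]
  intro i hi
  rw [mult_eq_zero hχ c (hs i hi)]
  ring

end Pool.Agent.Helper865.EulerBesov
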