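import Pool.Agent.Helper865.EulerBesov.Data

set_option autoImplicit false

open Set Filter Topology MeasureTheory Real
open scoped ContDiff ENNReal RealInnerProductSpace

namespace Pool.Agent.Helper865.EulerBesov

variable {n : ℕ} {χ : E n → ℝ} {q : ℝ}

/-- coefficients -/
noncomputable def cf (i : ℕ) : ℝ := 1 / ((i : ℝ) + 1)

lemma cf_nonneg (i : ℕ) : 0 ≤ cf i := by unfold cf; positivity

lemma cf_le_one (i : ℕ) : cf i ≤ 1 := by
  unfold cf
  rw [div_le_one₀ (by positivity)]
  linarith [(Nat.cast_nonneg i : (0:ℝ) ≤ i)]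

lemma cf_antitone : Antitone cf := by
  intro i j hij
  unfold cf
  have : (i:ℝ) ≤ j := by exact_mod_cast hij
  apply one_div_le_one_div_of_le (by positivity)
  linarith

noncomputable def af (i : ℕ) : ℝ := cf i * (1 / 2 : ℝ) ^ i

lemma af_nonneg (i : ℕ) : 0 ≤ af i := mul_nonneg (cf_nonneg i) (by positivity)

lemma af_le (i : ℕ) : af i ≤ (1 / 2 : ℝ) ^ i := by
  unfold af
  exact mul_le_of_le_one_left (by positivity) (cf_le_one i)

lemma abs_af_sin_le (i : ℕ) (y : ℝ) : ‖af i * sin (2 ^ i * y)‖ ≤ (1 / 2 : ℝ) ^ i := by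
  rw [Real.norm_eq_abs, abs_mul, abs_of_nonneg (af_nonneg i)]
  calc af i * |sin (2 ^ i * y)| ≤ af i * 1 := by
        have := af_nonneg i
        gcongr
        exact abs_sin_le_one _
    _ ≤ _ := by rw [mul_one]; exact af_le i

lemma summable_af_sin (y : ℝ) : Summable (fun i => af i * sin (2 ^ i * y)) :=
  Summable.of_norm_bounded summable_geometric_two fun i => abs_af_sin_le i y

/-- the limit profile -/
noncomputable def fInf (y : ℝ) : ℝ := ∑' i, af i * sin (2 ^ i * y)

/-- its partial sums -/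
noncomputable def fN (J : ℕ) : ℝ → ℝ := trig (Finset.range J) af

lemma continuous_fInf : Continuous fInf := by
  unfold fInf
  exact continuous_tsum (fun i => by fun_prop) summable_geometric_two fun i y => abs_af_sin_le i y

lemma abs_tail_le (J : ℕ) (y : ℝ) : |fInf y - fN J y| ≤ 2 * (1 / 2 : ℝ) ^ J := by
  have h1 := (summable_af_sin y).sum_add_tsum_nat_add J
  have h2 : fInf y - fN J y = ∑' i, af (i + J) * sin (2 ^ (i + J) * y) := by
    unfold fInf fN trig
    rw [← h1]
    ring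
  rw [h2]
  have h3 : HasSum (fun i : ℕ => (1 / 2 : ℝ) ^ (i + J)) (2 * (1 / 2 : ℝ) ^ J) := by
    simp_rw [pow_add]
    exact hasSum_geometric_two.mul_right _
  rw [← Real.norm_eq_abs]
  exact tsum_of_norm_bounded h3 fun i => abs_af_sin_le (i + J) y

lemma trig_Ico {J J' : ℕ} (h : J ≤ J') (y : ℝ) :
    trig (Finset.Ico J J') af y = fN J' y - fN J y := by
  unfold fN trig
  rw [Finset.sum_Ico_eq_sub _ h]

/-- the tail of the limit profile -/
noncomputable def tail (J : ℕ) (y : ℝ) : ℝ := fInf y - fN J y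

lemma continuous_tail (J : ℕ) : Continuous (tail J) :=
  continuous_fInf.sub (continuous_trig _ _)

lemma norm_block_sub_le (hχ : IsCutoff χ) {u w : E n → E n} (hu : Continuous u)
    (hw : Continuous w) {A B : ℝ} (hA : ∀ x, ‖u x‖ ≤ A) (hB : ∀ x, ‖w x‖ ≤ B) {δ : ℝ}
    (hδ : ∀ x, ‖u x - w x‖ ≤ δ) (l : ℕ) (x : E n) :
    ‖block χ l u x - block χ l w x‖ ≤ 2 * (kerL1 χ * δ) := by
  have h1 : ∀ N x, ‖lowpass χ N u x - lowpass χ N w x‖ ≤ kerL1 χ * δ := by
    intro N x
    rw [← lowpass_sub hχ hu hw hA hB]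
    exact norm_lowpass_le hχ (fun x => by simpa using hδ x) N x
  have h0 : 0 ≤ kerL1 χ * δ := (norm_nonneg _).trans (h1 0 x)
  cases l with
  | zero =>
    simp only [block]
    linarith [h1 0 x]
  | succ l =>
    simp only [block]
    calc ‖lowpass χ (l + 1) u x - lowpass χ l u x - (lowpass χ (l + 1) w x - lowpass χ l w x)‖
        = ‖(lowpass χ (l + 1) u x - lowpass χ (l + 1) w x)
            - (lowpass χ l u x - lowpass χ l w x)‖ := by congr 1; abel
      _ ≤ ‖lowpass χ (l + 1) u x - lowpass χ (l + 1) w x‖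
            + ‖lowpass χ l u x - lowpass χ l w x‖ := norm_sub_le _ _
      _ ≤ 2 * (kerL1 χ * δ) := by linarith [h1 (l + 1) x, h1 l x]

/-- blocks of the tail -/
lemma block_tail_le (hχ : IsCutoff χ) (c : Fin n) {e : E n} (he : ‖e‖ ≤ 1) (J l : ℕ) (x : E n) :
    (2 : ℝ) ^ ((l : ℤ) - 1) * ‖block χ l (fun x => tail J (x c) • e) x‖ ≤
      if l + 3 < J then 0 else 2 * cf l := by
  set w : ℕ → E n → E n := fun J' x => trig (Finset.Ico J J') af (x c) • e with hw
  have hwc : ∀ J', Continuous (w J') := fun J' => by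
    have := continuous_trig (Finset.Ico J J') af
    simp only [hw]
    fun_prop
  have huc : Continuous (fun x : E n => tail J (x c) • e) := by
    have := continuous_tail J
    fun_prop
  have htail : ∀ J y, |tail J y| ≤ 2 := by
    intro J y
    refine (abs_tail_le J y).trans ?_
    have : (1 / 2 : ℝ) ^ J ≤ 1 := pow_le_one₀ (by norm_num) (by norm_num)
    linarith
  have hub : ∀ x : E n, ‖tail J (x c) • e‖ ≤ 2 := by
    intro x
    rw [norm_smul]
    calc ‖tail J (x c)‖ * ‖e‖ ≤ 2 * 1 := by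
          apply mul_le_mul _ he (norm_nonneg _) (by norm_num)
          exact htail J _
      _ = 2 := by norm_num
  have hclose : ∀ J', J ≤ J' → ∀ x, ‖w J' x - tail J (x c) • e‖ ≤ 2 * (1 / 2 : ℝ) ^ J' := by
    intro J' hJ' x
    simp only [hw]
    rw [← sub_smul, norm_smul, trig_Ico hJ']
    have h1 : fN J' (x c) - fN J (x c) - tail J (x c) = -(fInf (x c) - fN J' (x c)) := by
      unfold tail; ring
    rw [h1, norm_neg]
    calc ‖fInf (x c) - fN J' (x c)‖ * ‖e‖ ≤ (2 * (1 / 2 : ℝ) ^ J') * 1 :=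
          mul_le_mul (abs_tail_le J' _) he (norm_nonneg _) (by positivity)
      _ = _ := mul_one _
  have hlim : Tendsto (fun J' => (2 : ℝ) ^ ((l : ℤ) - 1) * ‖block χ l (w J') x‖) atTop
      (𝓝 ((2 : ℝ) ^ ((l : ℤ) - 1) * ‖block χ l (fun x => tail J (x c) • e) x‖)) := by
    apply Tendsto.const_mul
    apply Tendsto.norm
    rw [tendsto_iff_norm_sub_tendsto_zero]
    have hz : Tendsto (fun J' : ℕ => 2 * (kerL1 χ * (2 * (1 / 2 : ℝ) ^ J'))) atTop (𝓝 0) := by
      have h2 : Tendsto (fun J' : ℕ => (1 / 2 : ℝ) ^ J') atTop (𝓝 0) :=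
        tendsto_pow_atTop_nhds_zero_of_lt_one (by norm_num) (by norm_num)
      have := ((h2.const_mul 2).const_mul (kerL1 χ)).const_mul 2
      simpa using this
    refine squeeze_zero' (Filter.Eventually.of_forall fun _ => norm_nonneg _) ?_ hz
    filter_upwards [eventually_ge_atTop J] with J' hJ'
    refine norm_block_sub_le hχ (hwc J') huc (A := 4) (fun x => ?_) hub (hclose J' hJ') l x
    have h3 := hclose J' hJ' x
    have h4 : (1 / 2 : ℝ) ^ J' ≤ 1 := pow_le_one₀ (by norm_num) (by norm_num)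
    calc ‖w J' x‖ = ‖(w J' x - tail J (x c) • e) + tail J (x c) • e‖ := by rw [sub_add_cancel]
      _ ≤ ‖w J' x - tail J (x c) • e‖ + ‖tail J (x c) • e‖ := norm_add_le _ _
      _ ≤ 4 := by linarith [hub x]
  refine le_of_tendsto' hlim fun J' => ?_
  split_ifs with h
  · simp only [hw]
    rw [block_trig_eq_zero hχ _ _ c e l (fun i hi => ?_), norm_zero, mul_zero]
    rw [Finset.mem_Ico] at hi
    omega
  · exact norm_block_trig_le hχ _ cf_antitone cf_nonneg
      (fun i _ => by rw [abs_of_nonneg (af_nonneg i)]; rfl) c he l x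

/-- summability of the model sequence -/
lemma tsum_cf_lt_top (hq : 1 < q) : (∑' l, ENNReal.ofReal (2 * cf l) ^ q) < ⊤ := by
  have hq0 : 0 ≤ q := by linarith
  have h1 : ∀ l, ENNReal.ofReal (2 * cf l) ^ q = ENNReal.ofReal ((2 * cf l) ^ q) := fun l =>
    ENNReal.ofReal_rpow_of_nonneg (by have := cf_nonneg l; positivity) hq0
  simp_rw [h1]
  have h2 : Summable (fun l : ℕ => (2 * cf l) ^ q) := by
    have h3 : Summable (fun l : ℕ => 1 / (l : ℝ) ^ q) := Real.summable_one_div_nat_rpow.2 hq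
    have h4 := ((summable_nat_add_iff 1).2 h3).mul_left ((2:ℝ) ^ q)
    refine h4.congr fun l => ?_
    rw [Real.mul_rpow (by norm_num) (cf_nonneg l)]
    congr 1
    unfold cf
    rw [Real.div_rpow (by norm_num) (by positivity), Real.one_rpow]
    push_cast
    rfl
  rw [← ENNReal.ofReal_tsum_of_nonneg (fun l => by have := cf_nonneg l; positivity) h2]
  exact ENNReal.ofReal_lt_top

/-- the tail sums -/
noncomputable def tailSum (q : ℝ) (J : ℕ) : ℝ≥0∞ :=
  ∑' l, ENNReal.ofReal (if l + 3 < J then 0 else 2 * cf l) ^ q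

lemma tendsto_tailSum (hq : 1 < q) : Tendsto (tailSum q) atTop (𝓝 0) := by
  have h1 := ENNReal.tendsto_sum_nat_add (fun l => ENNReal.ofReal (2 * cf l) ^ q)
    (tsum_cf_lt_top hq).ne
  rw [← tendsto_add_atTop_iff_nat 3]
  refine h1.congr fun J => ?_
  unfold tailSum
  rw [← Summable.sum_add_tsum_nat_add' (k := J) (f := fun l =>
    ENNReal.ofReal (if l + 3 < J + 3 then 0 else 2 * cf l) ^ q) ENNReal.summable]
  rw [Finset.sum_eq_zero, zero_add]
  · congr 1
    ext k
    rw [if_neg (by omega)]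
  · intro l hl
    rw [Finset.mem_range] at hl
    rw [if_pos (by omega), ENNReal.ofReal_zero, ENNReal.zero_rpow_of_pos (by linarith)]

lemma tailSum_zero_lt_top (hq : 1 < q) : tailSum q 0 < ⊤ := by
  unfold tailSum
  simpa using tsum_cf_lt_top hq

lemma besovNorm_tail (hχ : IsCutoff χ) (hq : 1 < q) (c : Fin n) {e : E n} (he : ‖e‖ ≤ 1)
    (J : ℕ) : besovNorm χ q (fun x => tail J (x c) • e) ^ q ≤ tailSum q J :=
  besovNorm_rpow_le (by linarith) fun l x => block_tail_le hχ c he J l x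

/-- norm of the partial sums -/
lemma besovNorm_fN (hχ : IsCutoff χ) (hq : 1 < q) (c : Fin n) {e : E n} (he : ‖e‖ ≤ 1)
    (J : ℕ) : besovNorm χ q (fun x => fN J (x c) • e) ^ q ≤
      ∑' l, ENNReal.ofReal (2 * cf l) ^ q :=
  besovNorm_rpow_le (by linarith) fun l x => norm_block_trig_le hχ _ cf_antitone cf_nonneg
      (fun i _ => by rw [abs_of_nonneg (af_nonneg i)]; rfl) c he l x

/-- the oscillating perturbation -/
noncomputable def wv (ε : ℝ) (m : ℕ) (y : ℝ) : ℝ := trig {m} (fun _ => -(ε * (2 ^ m)⁻¹)) y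

lemma wv_eq (ε : ℝ) (m : ℕ) (y : ℝ) : wv ε m y = -(ε * (2 ^ m)⁻¹) * sin (2 ^ m * y) := by
  unfold wv trig
  rw [Finset.sum_singleton]

lemma besovNorm_wv (hχ : IsCutoff χ) (hq : 1 < q) (c : Fin n) {e : E n} (he : ‖e‖ ≤ 1)
    {ε : ℝ} (hε : 0 ≤ ε) (m : ℕ) :
    besovNorm χ q (fun x => wv ε m (x c) • e) ^ q ≤ 4 * ENNReal.ofReal (2 * ε) ^ q := by
  have hq0 : 0 < q := by linarith
  have h1 : besovNorm χ q (fun x => wv ε m (x c) • e) ^ q ≤
      ∑' l, ENNReal.ofReal (if l ≤ m ∧ m ≤ l + 3 then 2 * ε else 0) ^ q := by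
    apply besovNorm_rpow_le hq0
    intro l x
    split_ifs with h
    · exact norm_block_trig_le hχ {m} (b := fun _ => ε) (fun _ _ _ => le_rfl) (fun _ => hε)
        (fun i hi => by
          rw [Finset.mem_singleton] at hi
          subst hi
          rw [abs_neg, abs_of_nonneg (by positivity), one_div, inv_pow]) c he l x
    · unfold wv
      rw [block_trig_eq_zero hχ _ _ c e l (fun i hi => ?_), norm_zero, mul_zero]
      rw [Finset.mem_singleton] at hi
      subst hi
      exact h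
  refine h1.trans ?_
  rw [tsum_eq_sum (s := Finset.Icc (m - 3) m)]
  · calc ∑ l ∈ Finset.Icc (m - 3) m,
          ENNReal.ofReal (if l ≤ m ∧ m ≤ l + 3 then 2 * ε else 0) ^ q
        ≤ ∑ l ∈ Finset.Icc (m - 3) m, ENNReal.ofReal (2 * ε) ^ q := by
          apply Finset.sum_le_sum
          intro l _
          apply ENNReal.rpow_le_rpow _ hq0.le
          apply ENNReal.ofReal_le_ofReal
          split_ifs
          · exact le_rfl
          · positivity
      _ = ((Finset.Icc (m - 3) m).card : ℝ≥0∞) * ENNReal.ofReal (2 * ε) ^ q := by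
          rw [Finset.sum_const, nsmul_eq_mul]
      _ ≤ 4 * ENNReal.ofReal (2 * ε) ^ q := by
          gcongr
          have : (Finset.Icc (m - 3) m).card ≤ 4 := by
            rw [Nat.card_Icc]; omega
          exact_mod_cast this
  · intro l hl
    rw [Finset.mem_Icc] at hl
    rw [if_neg (by omega), ENNReal.ofReal_zero, ENNReal.zero_rpow_of_pos hq0]

end Pool.Agent.Helper865.EulerBesov
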