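import Pool.Agent.Helper865.EulerBesov.Data2

set_option autoImplicit false

open Set Filter Topology MeasureTheory Real
open scoped ContDiff ENNReal RealInnerProductSpace

namespace Pool.Agent.Helper865.EulerBesov

variable {n : ℕ} {χ : E n → ℝ} {q : ℝ}

lemma divFree_shear {F : ℝ → ℝ} (hF : Continuous F) {c j : Fin n} (hcj : c ≠ j) :
    DivFree (fun x : E n => F (x c) • EuclideanSpace.single j (1:ℝ)) := by
  intro ψ hψ hc
  have hψd : Differentiable ℝ ψ := hψ.differentiable (by simp)
  have hψc : Continuous (fun x => fderiv ℝ ψ x (EuclideanSpace.single j (1:ℝ))) :=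
    (hψ.continuous_fderiv (by simp)).clm_apply continuous_const
  have hFc : Continuous (fun x : E n => F (x c)) := by fun_prop
  have h1 : (∫ x, F (x c) * fderiv ℝ ψ x (EuclideanSpace.single j (1:ℝ))) =
      -∫ x, (0:ℝ) * ψ x := by
    have hcs : HasCompactSupport (fun x => fderiv ℝ ψ x (EuclideanSpace.single j (1:ℝ))) := by
      refine (hc.fderiv ℝ).mono fun x hx => ?_
      rw [Function.mem_support] at hx ⊢
      intro h0
      exact hx (by rw [h0]; rfl)
    refine integral_bilinear_hasLineDerivAt_right_eq_neg_left_of_integrable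
      (B := ContinuousLinearMap.mul ℝ ℝ) (f := fun x : E n => F (x c)) (f' := fun _ => 0)
      (g := ψ) (g' := fun x => fderiv ℝ ψ x (EuclideanSpace.single j (1:ℝ)))
      (v := EuclideanSpace.single j (1:ℝ)) (μ := volume) ?_ ?_ ?_ ?_ ?_
    · simp
    · exact (hFc.mul hψc).integrable_of_hasCompactSupport hcs.mul_left
    · exact (hFc.mul hψ.continuous).integrable_of_hasCompactSupport hc.mul_left
    · intro x _
      unfold HasLineDerivAt
      have h2 : ∀ t : ℝ, (x + t • EuclideanSpace.single j (1:ℝ)) c = x c := by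
        intro t
        simp [hcj]
      simp only [h2]
      exact hasDerivAt_const _ _
    · intro x _
      exact (hψd x).hasFDerivAt.hasLineDerivAt _
  simp only [zero_mul, integral_zero, neg_zero] at h1
  rw [← h1]
  congr 1
  ext x
  rw [map_smul, smul_eq_mul]

lemma DivFree.add {u w : E n → E n} (hu : DivFree u) (hw : DivFree w) (cu : Continuous u)
    (cw : Continuous w) : DivFree (u + w) := by
  intro ψ hψ hc
  have hψc : Continuous (fderiv ℝ ψ) := hψ.continuous_fderiv (by simp)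
  have hcs : ∀ v : E n → E n, HasCompactSupport (fun x => fderiv ℝ ψ x (v x)) := by
    intro v
    refine (hc.fderiv ℝ).mono fun x hx => ?_
    rw [Function.mem_support] at hx ⊢
    intro h0
    exact hx (by rw [h0]; rfl)
  simp only [Pi.add_apply, map_add]
  rw [integral_add, hu ψ hψ hc, hw ψ hψ hc, add_zero]
  · exact (hψc.clm_apply cu).integrable_of_hasCompactSupport (hcs u)
  · exact (hψc.clm_apply cw).integrable_of_hasCompactSupport (hcs w)

section two
variable {d : ℕ} {χ : E (d + 2) → ℝ}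

/-- the limit datum -/
noncomputable def UInf (d : ℕ) (x : E (d + 2)) : E (d + 2) :=
  fInf (x 1) • EuclideanSpace.single 0 (1:ℝ)

/-- the approximating data -/
noncomputable def VJ (d : ℕ) (J : ℕ) (ε : ℝ) (m : ℕ) : E (d + 2) → E (d + 2) :=
  (fun x => fN J (x 1) • EuclideanSpace.single 0 (1:ℝ)) +
    fun x => wv ε m (x 0) • EuclideanSpace.single 1 (1:ℝ)

lemma norm_e (j : Fin n) : ‖(EuclideanSpace.single j (1:ℝ) : E n)‖ = 1 := by
  rw [PiLp.norm_single, norm_one]

lemma abs_fN_le (J : ℕ) (y : ℝ) : |fN J y| ≤ 2 := by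
  unfold fN trig
  calc |∑ i ∈ Finset.range J, af i * sin (2 ^ i * y)|
      ≤ ∑ i ∈ Finset.range J, |af i * sin (2 ^ i * y)| := Finset.abs_sum_le_sum_abs _ _
    _ ≤ ∑ i ∈ Finset.range J, (1 / 2 : ℝ) ^ i := Finset.sum_le_sum fun i _ => abs_af_sin_le i y
    _ ≤ 2 := by
        have := Summable.sum_le_tsum (Finset.range J) (fun i _ => by positivity)
          summable_geometric_two
        rwa [tsum_geometric_two] at this

lemma abs_fInf_le (y : ℝ) : |fInf y| ≤ 2 := by
  have := abs_tail_le 0 y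
  simpa [fN, trig] using this

lemma abs_wv_le (ε : ℝ) (m : ℕ) (y : ℝ) : |wv ε m y| ≤ |ε * (2 ^ m)⁻¹| := by
  rw [wv_eq, abs_mul, abs_neg]
  exact mul_le_of_le_one_right (abs_nonneg _) (abs_sin_le_one _)

lemma lt_top_of_rpow_le (hq : 0 < q) {a b : ℝ≥0∞} (h : a ^ q ≤ b) (hb : b < ⊤) : a < ⊤ :=
  (ENNReal.rpow_lt_top_iff_of_pos hq).1 (h.trans_lt hb)

lemma continuous_shear {F : ℝ → ℝ} (hF : Continuous F) (c : Fin n) (e : E n) :
    Continuous (fun x : E n => F (x c) • e) := by fun_prop

lemma norm_shear_le {F : ℝ → ℝ} {C : ℝ} (hF : ∀ y, |F y| ≤ C) (c j : Fin n) (x : E n) :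
    ‖F (x c) • (EuclideanSpace.single j (1:ℝ) : E n)‖ ≤ C := by
  rw [norm_smul, norm_e, mul_one]
  exact hF _

lemma memBesov_UInf (hχ : IsCutoff χ) (hq : 1 < q) : MemBesov χ q (UInf d) where
  continuous := continuous_shear continuous_fInf _ _
  bounded := ⟨2, fun x => norm_shear_le abs_fInf_le _ _ x⟩
  norm_lt_top := by
    have h1 := besovNorm_tail hχ hq (1 : Fin (d + 2)) (norm_e (0 : Fin (d + 2))).le 0
    have h2 : (fun x : E (d + 2) => tail 0 (x 1) • EuclideanSpace.single 0 (1:ℝ)) = UInf d := by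
      ext1 x
      simp [UInf, tail, fN, trig]
    rw [h2] at h1
    exact lt_top_of_rpow_le (by linarith) h1 (tailSum_zero_lt_top hq)

lemma divFree_UInf : DivFree (UInf d) :=
  divFree_shear continuous_fInf (by simp)

lemma continuous_wv (ε : ℝ) (m : ℕ) : Continuous (wv ε m) := continuous_trig _ _

lemma memBesov_VJ (hχ : IsCutoff χ) (hq : 1 < q) (J : ℕ) {ε : ℝ} (hε : 0 ≤ ε) (m : ℕ) :
    MemBesov χ q (VJ d J ε m) where
  continuous := (continuous_shear (continuous_trig _ _) _ _).add
    (continuous_shear (continuous_wv ε m) _ _)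
  bounded := ⟨2 + |ε * (2 ^ m)⁻¹|, fun x => (norm_add_le _ _).trans
    (add_le_add (norm_shear_le (abs_fN_le J) _ _ x) (norm_shear_le (abs_wv_le ε m) _ _ x))⟩
  norm_lt_top := by
    have hq0 : 0 < q := by linarith
    have h1 := besovNorm_fN hχ hq (1 : Fin (d + 2)) (norm_e (0 : Fin (d + 2))).le J
    have h2 := besovNorm_wv hχ hq (0 : Fin (d + 2)) (norm_e (1 : Fin (d + 2))).le hε m
    have h3 := besovNorm_add_rpow hχ hq.le
      (continuous_shear (n := d + 2) (continuous_trig (Finset.range J) af) 1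
        (EuclideanSpace.single 0 (1:ℝ)))
      (continuous_shear (n := d + 2) (continuous_wv ε m) 0 (EuclideanSpace.single 1 (1:ℝ)))
      (fun x => norm_shear_le (abs_fN_le J) _ _ x) (fun x => norm_shear_le (abs_wv_le ε m) _ _ x)
    refine lt_top_of_rpow_le hq0 h3 ?_
    apply ENNReal.mul_lt_top
    · exact ENNReal.rpow_lt_top_of_nonneg (by linarith) (by norm_num)
    · refine ENNReal.add_lt_top.2 ⟨h1.trans_lt (tsum_cf_lt_top hq), h2.trans_lt ?_⟩
      apply ENNReal.mul_lt_top (by norm_num)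
      exact ENNReal.rpow_lt_top_of_nonneg hq0.le ENNReal.ofReal_ne_top

lemma divFree_VJ (J : ℕ) (ε : ℝ) (m : ℕ) : DivFree (VJ d J ε m) :=
  DivFree.add (divFree_shear (continuous_trig _ _) (by simp))
    (divFree_shear (continuous_wv ε m) (by simp))
    (continuous_shear (continuous_trig _ _) _ _) (continuous_shear (continuous_wv ε m) _ _)

/-- distance of the data to the limit datum -/
lemma besovNorm_VJ_sub (hχ : IsCutoff χ) (hq : 1 < q) (J : ℕ) {ε : ℝ} (hε : 0 ≤ ε) (m : ℕ) :
    besovNorm χ q (VJ d J ε m - UInf d) ^ q ≤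
      (2 : ℝ≥0∞) ^ (q - 1) * (4 * ENNReal.ofReal (2 * ε) ^ q + tailSum q J) := by
  have h1 := besovNorm_tail hχ hq (1 : Fin (d + 2)) (e := -EuclideanSpace.single 0 (1:ℝ))
    (by rw [norm_neg, norm_e]) J
  have h2 := besovNorm_wv hχ hq (0 : Fin (d + 2)) (norm_e (1 : Fin (d + 2))).le hε m
  have h4 : ∀ x : E (d + 2), ‖tail J (x 1) • (-EuclideanSpace.single 0 (1:ℝ) : E (d + 2))‖ ≤
      2 * (1 / 2 : ℝ) ^ J := by
    intro x
    rw [norm_smul, norm_neg, norm_e, mul_one]
    exact abs_tail_le J _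
  have h3 := besovNorm_add_rpow hχ hq.le
    (continuous_shear (n := d + 2) (continuous_wv ε m) 0 (EuclideanSpace.single 1 (1:ℝ)))
    (continuous_shear (n := d + 2) (continuous_tail J) 1 (-EuclideanSpace.single 0 (1:ℝ)))
    (fun x => norm_shear_le (abs_wv_le ε m) _ _ x) h4
  have h5 : (fun x : E (d + 2) => wv ε m (x 0) • (EuclideanSpace.single 1 (1:ℝ) : E (d + 2))) +
      (fun x => tail J (x 1) • (-EuclideanSpace.single 0 (1:ℝ) : E (d + 2))) =
      VJ d J ε m - UInf d := by
    ext1 x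
    simp only [VJ, UInf, tail, Pi.add_apply, Pi.sub_apply, smul_neg, sub_smul]
    abel
  rw [h5] at h3
  refine h3.trans ?_
  gcongr

end two

end Pool.Agent.Helper865.EulerBesov
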