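import Pool.Agent.Helper865.EulerBesov.Data3

set_option autoImplicit false

open Set Filter Topology MeasureTheory Real
open scoped ContDiff ENNReal RealInnerProductSpace

namespace Pool.Agent.Helper865.EulerBesov

noncomputable def gN (J : ℕ) (y : ℝ) : ℝ := ∑ i ∈ Finset.range J, af i * (2 ^ i * cos (2 ^ i * y))

noncomputable def gN1 (J : ℕ) (y : ℝ) : ℝ :=
  ∑ i ∈ Finset.range J, af i * (2 ^ i * (-(2 ^ i * sin (2 ^ i * y))))

noncomputable def gN2 (J : ℕ) (y : ℝ) : ℝ :=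
  ∑ i ∈ Finset.range J, af i * (2 ^ i * (-(2 ^ i * (2 ^ i * cos (2 ^ i * y)))))

lemma hasDerivAt_sin_mul (c y : ℝ) : HasDerivAt (fun y => sin (c * y)) (c * cos (c * y)) y := by
  have := ((hasDerivAt_id y).const_mul c).sin
  refine this.congr_deriv ?_
  simp only [id]
  ring

lemma hasDerivAt_cos_mul (c y : ℝ) : HasDerivAt (fun y => cos (c * y)) (-(c * sin (c * y))) y := by
  have := ((hasDerivAt_id y).const_mul c).cos
  refine this.congr_deriv ?_
  simp only [id]
  ring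

lemma sin_two_pow_per (i : ℕ) (y : ℝ) : sin (2 ^ i * (y + 2 * π)) = sin (2 ^ i * y) := by
  have h := sin_add_nat_mul_two_pi (2 ^ i * y) (2 ^ i)
  push_cast at h
  rw [mul_add]
  exact h

lemma prof_fN (J : ℕ) : Prof (fN J) (gN J) (gN1 J) (gN2 J) where
  hf := fun y => by
    unfold fN gN trig
    exact HasDerivAt.fun_sum fun i _ => (hasDerivAt_sin_mul (2 ^ i) y).const_mul _
  hg := fun y => by
    unfold gN gN1
    exact HasDerivAt.fun_sum fun i _ => ((hasDerivAt_cos_mul (2 ^ i) y).const_mul _).const_mul _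
  hg1 := fun y => by
    unfold gN1 gN2
    exact HasDerivAt.fun_sum fun i _ =>
      ((((hasDerivAt_sin_mul (2 ^ i) y).const_mul _).neg).const_mul _).const_mul _
  cg2 := by
    unfold gN2
    fun_prop
  per := fun y => by
    unfold fN trig
    simp_rw [sin_two_pow_per]

lemma gN_zero (J : ℕ) : gN J 0 = ∑ i ∈ Finset.range J, 1 / ((i : ℝ) + 1) := by
  unfold gN
  apply Finset.sum_congr rfl
  intro i _
  rw [mul_zero, cos_zero, mul_one]
  unfold af cf
  rw [mul_assoc, ← mul_pow]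
  norm_num

lemma tendsto_gN_zero : Tendsto (fun J => gN J 0) atTop atTop := by
  simp_rw [gN_zero]
  exact Real.tendsto_sum_range_one_div_nat_succ_atTop

/-- the derivative takes all values between `0` and its value at the origin -/
lemma exists_gN_eq (J : ℕ) {w : ℝ} (h0 : 0 ≤ w) (h1 : w ≤ gN J 0) : ∃ y, gN J y = w := by
  have hp := prof_fN J
  have h2 : fN J 0 = fN J (2 * π) := by
    have := hp.per 0
    rw [zero_add] at this
    exact this.symm
  obtain ⟨c, _, hc⟩ := exists_hasDerivAt_eq_zero (by positivity : (0:ℝ) < 2 * π)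
    hp.cf.continuousOn h2 (fun x _ => hp.hf x)
  have h3 := intermediate_value_univ c 0 hp.cg
  rw [hc] at h3
  exact h3 ⟨h0, h1⟩

variable {d : ℕ}

lemma VJ_zero (J : ℕ) (ε : ℝ) (m : ℕ) (x : E (d + 2)) : VJ d J ε m x 0 = fN J (x 1) := by
  simp [VJ]

lemma VJ_one (J : ℕ) (ε : ℝ) (m : ℕ) (x : E (d + 2)) :
    VJ d J ε m x 1 = -(ε * ((2 ^ m : ℕ) : ℝ)⁻¹) * sin (((2 ^ m : ℕ) : ℝ) * x 0) := by
  simp [VJ, wv_eq]

lemma VJ_ss (J : ℕ) (ε : ℝ) (m : ℕ) (x : E (d + 2)) (i : Fin d) :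
    VJ d J ε m x i.succ.succ = 0 := by
  simp [VJ, Fin.succ_ne_zero, Fin.succ_succ_ne_one]

lemma isPer_VJ (J : ℕ) (ε : ℝ) (m : ℕ) : IsPer (VJ d J ε m) := by
  intro x k
  have h0 : IsPer (fun x : E (d + 2) => fN J (x 1)) :=
    isPer_two (F := fun _ Y => fN J Y) (fun _ _ => rfl) (fun _ Y => (prof_fN J).per Y)
  have h1 : IsPer (fun x : E (d + 2) => wv ε m (x 0)) :=
    isPer_two (F := fun X _ => wv ε m X)
      (fun X _ => by simp only [wv_eq, sin_two_pow_per]) (fun _ _ => rfl)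
  have e0 := h0 x k
  have e1 := h1 x k
  simp only at e0 e1
  simp only [VJ, Pi.add_apply, e0, e1]

end Pool.Agent.Helper865.EulerBesov
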