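import Mathlib

set_option autoImplicit false

open Set Filter Topology MeasureTheory Real
open scoped ContDiff ENNReal RealInnerProductSpace

namespace Pool.Agent.Helper865.EulerBesov

/-- Euclidean space `ℝⁿ`. -/
abbrev E (n : ℕ) : Type := EuclideanSpace ℝ (Fin n)

/-- A radial smooth cutoff `χ` on frequency space with values in `[0,1]`, equal to `1` for
`‖ξ‖ ≤ 1` and to `0` for `‖ξ‖ ≥ 2`. Then `χ(ξ) + ∑_{j ≥ 0} φ(2^{-j}ξ) = 1` with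
`φ(ξ) = χ(ξ/2) - χ(ξ)` is a Littlewood–Paley partition of unity. -/
structure IsCutoff {n : ℕ} (χ : E n → ℝ) : Prop where
  smooth : ContDiff ℝ ∞ χ
  radial : ∀ ξ η : E n, ‖ξ‖ = ‖η‖ → χ ξ = χ η
  nonneg : ∀ ξ, 0 ≤ χ ξ
  le_one : ∀ ξ, χ ξ ≤ 1
  one : ∀ ξ, ‖ξ‖ ≤ 1 → χ ξ = 1
  zero : ∀ ξ, 2 ≤ ‖ξ‖ → χ ξ = 0

/-- The convolution kernel of the Fourier multiplier `χ(D)`, i.e. the inverse Fourier transform
of the radial real function `χ`. -/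
noncomputable def kernel {n : ℕ} (χ : E n → ℝ) (y : E n) : ℝ :=
  ∫ ξ, χ ξ * Real.cos (2 * π * ⟪ξ, y⟫)

/-- The low-frequency cutoff `χ(2^{-N}D)u`, i.e. convolution of `u` with
`2^{Nn} kernel(2^N ·)`. -/
noncomputable def lowpass {n : ℕ} (χ : E n → ℝ) (N : ℕ) (u : E n → E n) (x : E n) : E n :=
  ∫ y, kernel χ y • u (x - (1 / 2 : ℝ) ^ N • y)

/-- The Littlewood–Paley blocks, with the index shifted by one: `block χ j = Δ_{j-1}`, where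
`Δ_{-1} u = χ(D)u` and `Δ_j u = φ(2^{-j}D)u = χ(2^{-(j+1)}D)u - χ(2^{-j}D)u`. -/
noncomputable def block {n : ℕ} (χ : E n → ℝ) : ℕ → (E n → E n) → E n → E n
  | 0, u, x => lowpass χ 0 u x
  | j + 1, u, x => lowpass χ (j + 1) u x - lowpass χ j u x

/-- The norm of the Besov space `B¹_{∞,q}`: the `ℓ^q` norm of
`(2^j ‖Δ_j u‖_{L^∞})_{j ≥ -1}`. -/
noncomputable def besovNorm {n : ℕ} (χ : E n → ℝ) (q : ℝ) (u : E n → E n) : ℝ≥0∞ :=
  (∑' j : ℕ, (ENNReal.ofReal ((2 : ℝ) ^ ((j : ℤ) - 1)) * ⨆ x, ‖block χ j u x‖ₑ) ^ q) ^ (1 / q)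

/-- Membership in `B¹_{∞,q}(ℝⁿ;ℝⁿ)` (whose elements are bounded continuous fields). -/
structure MemBesov {n : ℕ} (χ : E n → ℝ) (q : ℝ) (u : E n → E n) : Prop where
  continuous : Continuous u
  bounded : ∃ C : ℝ, ∀ x, ‖u x‖ ≤ C
  norm_lt_top : besovNorm χ q u < ⊤

/-- The field `u` is divergence free in the sense of distributions. -/
def DivFree {n : ℕ} (u : E n → E n) : Prop :=
  ∀ ψ : E n → ℝ, ContDiff ℝ ∞ ψ → HasCompactSupport ψ → ∫ x, fderiv ℝ ψ x (u x) = 0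

/-- The divergence of a smooth vector field. -/
noncomputable def divergence {n : ℕ} (φ : E n → E n) (x : E n) : ℝ :=
  ∑ i, fderiv ℝ φ x (EuclideanSpace.single i 1) i

/-- `u ∈ C([0,T]; B¹_{∞,q})` is a solution on `[0,T]` of the incompressible Euler equations
`∂ₜu + (u·∇)u + ∇p = 0`, `div u = 0`, `u(0) = u₀`, in the sense of distributions, with a
continuous pressure `p` of sublinear growth at infinity. -/
structure IsSolution {n : ℕ} (χ : E n → ℝ) (q T : ℝ) (u₀ : E n → E n) (u : ℝ → E n → E n) :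
    Prop where
  initial : u 0 = u₀
  mem : ∀ t ∈ Icc 0 T, MemBesov χ q (u t)
  continuous : ∀ t ∈ Icc 0 T,
    Tendsto (fun s => besovNorm χ q (u s - u t)) (𝓝[Icc 0 T] t) (𝓝 0)
  divFree : ∀ t ∈ Icc 0 T, DivFree (u t)
  momentum : ∃ p : ℝ → E n → ℝ,
    ContinuousOn (fun z : ℝ × E n => p z.1 z.2) (Icc 0 T ×ˢ univ) ∧
    (∀ ε > 0, ∃ R : ℝ, ∀ t ∈ Icc 0 T, ∀ x : E n, R ≤ ‖x‖ → |p t x| ≤ ε * ‖x‖) ∧
    ∀ t ∈ Icc 0 T, ∀ φ : E n → E n, ContDiff ℝ ∞ φ → HasCompactSupport φ →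
      (∫ x, ⟪u t x - u 0 x, φ x⟫) =
        ∫ s in (0 : ℝ)..t, ∫ x, (⟪u s x, fderiv ℝ φ x (u s x)⟫ + p s x * divergence φ x)

/-- Local well-posedness (existence, uniqueness, continuous dependence) of the incompressible
Euler equations in `B¹_{∞,q}(ℝⁿ)`: for every divergence-free datum `u₀` there are `T > 0` and
`δ > 0` such that every divergence-free datum `v₀` with `‖v₀ - u₀‖ < δ` has a unique solution
`S v₀ ∈ C([0,T]; B¹_{∞,q})`, and `S` is continuous at `u₀` as a map into `C([0,T]; B¹_{∞,q})`. -/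
def LocallyWellPosed {n : ℕ} (χ : E n → ℝ) (q : ℝ) : Prop :=
  ∀ u₀ : E n → E n, MemBesov χ q u₀ → DivFree u₀ →
    ∃ T : ℝ, 0 < T ∧ ∃ δ : ℝ≥0∞, 0 < δ ∧ ∃ S : (E n → E n) → ℝ → E n → E n,
      (∀ v₀, MemBesov χ q v₀ → DivFree v₀ → besovNorm χ q (v₀ - u₀) < δ →
        IsSolution χ q T v₀ (S v₀) ∧
          ∀ v, IsSolution χ q T v₀ v → ∀ t ∈ Icc 0 T, v t = S v₀ t) ∧
      ∀ ε : ℝ≥0∞, 0 < ε → ∃ δ' : ℝ≥0∞, 0 < δ' ∧
        ∀ v₀, MemBesov χ q v₀ → DivFree v₀ → besovNorm χ q (v₀ - u₀) < δ' →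
          ∀ t ∈ Icc 0 T, besovNorm χ q (S v₀ t - S u₀ t) ≤ ε

end Pool.Agent.Helper865.EulerBesov
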