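import Pool.Agent.Helper865.EulerBesov.Moll

set_option autoImplicit false

open Set Filter Topology MeasureTheory Real
open scoped ContDiff ENNReal RealInnerProductSpace Convolution

namespace Pool.Agent.Helper865.EulerBesov

variable {n : ℕ}

lemma pd_add {f g : E n → ℝ} {x : E n} (j : Fin n) (hf : DifferentiableAt ℝ f x)
    (hg : DifferentiableAt ℝ g x) : pd j (fun x => f x + g x) x = pd j f x + pd j g x := by
  unfold pd
  rw [(hf.hasFDerivAt.fun_add hg.hasFDerivAt).fderiv]
  rfl

lemma pd_sub {f g : E n → ℝ} {x : E n} (j : Fin n) (hf : DifferentiableAt ℝ f x)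
    (hg : DifferentiableAt ℝ g x) : pd j (fun x => f x - g x) x = pd j f x - pd j g x := by
  unfold pd
  rw [(hf.hasFDerivAt.fun_sub hg.hasFDerivAt).fderiv]
  rfl

lemma pd_mul {f g : E n → ℝ} {x : E n} (j : Fin n) (hf : DifferentiableAt ℝ f x)
    (hg : DifferentiableAt ℝ g x) :
    pd j (fun x => f x * g x) x = f x * pd j g x + pd j f x * g x := by
  unfold pd
  rw [(hf.hasFDerivAt.fun_mul hg.hasFDerivAt).fderiv]
  simp
  ring

lemma pd_sum {ι : Type*} (s : Finset ι) {f : ι → E n → ℝ} {x : E n} (j : Fin n)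
    (hf : ∀ i ∈ s, DifferentiableAt ℝ (f i) x) :
    pd j (fun x => ∑ i ∈ s, f i x) x = ∑ i ∈ s, pd j (f i) x := by
  unfold pd
  rw [(HasFDerivAt.fun_sum fun i hi => (hf i hi).hasFDerivAt).fderiv]
  simp

lemma pd_congr {f g : E n → ℝ} (h : ∀ x, f x = g x) (j : Fin n) (x : E n) :
    pd j f x = pd j g x := by
  rw [show f = g from funext h]

lemma continuous_pd {f : E n → ℝ} (hf : ContDiff ℝ 1 f) (j : Fin n) : Continuous (pd j f) :=
  (hf.continuous_fderiv one_ne_zero).clm_apply continuous_const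

/-- The energy identity at a fixed time. -/
lemma energy_identity
    (z u V : Fin n → E n → ℝ) (W : Fin n → Fin n → E n → ℝ) (P : E n → ℝ) (F : Fin n → E n → ℝ)
    (hz : ∀ i, ContDiff ℝ 1 (z i)) (hu : ∀ i, ContDiff ℝ 1 (u i)) (hV : ∀ i, ContDiff ℝ 1 (V i))
    (hW : ∀ i j, ContDiff ℝ 1 (W i j)) (hP : ContDiff ℝ 1 P) (hF : ∀ i, Continuous (F i))
    (pz : ∀ i, IsPer (z i)) (pu : ∀ i, IsPer (u i)) (pV : ∀ i, IsPer (V i))
    (pW : ∀ i j, IsPer (W i j)) (pP : IsPer P)
    (hzV : ∀ i x, V i x = z i x + u i x)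
    (dz : ∀ x, ∑ j, pd j (z j) x = 0) (dV : ∀ x, ∑ j, pd j (V j) x = 0) :
    (∫ x in Q n, ∑ i, z i x * (-(∑ j, pd j (W i j) x) - pd i P x
        + (∑ j, u j x * pd j (u i) x) - F i x)) =
    ∫ x in Q n, (-(∑ i, ∑ j, z i x * z j x * pd j (u i) x) - (∑ i, z i x * F i x)
        + ∑ i, ∑ j, pd j (z i) x * (W i j x - V i x * V j x)) := by
  -- the flux
  obtain ⟨S, hS⟩ : ∃ S : E n → ℝ, S = fun x => ∑ i, (1 / 2 * (z i x * z i x) + z i x * u i x) :=
    ⟨_, rfl⟩
  obtain ⟨Φ, hΦ⟩ : ∃ Φ : Fin n → E n → ℝ, Φ = fun j x =>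
    S x * V j x - (∑ i, z i x * W i j x) - z j x * P x := ⟨_, rfl⟩
  have dz' : ∀ i x, DifferentiableAt ℝ (z i) x := fun i x => (hz i).differentiable one_ne_zero x
  have du' : ∀ i x, DifferentiableAt ℝ (u i) x := fun i x => (hu i).differentiable one_ne_zero x
  have dV' : ∀ i x, DifferentiableAt ℝ (V i) x := fun i x => (hV i).differentiable one_ne_zero x
  have dW' : ∀ i j x, DifferentiableAt ℝ (W i j) x :=
    fun i j x => (hW i j).differentiable one_ne_zero x
  have dP' : ∀ x, DifferentiableAt ℝ P x := fun x => hP.differentiable one_ne_zero x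
  have hScd : ContDiff ℝ 1 S := by
    rw [hS]
    apply ContDiff.sum
    intro i _
    exact (contDiff_const.mul ((hz i).mul (hz i))).add ((hz i).mul (hu i))
  have dS' : ∀ x, DifferentiableAt ℝ S x := fun x => hScd.differentiable one_ne_zero x
  have hΦcd : ∀ j, ContDiff ℝ 1 (Φ j) := by
    intro j
    rw [hΦ]
    refine ((hScd.mul (hV j)).sub ?_).sub ((hz j).mul hP)
    apply ContDiff.sum
    intro i _
    exact (hz i).mul (hW i j)
  have pΦ : ∀ j, IsPer (Φ j) := by
    intro j x k
    simp only [hΦ, hS]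
    simp only [pz _ x k, pu _ x k, pV _ x k, pW _ _ x k, pP x k]
  have pdS : ∀ j x, pd j S x = ∑ i, (z i x * pd j (z i) x + (z i x * pd j (u i) x
      + pd j (z i) x * u i x)) := by
    intro j x
    have a1 : ∀ i, DifferentiableAt ℝ (fun x => z i x * z i x) x := fun i =>
      (dz' i x).fun_mul (dz' i x)
    have a2 : ∀ i, DifferentiableAt ℝ (fun x => 1 / 2 * (z i x * z i x)) x := fun i =>
      (a1 i).const_mul (1 / 2)
    have a3 : ∀ i, DifferentiableAt ℝ (fun x => z i x * u i x) x := fun i =>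
      (dz' i x).fun_mul (du' i x)
    have a4 : ∀ i, DifferentiableAt ℝ (fun x => 1 / 2 * (z i x * z i x) + z i x * u i x) x :=
      fun i => (a2 i).fun_add (a3 i)
    rw [hS, pd_sum Finset.univ j fun i _ => a4 i]
    apply Finset.sum_congr rfl
    intro i _
    rw [pd_add j (a2 i) (a3 i), pd_mul j (dz' i x) (du' i x),
      pd_mul (f := fun _ => (1 / 2 : ℝ)) j (differentiableAt_const _) (a1 i),
      pd_mul j (dz' i x) (dz' i x)]
    have : pd j (fun _ : E n => (1 / 2 : ℝ)) x = 0 := by simp [pd]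
    rw [this]
    ring
  have pdΦ : ∀ j x, pd j (Φ j) x = (S x * pd j (V j) x + pd j S x * V j x)
      - (∑ i, (z i x * pd j (W i j) x + pd j (z i) x * W i j x))
      - (z j x * pd j P x + pd j (z j) x * P x) := by
    intro j x
    have e1 : DifferentiableAt ℝ (fun x => S x * V j x) x := (dS' x).fun_mul (dV' j x)
    have e2 : DifferentiableAt ℝ (fun x => ∑ i, z i x * W i j x) x :=
      DifferentiableAt.fun_sum fun i _ => (dz' i x).fun_mul (dW' i j x)
    have e3 : DifferentiableAt ℝ (fun x => z j x * P x) x := (dz' j x).fun_mul (dP' x)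
    have e4 : DifferentiableAt ℝ (fun x => S x * V j x - ∑ i, z i x * W i j x) x := e1.fun_sub e2
    rw [hΦ]
    rw [pd_sub j e4 e3, pd_sub j e1 e2, pd_mul j (dS' x) (dV' j x),
      pd_mul j (dz' j x) (dP' x), pd_sum Finset.univ j fun i _ => (dz' i x).fun_mul (dW' i j x)]
    congr 2
    apply Finset.sum_congr rfl
    intro i _
    exact pd_mul j (dz' i x) (dW' i j x)
  -- pointwise identity
  have key : ∀ x, (∑ i, z i x * (-(∑ j, pd j (W i j) x) - pd i P x
        + (∑ j, u j x * pd j (u i) x) - F i x)) =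
      (-(∑ i, ∑ j, z i x * z j x * pd j (u i) x) - (∑ i, z i x * F i x)
        + ∑ i, ∑ j, pd j (z i) x * (W i j x - V i x * V j x)) + ∑ j, pd j (Φ j) x := by
    intro x
    have h1 : ∑ j, pd j (Φ j) x = ∑ j, ∑ i, (z i x * pd j (z i) x + (z i x * pd j (u i) x
      + pd j (z i) x * u i x)) * V j x - (∑ j, ∑ i, (z i x * pd j (W i j) x
        + pd j (z i) x * W i j x)) - ∑ j, z j x * pd j P x := by
      have : ∀ j, pd j (Φ j) x = (∑ i, (z i x * pd j (z i) x + (z i x * pd j (u i) x
          + pd j (z i) x * u i x)) * V j x - (∑ i, (z i x * pd j (W i j) x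
        + pd j (z i) x * W i j x)) - z j x * pd j P x) + (S x * pd j (V j) x - pd j (z j) x * P x) := by
        intro j
        rw [pdΦ, pdS, Finset.sum_mul]
        ring
      simp_rw [this]
      rw [Finset.sum_add_distrib, Finset.sum_sub_distrib, Finset.sum_sub_distrib,
        Finset.sum_sub_distrib, ← Finset.mul_sum, ← Finset.sum_mul, dV, dz]
      ring
    rw [h1, Finset.sum_comm (f := fun j i => (z i x * pd j (z i) x + (z i x * pd j (u i) x
      + pd j (z i) x * u i x)) * V j x),
      Finset.sum_comm (f := fun j i => (z i x * pd j (W i j) x + pd j (z i) x * W i j x))]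
    simp only [← Finset.sum_neg_distrib, ← Finset.sum_sub_distrib, ← Finset.sum_add_distrib]
    apply Finset.sum_congr rfl
    intro i _
    have h2 : z i x * (∑ j, -pd j (W i j) x - pd i P x + ∑ j, u j x * pd j (u i) x - F i x) =
        ∑ j, (z i x * (-pd j (W i j) x) + z i x * (u j x * pd j (u i) x)) - z i x * pd i P x
          - z i x * F i x := by
      rw [Finset.sum_add_distrib, ← Finset.mul_sum, ← Finset.mul_sum]
      ring
    rw [h2]
    have h3 : ∑ j, (z i x * (-pd j (W i j) x) + z i x * (u j x * pd j (u i) x)) =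
        ∑ j, -(z i x * z j x * pd j (u i) x) + ∑ j, pd j (z i) x * (W i j x - V i x * V j x)
        + ∑ j, (z i x * pd j (z i) x + (z i x * pd j (u i) x
      + pd j (z i) x * u i x)) * V j x - ∑ j, (z i x * pd j (W i j) x + pd j (z i) x * W i j x) := by
      simp only [← Finset.sum_sub_distrib, ← Finset.sum_add_distrib]
      apply Finset.sum_congr rfl
      intro j _
      rw [hzV i x, hzV j x]
      ring
    rw [h3, Finset.sum_neg_distrib]
    rw [Finset.sum_sub_distrib (f := fun x_1 =>
      (z i x * pd x_1 (z i) x + (z i x * pd x_1 (u i) x + pd x_1 (z i) x * u i x)) * V x_1 x)]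
    ring
  simp_rw [key]
  rw [integral_add]
  · rw [integral_finsetSum]
    · have : ∀ j ∈ Finset.univ, (∫ x in Q n, pd j (Φ j) x) = 0 := by
        intro j _
        exact setIntegral_Q_fderiv (pΦ j) (hΦcd j) _
      rw [Finset.sum_eq_zero this, add_zero]
    · intro j _
      exact integrableOn_Q (continuous_pd (hΦcd j) j)
  · apply integrableOn_Q
    have cz := fun i => (hz i).continuous
    have cu := fun i => (hu i).continuous
    have cV := fun i => (hV i).continuous
    have cW := fun i j => (hW i j).continuous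
    have cpz := fun i j => continuous_pd (hz i) j
    have cpu := fun i j => continuous_pd (hu i) j
    fun_prop
  · apply integrableOn_Q
    apply continuous_finsetSum
    intro j _
    exact continuous_pd (hΦcd j) j

end Pool.Agent.Helper865.EulerBesov
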