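import Pool.Agent.Helper865.EulerBesov.Besov

set_option autoImplicit false

open Set Filter Topology MeasureTheory Real
open scoped ContDiff ENNReal RealInnerProductSpace

namespace Pool.Agent.Helper865.EulerBesov

variable {n : ℕ} {χ : E n → ℝ} {q : ℝ}

/-- the weak momentum equation is translation invariant -/
lemma mom_translate {v : ℝ → E n → E n} {p : ℝ → E n → ℝ} {t : ℝ}
    (h : ∀ φ : E n → E n, ContDiff ℝ ∞ φ → HasCompactSupport φ →
      (∫ x, ⟪v t x - v 0 x, φ x⟫) =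
        ∫ s in (0 : ℝ)..t, ∫ x, (⟪v s x, fderiv ℝ φ x (v s x)⟫ + p s x * divergence φ x))
    (a : E n) (φ : E n → E n) (hφ : ContDiff ℝ ∞ φ) (hc : HasCompactSupport φ) :
    (∫ x, ⟪v t (x + a) - v 0 (x + a), φ x⟫) =
      ∫ s in (0 : ℝ)..t, ∫ x, (⟪v s (x + a), fderiv ℝ φ x (v s (x + a))⟫
        + p s (x + a) * divergence φ x) := by
  have e1 : ContDiff ℝ ∞ (fun x => φ (x - a)) := hφ.comp (by fun_prop)
  have e2 : HasCompactSupport (fun x => φ (x - a)) :=
    hc.comp_homeomorph (Homeomorph.subRight a)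
  have e3 := h _ e1 e2
  have e4 : ∀ x, fderiv ℝ (fun x => φ (x - a)) x = fderiv ℝ φ (x - a) := fun x =>
    fderiv_comp_sub a
  have e5 : ∀ x, divergence (fun x => φ (x - a)) x = divergence φ (x - a) := fun x => by
    simp only [divergence, e4]
  have e6 : (∫ x, ⟪v t (x + a) - v 0 (x + a), φ x⟫) =
      ∫ x, ⟪v t x - v 0 x, φ (x - a)⟫ := by
    rw [← integral_sub_right_eq_self (fun x => ⟪v t (x + a) - v 0 (x + a), φ x⟫) a]
    simp
  rw [e6, e3]
  congr 1
  ext s
  rw [← integral_sub_right_eq_self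
    (fun x => (⟪v s (x + a), fderiv ℝ φ x (v s (x + a))⟫ + p s (x + a) * divergence φ x)) a]
  simp only [e4, e5, sub_add_cancel]

/-- translates of solutions are solutions -/
lemma IsSolution.translate {T : ℝ} {u₀ : E n → E n} {u : ℝ → E n → E n}
    (h : IsSolution χ q T u₀ u) (a : E n) :
    IsSolution χ q T (fun x => u₀ (x + a)) (fun t x => u t (x + a)) where
  initial := by
    have := h.initial
    rw [← this]
  mem := fun t ht => (h.mem t ht).translate a
  continuous := by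
    intro t ht
    have h1 := h.continuous t ht
    refine h1.congr fun s => ?_
    exact (besovNorm_translate (u s - u t) a).symm
  divFree := fun t ht => (h.divFree t ht).translate a
  momentum := by
    obtain ⟨p, hp1, hp2, hp3⟩ := h.momentum
    refine ⟨fun t x => p t (x + a), ?_, ?_, ?_⟩
    · have : ContinuousOn (fun z : ℝ × E n => (z.1, z.2 + a)) (Icc 0 T ×ˢ univ) := by
        fun_prop
      exact hp1.comp this fun z hz => ⟨hz.1, mem_univ _⟩
    · intro ε hε
      obtain ⟨R, hR⟩ := hp2 (ε / 2) (by positivity)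
      refine ⟨|R| + ‖a‖, fun t ht x hx => ?_⟩
      have h1 : R ≤ ‖x + a‖ := by
        have h2 : ‖x‖ ≤ ‖x + a‖ + ‖a‖ := by
          calc ‖x‖ = ‖(x + a) - a‖ := by rw [add_sub_cancel_right]
            _ ≤ _ := norm_sub_le _ _
        linarith [le_abs_self R]
      have h3 : ‖a‖ ≤ ‖x‖ := by linarith [abs_nonneg R]
      calc |p t (x + a)| ≤ ε / 2 * ‖x + a‖ := hR t ht _ h1
        _ ≤ ε / 2 * (‖x‖ + ‖a‖) := by gcongr; exact norm_add_le _ _
        _ ≤ ε / 2 * (‖x‖ + ‖x‖) := by gcongr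
        _ = ε * ‖x‖ := by ring
    · intro t ht
      exact mom_translate (hp3 t ht) a

/-- uniform bounds for the blocks -/
lemma IsSolution.exists_blockBound (hχ : IsCutoff χ) (hq : 0 < q) {T : ℝ}
    {u₀ : E n → E n} {u : ℝ → E n → E n} (h : IsSolution χ q T u₀ u) :
    ∃ M : ℝ, 0 ≤ M ∧ ∀ t ∈ Icc 0 T, BlockBound χ M (u t) := by
  have key : ∃ M : ℝ, 0 ≤ M ∧ ∀ t ∈ Icc 0 T ∩ Icc 0 T, BlockBound χ M (u t) := by
    refine isCompact_Icc.induction_on
      (p := fun S => ∃ M : ℝ, 0 ≤ M ∧ ∀ t ∈ S ∩ Icc 0 T, BlockBound χ M (u t)) ?_ ?_ ?_ ?_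
    · exact ⟨0, le_rfl, fun t ht => absurd ht.1 (notMem_empty t)⟩
    · rintro S S' hSS' ⟨M, hM0, hM⟩
      exact ⟨M, hM0, fun t ht => hM t ⟨hSS' ht.1, ht.2⟩⟩
    · rintro S S' ⟨M, hM0, hM⟩ ⟨M', hM0', hM'⟩
      refine ⟨max M M', le_max_of_le_left hM0, fun t ht => ?_⟩
      rcases ht.1 with h1 | h1
      · exact (hM t ⟨h1, ht.2⟩).mono (le_max_left _ _)
      · exact (hM' t ⟨h1, ht.2⟩).mono (le_max_right _ _)
    · intro t ht
      have h1 := h.continuous t ht
      have h2 : ∀ᶠ s in 𝓝[Icc 0 T] t, besovNorm χ q (u s - u t) < 1 :=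
        h1.eventually (gt_mem_nhds (by norm_num))
      refine ⟨_, h2, 1 + (besovNorm χ q (u t)).toReal, by positivity, ?_⟩
      rintro s ⟨hs1, hs2⟩
      have hs1' : besovNorm χ q (u s - u t) < 1 := hs1
      obtain ⟨A, hA⟩ := (h.mem s hs2).bounded
      obtain ⟨B, hB⟩ := (h.mem t ht).bounded
      have b1 : BlockBound χ 1 (u s - u t) :=
        blockBound_of_norm hq zero_le_one (by simpa using hs1'.le)
      have b2 : BlockBound χ (besovNorm χ q (u t)).toReal (u t) :=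
        blockBound_of_norm_lt_top hq (h.mem t ht).norm_lt_top
      have hAB : ∀ x, ‖(u s - u t) x‖ ≤ A + B := fun x =>
        (norm_sub_le _ _).trans (add_le_add (hA x) (hB x))
      have := BlockBound.add hχ ((h.mem s hs2).continuous.sub (h.mem t ht).continuous)
        (h.mem t ht).continuous hAB hB b1 b2
      simpa using this
  obtain ⟨M, hM0, hM⟩ := key
  exact ⟨M, hM0, fun t ht => hM t ⟨ht, ht⟩⟩

/-- sup-norm control of differences -/
lemma IsSolution.norm_sub_le (hχ : IsCutoff χ) (hq : 0 < q) {T : ℝ}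
    {u₀ : E n → E n} {u : ℝ → E n → E n} (h : IsSolution χ q T u₀ u) {s t : ℝ}
    (hs : s ∈ Icc 0 T) (ht : t ∈ Icc 0 T) {δ : ℝ} (hδ : 0 ≤ δ)
    (hst : besovNorm χ q (u s - u t) ≤ ENNReal.ofReal δ) (x : E n) :
    ‖u s x - u t x‖ ≤ 4 * δ := by
  obtain ⟨A, hA⟩ := (h.mem s hs).bounded
  obtain ⟨B, hB⟩ := (h.mem t ht).bounded
  have hAB : ∀ x, ‖(u s - u t) x‖ ≤ A + B := fun x =>
    (_root_.norm_sub_le _ _).trans (add_le_add (hA x) (hB x))
  exact norm_le_of_blockBound hχ ((h.mem s hs).continuous.sub (h.mem t ht).continuous) hAB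
    (blockBound_of_norm hq hδ hst) x

lemma tendsto_proj {T : ℝ} (hT : 0 ≤ T) (t₀ : ℝ) :
    Tendsto (fun s : ℝ => (projIcc 0 T hT s : ℝ)) (𝓝 t₀) (𝓝[Icc 0 T] (projIcc 0 T hT t₀ : ℝ)) := by
  rw [tendsto_nhdsWithin_iff]
  refine ⟨?_, Filter.Eventually.of_forall fun s => (projIcc 0 T hT s).2⟩
  exact (continuous_subtype_val.comp continuous_projIcc).continuousAt

/-- joint continuity of the extended velocity -/
lemma IsSolution.continuous_ext (hχ : IsCutoff χ) (hq : 0 < q) {T : ℝ} (hT : 0 ≤ T)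
    {u₀ : E n → E n} {u : ℝ → E n → E n} (h : IsSolution χ q T u₀ u) :
    Continuous (fun z : ℝ × E n => u (projIcc 0 T hT z.1) z.2) := by
  rw [continuous_iff_continuousAt]
  rintro ⟨t₀, x₀⟩
  rw [Metric.continuousAt_iff']
  intro ε hε
  set τ : ℝ := (projIcc 0 T hT t₀ : ℝ) with hτ
  have hτm : τ ∈ Icc 0 T := (projIcc 0 T hT t₀).2
  have h1 : Tendsto (fun s : ℝ => besovNorm χ q (u (projIcc 0 T hT s) - u τ)) (𝓝 t₀) (𝓝 0) :=
    (h.continuous τ hτm).comp (tendsto_proj hT t₀)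
  have h2 : ∀ᶠ s in 𝓝 t₀, besovNorm χ q (u (projIcc 0 T hT s) - u τ) < ENNReal.ofReal (ε / 8) :=
    h1.eventually (gt_mem_nhds (by simpa using hε))
  have h3 : ∀ᶠ x in 𝓝 x₀, dist (u τ x) (u τ x₀) < ε / 2 :=
    (Metric.continuousAt_iff'.1 (h.mem τ hτm).continuous.continuousAt) (ε / 2) (by positivity)
  rw [nhds_prod_eq]
  filter_upwards [h2.prod_mk h3] with z hz
  obtain ⟨hz1, hz2⟩ := hz
  have h4 := h.norm_sub_le hχ hq (projIcc 0 T hT z.1).2 hτm (by positivity : 0 ≤ ε / 8)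
    hz1.le z.2
  calc dist (u (projIcc 0 T hT z.1) z.2) (u τ x₀)
      ≤ dist (u (projIcc 0 T hT z.1) z.2) (u τ z.2) + dist (u τ z.2) (u τ x₀) :=
        dist_triangle _ _ _
    _ < ε := by
      rw [dist_eq_norm]
      linarith

lemma eq_zero_of_integral_eq_zero {T : ℝ} (hT : 0 < T) {F : ℝ → ℝ} (hF : Continuous F)
    (h : ∀ t ∈ Icc 0 T, (∫ s in (0:ℝ)..t, F s) = 0) : ∀ t ∈ Icc 0 T, F t = 0 := by
  intro t ht
  have h1 : HasDerivAt (fun t => ∫ s in (0:ℝ)..t, F s) (F t) t :=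
    intervalIntegral.integral_hasDerivAt_right (hF.intervalIntegrable _ _)
      hF.stronglyMeasurable.stronglyMeasurableAtFilter hF.continuousAt
  have h2 : HasDerivWithinAt (fun t => ∫ s in (0:ℝ)..t, F s) (F t) (Icc 0 T) t :=
    h1.hasDerivWithinAt
  have h3 : HasDerivWithinAt (fun t => ∫ s in (0:ℝ)..t, F s) 0 (Icc 0 T) t :=
    (hasDerivWithinAt_const t (Icc 0 T) (0:ℝ)).congr h (h t ht)
  exact (uniqueDiffOn_Icc hT t ht).eq_deriv _ h2 h3

lemma aux_int {S P P' : ℝ → ℝ} (hS : Continuous S) (hP : Continuous P) (hP' : Continuous P')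
    {t : ℝ} (h : (∫ s in (0:ℝ)..t, (-(S s) - P s)) = ∫ s in (0:ℝ)..t, (-(S s) - P' s)) :
    (∫ s in (0:ℝ)..t, (P' s - P s)) = 0 := by
  have h1 : (∫ s in (0:ℝ)..t, (-(S s) - P s)) - (∫ s in (0:ℝ)..t, (-(S s) - P' s)) =
      ∫ s in (0:ℝ)..t, (P' s - P s) := by
    rw [← intervalIntegral.integral_sub]
    · congr 1
      ext s
      ring
    · exact (hS.neg.sub hP).intervalIntegrable _ _
    · exact (hS.neg.sub hP').intervalIntegrable _ _
  rw [← h1, h, sub_self]

/-- the pressure is determined up to a function of time -/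
lemma pressure_unique {T : ℝ} (hT : 0 < T) {v : ℝ → E n → E n} {p p' : ℝ → E n → ℝ}
    (hv : Continuous (fun z : ℝ × E n => v z.1 z.2)) (hp : Continuous (fun z : ℝ × E n => p z.1 z.2))
    (hp' : Continuous (fun z : ℝ × E n => p' z.1 z.2))
    (hm : ∀ t ∈ Icc 0 T, ∀ φ : E n → E n, ContDiff ℝ ∞ φ → HasCompactSupport φ →
      (∫ x, ⟪v t x - v 0 x, φ x⟫) =
        ∫ s in (0 : ℝ)..t, ∫ x, (⟪v s x, fderiv ℝ φ x (v s x)⟫ + p s x * divergence φ x))
    (hm' : ∀ t ∈ Icc 0 T, ∀ φ : E n → E n, ContDiff ℝ ∞ φ → HasCompactSupport φ →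
      (∫ x, ⟪v t x - v 0 x, φ x⟫) =
        ∫ s in (0 : ℝ)..t, ∫ x, (⟪v s x, fderiv ℝ φ x (v s x)⟫ + p' s x * divergence φ x))
    {s : ℝ} (hs : s ∈ Icc 0 T) (x y : E n) : p' s x - p s x = p' s y - p s y := by
  obtain ⟨C₁, hC₁, hex⟩ := exists_moll n
  have hvi : ∀ i, Continuous (fun w : ℝ × E n => v w.1 w.2 i) := fun i => by fun_prop
  have cps : Continuous (p s) := hp.comp (by fun_prop : Continuous fun y => (s, y))
  have cps' : Continuous (p' s) := hp'.comp (by fun_prop : Continuous fun y => (s, y))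
  -- mollified pressures differ by a constant
  have hmol : ∀ δ : ℝ, 0 < δ → ∃ η : E n → ℝ, IsMoll η δ C₁ ∧
      mol η (p' s) x - mol η (p s) x = mol η (p' s) y - mol η (p s) y := by
    intro δ hδ
    obtain ⟨η, hη⟩ := hex δ hδ
    refine ⟨η, hη, ?_⟩
    have hpd : ∀ i x, pd i (mol η (p' s)) x = pd i (mol η (p s)) x := by
      intro i x
      have c1 : Continuous (fun σ => pd i (mol η (p σ)) x) :=
        (hη.continuous_pd_mol hp i).comp (by fun_prop : Continuous fun σ : ℝ => (σ, x))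
      have c2 : Continuous (fun σ => pd i (mol η (p' σ)) x) :=
        (hη.continuous_pd_mol hp' i).comp (by fun_prop : Continuous fun σ : ℝ => (σ, x))
      have c3 : Continuous (fun σ => ∑ j, pd j (mol η (fun y => v σ y i * v σ y j)) x) := by
        apply continuous_finsetSum
        intro j _
        exact (hη.continuous_pd_mol ((hvi i).mul (hvi j)) j).comp
          (by fun_prop : Continuous fun σ : ℝ => (σ, x))
      have hz := eq_zero_of_integral_eq_zero hT (c2.sub c1) ?_ s hs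
      · exact sub_eq_zero.1 hz
      · intro t ht
        have m1 := hη.momentum hv hp (hm t ht) i x
        have m2 := hη.momentum hv hp' (hm' t ht) i x
        rw [m1] at m2
        exact aux_int c3 c1 c2 m2
    have sm : Differentiable ℝ (mol η (p s)) :=
      (hη.contDiff_mol cps).differentiable (by simp)
    have sm' : Differentiable ℝ (mol η (p' s)) :=
      (hη.contDiff_mol cps').differentiable (by simp)
    have hfd : ∀ x, fderiv ℝ (fun x => mol η (p' s) x - mol η (p s) x) x = 0 := by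
      intro x
      have h1 : fderiv ℝ (fun x => mol η (p' s) x - mol η (p s) x) x =
          fderiv ℝ (mol η (p' s)) x - fderiv ℝ (mol η (p s)) x := fderiv_sub (sm' x) (sm x)
      rw [h1]
      ext w
      rw [_root_.sub_apply, fderiv_eq_sum_pd, fderiv_eq_sum_pd]
      simp [hpd]
    exact is_const_of_fderiv_eq_zero (𝕜 := ℝ) (sm'.sub sm) hfd x y
  have hlim : ∀ ε : ℝ, 0 < ε → |(p' s x - p s x) - (p' s y - p s y)| ≤ 4 * ε := by
    intro ε hε
    have hd : ∀ (f : E n → ℝ), Continuous f → ∀ z : E n, ∃ δ > 0, ∀ w, ‖z - w‖ ≤ δ →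
        |f w - f z| ≤ ε := by
      intro f hf z
      obtain ⟨δ, hδ, hd⟩ := Metric.continuous_iff.1 hf z ε hε
      refine ⟨δ / 2, by positivity, fun w hw => ?_⟩
      have := hd w (by rw [dist_eq_norm, norm_sub_rev]; linarith)
      rw [Real.dist_eq] at this
      exact this.le
    obtain ⟨δ1, hδ1, hd1⟩ := hd _ cps x
    obtain ⟨δ2, hδ2, hd2⟩ := hd _ cps y
    obtain ⟨δ3, hδ3, hd3⟩ := hd _ cps' x
    obtain ⟨δ4, hδ4, hd4⟩ := hd _ cps' y
    obtain ⟨η, hη, heq⟩ := hmol (min (min δ1 δ2) (min δ3 δ4)) (by positivity)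
    have a1 := hη.abs_mol_sub_le cps x (B := ε) (c := p s x) fun w hw =>
      hd1 w (hw.trans ((min_le_left _ _).trans (min_le_left _ _)))
    have a2 := hη.abs_mol_sub_le cps y (B := ε) (c := p s y) fun w hw =>
      hd2 w (hw.trans ((min_le_left _ _).trans (min_le_right _ _)))
    have a3 := hη.abs_mol_sub_le cps' x (B := ε) (c := p' s x) fun w hw =>
      hd3 w (hw.trans ((min_le_right _ _).trans (min_le_left _ _)))
    have a4 := hη.abs_mol_sub_le cps' y (B := ε) (c := p' s y) fun w hw =>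
      hd4 w (hw.trans ((min_le_right _ _).trans (min_le_right _ _)))
    rw [abs_le] at a1 a2 a3 a4 ⊢
    constructor <;> linarith [a1.1, a1.2, a2.1, a2.2, a3.1, a3.2, a4.1, a4.2]
  by_contra hne
  have hpos : 0 < |(p' s x - p s x) - (p' s y - p s y)| := by
    rw [abs_pos]
    intro h0
    exact hne (sub_eq_zero.1 h0)
  have := hlim (|(p' s x - p s x) - (p' s y - p s y)| / 8) (by positivity)
  linarith

/-- sublinear growth forces periodicity of the pressure -/
lemma eq_of_sublinear {f : E n → ℝ} {a : E n} (ha : a ≠ 0)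
    (hc : ∀ x y, f (x + a) - f x = f (y + a) - f y)
    (hs : ∀ ε > 0, ∃ R : ℝ, ∀ x : E n, R ≤ ‖x‖ → |f x| ≤ ε * ‖x‖) (x : E n) :
    f (x + a) = f x := by
  set c : ℝ := f (0 + a) - f 0 with hcdef
  have hcc : ∀ x, f (x + a) - f x = c := fun x => hc x 0
  have hiter : ∀ k : ℕ, f ((k : ℝ) • a) = f 0 + k * c := by
    intro k
    induction k with
    | zero => simp
    | succ k ih =>
      have h1 := hcc ((k : ℝ) • a)
      have h2 : ((k + 1 : ℕ) : ℝ) • a = (k : ℝ) • a + a := by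
        push_cast
        rw [add_smul, one_smul]
      rw [h2]
      push_cast
      linarith
  have hc0 : c = 0 := by
    by_contra hne
    have hcpos : 0 < |c| := abs_pos.2 hne
    have hapos : 0 < ‖a‖ := norm_pos_iff.2 ha
    obtain ⟨R, hR⟩ := hs (|c| / (2 * ‖a‖)) (by positivity)
    obtain ⟨k, hk⟩ := exists_nat_gt (max (R / ‖a‖) (2 * |f 0| / |c|))
    have hk1 : R / ‖a‖ < k := (le_max_left _ _).trans_lt hk
    have hk2 : 2 * |f 0| / |c| < k := (le_max_right _ _).trans_lt hk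
    rw [div_lt_iff₀ hapos] at hk1
    rw [div_lt_iff₀ hcpos] at hk2
    have hnorm : ‖(k : ℝ) • a‖ = k * ‖a‖ := by
      rw [norm_smul, Real.norm_of_nonneg (Nat.cast_nonneg k)]
    have h1 := hR ((k : ℝ) • a) (by rw [hnorm]; exact hk1.le)
    rw [hnorm, hiter] at h1
    have h2 : |c| / (2 * ‖a‖) * (k * ‖a‖) = k * |c| / 2 := by
      field_simp
    rw [h2] at h1
    have h3 : k * |c| ≤ |f 0 + k * c| + |f 0| := by
      have h4 : (k : ℝ) * |c| = |(k : ℝ) * c| := by
        rw [abs_mul, abs_of_nonneg (Nat.cast_nonneg k : (0:ℝ) ≤ k)]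
      rw [h4]
      calc |(k : ℝ) * c| = |(f 0 + k * c) - f 0| := by rw [add_sub_cancel_left]
        _ ≤ _ := abs_sub _ _
    linarith
  have := hcc x
  rw [hc0] at this
  linarith

end Pool.Agent.Helper865.EulerBesov
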