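import Pool.Agent.Helper865.EulerBesov.FromSol

set_option autoImplicit false

open Set Filter Topology MeasureTheory Real
open scoped ContDiff ENNReal RealInnerProductSpace

namespace Pool.Agent.Helper865.EulerBesov

variable {n : ℕ} {χ : E n → ℝ} {q : ℝ}

theorem IsSolution.exists_HSol (hχ : IsCutoff χ) (hq : 0 < q) {T : ℝ} (hT : 0 < T)
    {u₀ : E n → E n} {u : ℝ → E n → E n} (h : IsSolution χ q T u₀ u)
    (hper : ∀ t ∈ Icc 0 T, IsPer (u t)) :
    ∃ (A CH : ℝ) (p : ℝ → E n → ℝ), 0 ≤ A ∧ 0 ≤ CH ∧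
      HSol T A CH (fun t => u (projIcc 0 T hT.le t)) p := by
  obtain ⟨M, hM0, hM⟩ := h.exists_blockBound hχ hq
  obtain ⟨C, hC0, hC⟩ := exists_holder hχ
  obtain ⟨p₀, hp1, hp2, hp3⟩ := h.momentum
  set π' : ℝ → ℝ := fun t => (projIcc 0 T hT.le t : ℝ) with hπ
  have hπm : ∀ t, π' t ∈ Icc 0 T := fun t => (projIcc 0 T hT.le t).2
  have hπid : ∀ t ∈ Icc 0 T, π' t = t := fun t ht => by
    simp only [hπ, projIcc_of_mem hT.le ht]
  have hπc : Continuous π' := continuous_subtype_val.comp continuous_projIcc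
  set V : ℝ → E n → E n := fun t => u (π' t) with hV
  set P : ℝ → E n → ℝ := fun t => p₀ (π' t) with hP
  have vcont : Continuous (fun z : ℝ × E n => V z.1 z.2) := h.continuous_ext hχ hq hT.le
  have pcont : Continuous (fun z : ℝ × E n => P z.1 z.2) := by
    have h1 : Continuous (fun z : ℝ × E n => (π' z.1, z.2)) := by fun_prop
    exact hp1.comp_continuous h1 fun z => ⟨hπm _, mem_univ _⟩
  have hm : ∀ t ∈ Icc 0 T, ∀ φ : E n → E n, ContDiff ℝ ∞ φ → HasCompactSupport φ →
      (∫ x, ⟪V t x - V 0 x, φ x⟫) =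
        ∫ s in (0 : ℝ)..t, ∫ x, (⟪V s x, fderiv ℝ φ x (V s x)⟫ + P s x * divergence φ x) := by
    intro t ht φ hφ hc
    have h1 := hp3 t ht φ hφ hc
    simp only [hV, hP]
    rw [hπid t ht, hπid 0 ⟨le_rfl, hT.le⟩, h1]
    apply intervalIntegral.integral_congr
    intro s hs
    rw [uIcc_of_le ht.1] at hs
    simp only [hπid s ⟨hs.1, hs.2.trans ht.2⟩]
  have vper : ∀ t, IsPer (V t) := fun t => hper _ (hπm t)
  have pper0 : ∀ t ∈ Icc 0 T, IsPer (P t) := by
    intro t ht x i
    set a : E n := EuclideanSpace.single i (2 * π) with ha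
    have ha0 : a ≠ 0 := by
      intro h0
      have : a i = 0 := by rw [h0]; rfl
      rw [ha] at this
      simp [pi_ne_zero] at this
    have hm' : ∀ t ∈ Icc 0 T, ∀ φ : E n → E n, ContDiff ℝ ∞ φ → HasCompactSupport φ →
      (∫ x, ⟪V t x - V 0 x, φ x⟫) =
        ∫ s in (0 : ℝ)..t, ∫ x, (⟪V s x, fderiv ℝ φ x (V s x)⟫
          + P s (x + a) * divergence φ x) := by
      intro t ht φ hφ hc
      have h1 := mom_translate (hm t ht) a φ hφ hc
      have hva : ∀ t x, V t (x + a) = V t x := fun t x => vper t x i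
      simp only [hva] at h1
      exact h1
    have pcont' : Continuous (fun z : ℝ × E n => P z.1 (z.2 + a)) :=
      pcont.comp (by fun_prop : Continuous fun z : ℝ × E n => (z.1, z.2 + a))
    apply eq_of_sublinear ha0
    · intro x y
      exact pressure_unique hT vcont pcont pcont' hm hm' ht x y
    · intro ε hε
      obtain ⟨R, hR⟩ := hp2 ε hε
      exact ⟨R, fun x hx => hR _ (hπm t) x hx⟩
  have pper : ∀ t, IsPer (P t) := by
    intro t
    have h1 := pper0 (π' t) (hπm t)
    have h2 : P (π' t) = P t := by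
      simp only [hP, hπid _ (hπm t)]
    rwa [h2] at h1
  refine ⟨4 * M, C * M, P, by positivity, by positivity, ?_⟩
  exact
    { vcont := vcont
      pcont := pcont
      vper := vper
      pper := pper
      divFree := fun t => h.divFree _ (hπm t)
      bound := fun t x => by
        obtain ⟨A, hA⟩ := (h.mem _ (hπm t)).bounded
        exact norm_le_of_blockBound hχ (h.mem _ (hπm t)).continuous hA (hM _ (hπm t)) x
      holder := fun t r hr0 hr1 x y hxy =>
        hC _ (h.mem _ (hπm t)).continuous (h.mem _ (hπm t)).bounded M (hM _ (hπm t)) r hr0 hr1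
          x y hxy
      mom := hm }

end Pool.Agent.Helper865.EulerBesov
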