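import Pool.Agent.Helper865.EulerBesov.Defs

set_option autoImplicit false

open Set Filter Topology MeasureTheory Real
open scoped ContDiff ENNReal RealInnerProductSpace FourierTransform

namespace Pool.Agent.Helper865.EulerBesov

variable {n : ℕ} {χ : E n → ℝ}

lemma IsCutoff.hasCompactSupport (hχ : IsCutoff χ) : HasCompactSupport χ := by
  apply HasCompactSupport.intro (isCompact_closedBall (0 : E n) 2)
  intro x hx
  apply hχ.zero
  simp only [Metric.mem_closedBall, dist_zero_right, not_le] at hx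
  exact hx.le

/-- `χ` as a complex Schwartz function -/
noncomputable def chiS (hχ : IsCutoff χ) : SchwartzMap (E n) ℂ :=
  HasCompactSupport.toSchwartzMap (f := fun x => (χ x : ℂ))
    (hχ.hasCompactSupport.comp_left (g := fun x : ℝ => (x : ℂ)) Complex.ofReal_zero)
    (Complex.ofRealCLM.contDiff.comp hχ.smooth)

lemma chiS_apply (hχ : IsCutoff χ) (x : E n) : chiS hχ x = (χ x : ℂ) := rfl

lemma IsCutoff.even (hχ : IsCutoff χ) (x : E n) : χ (-x) = χ x :=
  hχ.radial _ _ (norm_neg x)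

lemma kernel_eq (hχ : IsCutoff χ) (y : E n) :
    𝓕⁻ (chiS hχ) y = (kernel χ y : ℂ) := by
  have hint : Integrable (fun ξ : E n => χ ξ) :=
    hχ.smooth.continuous.integrable_of_hasCompactSupport hχ.hasCompactSupport
  have e1 : 𝓕⁻ (chiS hχ) y = ∫ ξ, Complex.exp (↑(2 * π * ⟪ξ, y⟫) * Complex.I) • (χ ξ : ℂ) := by
    rw [SchwartzMap.fourierInv_coe]
    rw [Real.fourierInv_eq']
    rfl
  have e2 : ∀ ξ : E n, Complex.exp (↑(2 * π * ⟪ξ, y⟫) * Complex.I) • (χ ξ : ℂ) =
      ((χ ξ * cos (2 * π * ⟪ξ, y⟫) : ℝ) : ℂ) + ((χ ξ * sin (2 * π * ⟪ξ, y⟫) : ℝ) : ℂ) * Complex.I := by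
    intro ξ
    rw [Complex.exp_mul_I, smul_eq_mul, ← Complex.ofReal_cos, ← Complex.ofReal_sin]
    push_cast
    ring
  have hc : Integrable (fun ξ : E n => χ ξ * cos (2 * π * ⟪ξ, y⟫)) := by
    apply hint.mul_bdd (c := 1)
    · exact (by fun_prop : Continuous fun ξ : E n => cos (2 * π * ⟪ξ, y⟫)).aestronglyMeasurable
    · exact Filter.Eventually.of_forall fun ξ => by
        rw [norm_eq_abs]; exact abs_cos_le_one _
  have hs : Integrable (fun ξ : E n => χ ξ * sin (2 * π * ⟪ξ, y⟫)) := by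
    apply hint.mul_bdd (c := 1)
    · exact (by fun_prop : Continuous fun ξ : E n => sin (2 * π * ⟪ξ, y⟫)).aestronglyMeasurable
    · exact Filter.Eventually.of_forall fun ξ => by
        rw [norm_eq_abs]; exact abs_sin_le_one _
  rw [e1]
  simp_rw [e2]
  rw [integral_add hc.ofReal (hs.ofReal.mul_const _), integral_mul_const, integral_complex_ofReal,
    integral_complex_ofReal]
  have hodd : ∫ ξ : E n, χ ξ * sin (2 * π * ⟪ξ, y⟫) = 0 := by
    have h1 : ∫ ξ : E n, χ ξ * sin (2 * π * ⟪ξ, y⟫) =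
        ∫ ξ : E n, χ (-ξ) * sin (2 * π * ⟪-ξ, y⟫) :=
      (integral_neg_eq_self (fun ξ : E n => χ ξ * sin (2 * π * ⟪ξ, y⟫)) volume).symm
    have h2 : ∀ ξ : E n, χ (-ξ) * sin (2 * π * ⟪-ξ, y⟫) = -(χ ξ * sin (2 * π * ⟪ξ, y⟫)) := by
      intro ξ
      rw [hχ.even, inner_neg_left, mul_neg, sin_neg, mul_neg]
    simp_rw [h2] at h1
    rw [integral_neg] at h1
    linarith
  rw [hodd]
  simp [kernel]

lemma kernel_even (y : E n) : kernel χ (-y) = kernel χ y := by
  unfold kernel
  congr 1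
  ext ξ
  rw [inner_neg_right, mul_neg, cos_neg]

lemma kernel_eq_re (hχ : IsCutoff χ) (y : E n) : kernel χ y = (𝓕⁻ (chiS hχ) y).re := by
  rw [kernel_eq, Complex.ofReal_re]

lemma continuous_kernel (hχ : IsCutoff χ) : Continuous (kernel χ) := by
  have : kernel χ = fun y => (𝓕⁻ (chiS hχ) y).re := funext fun y => kernel_eq_re hχ y
  rw [this]
  exact Complex.continuous_re.comp (SchwartzMap.continuous _)

lemma integrable_kernel (hχ : IsCutoff χ) : Integrable (kernel χ) := by
  have : kernel χ = fun y => (𝓕⁻ (chiS hχ) y).re := funext fun y => kernel_eq_re hχ y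
  rw [this]
  have h := (𝓕⁻ (chiS hχ)).integrable (μ := volume)
  exact h.re

lemma integral_kernel_mul (hχ : IsCutoff χ) (ζ : E n) :
    (∫ y, kernel χ y * cos ⟪y, ζ⟫) = χ ((2 * π)⁻¹ • ζ) ∧
    (∫ y, kernel χ y * sin ⟪y, ζ⟫) = 0 := by
  have hπ : (2 * π) ≠ 0 := by positivity
  have h0 : 𝓕 (𝓕⁻ (chiS hχ)) ((2 * π)⁻¹ • ζ) = chiS hχ ((2 * π)⁻¹ • ζ) := by
    rw [FourierTransform.fourier_fourierInv_eq]
  have e1 : 𝓕 (𝓕⁻ (chiS hχ)) ((2 * π)⁻¹ • ζ) =
      ∫ y, Complex.exp (↑(-2 * π * ⟪y, (2 * π)⁻¹ • ζ⟫) * Complex.I) • (kernel χ y : ℂ) := by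
    rw [SchwartzMap.fourier_coe, Real.fourier_eq']
    congr 1
    ext y
    rw [← kernel_eq hχ]
  have e2 : ∀ y : E n, Complex.exp (↑(-2 * π * ⟪y, (2 * π)⁻¹ • ζ⟫) * Complex.I) • (kernel χ y : ℂ)
      = ((kernel χ y * cos ⟪y, ζ⟫ : ℝ) : ℂ) - ((kernel χ y * sin ⟪y, ζ⟫ : ℝ) : ℂ) * Complex.I := by
    intro y
    have : -2 * π * ⟪y, (2 * π)⁻¹ • ζ⟫ = -⟪y, ζ⟫ := by
      rw [inner_smul_right]; field_simp
    rw [this, Complex.exp_mul_I, smul_eq_mul, ← Complex.ofReal_cos, ← Complex.ofReal_sin,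
      cos_neg, sin_neg]
    push_cast
    ring
  have hc : Integrable (fun y : E n => kernel χ y * cos ⟪y, ζ⟫) := by
    apply (integrable_kernel hχ).mul_bdd (c := 1)
    · exact (by fun_prop : Continuous fun ξ : E n => cos ⟪ξ, ζ⟫).aestronglyMeasurable
    · exact Filter.Eventually.of_forall fun ξ => by
        rw [norm_eq_abs]; exact abs_cos_le_one _
  have hs : Integrable (fun y : E n => kernel χ y * sin ⟪y, ζ⟫) := by
    apply (integrable_kernel hχ).mul_bdd (c := 1)
    · exact (by fun_prop : Continuous fun ξ : E n => sin ⟪ξ, ζ⟫).aestronglyMeasurable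
    · exact Filter.Eventually.of_forall fun ξ => by
        rw [norm_eq_abs]; exact abs_sin_le_one _
  rw [e1] at h0
  simp_rw [e2] at h0
  rw [integral_sub hc.ofReal (hs.ofReal.mul_const _), integral_mul_const, integral_complex_ofReal,
    integral_complex_ofReal, chiS_apply] at h0
  have hre := congrArg Complex.re h0
  have him := congrArg Complex.im h0
  simp at hre him
  rw [show (2 * π)⁻¹ = π⁻¹ * 2⁻¹ by rw [mul_inv]; ring]
  exact ⟨hre, him⟩

lemma integral_kernel_mul_cos (hχ : IsCutoff χ) (ζ : E n) :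
    (∫ y, kernel χ y * cos ⟪y, ζ⟫) = χ ((2 * π)⁻¹ • ζ) := (integral_kernel_mul hχ ζ).1

lemma integral_kernel_mul_sin (hχ : IsCutoff χ) (ζ : E n) :
    (∫ y, kernel χ y * sin ⟪y, ζ⟫) = 0 := (integral_kernel_mul hχ ζ).2

lemma integral_kernel (hχ : IsCutoff χ) : (∫ y, kernel χ y) = 1 := by
  have := integral_kernel_mul_cos hχ 0
  simp only [inner_zero_right, cos_zero, mul_one, smul_zero] at this
  rw [this]
  exact hχ.one 0 (by simp)

/-- the `L¹` norm of the kernel -/
noncomputable def kerL1 (χ : E n → ℝ) : ℝ := ∫ y, |kernel χ y|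

lemma one_le_kerL1 (hχ : IsCutoff χ) : 1 ≤ kerL1 χ := by
  rw [← integral_kernel hχ]
  exact integral_mono (integrable_kernel hχ) (integrable_kernel hχ).abs fun y => le_abs_self _


/-- `L¹` modulus of continuity of the kernel under translation. -/
lemma exists_kernel_lipschitz (hχ : IsCutoff χ) :
    ∃ C : ℝ, 0 ≤ C ∧ ∀ x y : E n, (∫ z, |kernel χ (x - z) - kernel χ (y - z)|) ≤ C * ‖x - y‖ := by
  set H : SchwartzMap (E n) ℂ := 𝓕⁻ (chiS hχ) with hH
  have hHd : Differentiable ℝ H := H.differentiable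
  have hDint : Integrable (fun w => ‖fderiv ℝ H w‖) := by
    have h := (SchwartzMap.fderivCLM ℝ (E n) ℂ H).integrable (μ := volume)
    exact h.norm
  refine ⟨∫ w, ‖fderiv ℝ H w‖, integral_nonneg fun w => norm_nonneg _, ?_⟩
  intro x y
  -- pointwise bound
  have hpt : ∀ z, |kernel χ (x - z) - kernel χ (y - z)| ≤
      ∫ s in (0:ℝ)..1, ‖fderiv ℝ H ((y - z) + s • (x - y))‖ * ‖x - y‖ := by
    intro z
    have h1 : kernel χ (x - z) - kernel χ (y - z) = (H (x - z) - H (y - z)).re := by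
      rw [kernel_eq_re hχ, kernel_eq_re hχ, Complex.sub_re]
    rw [h1]
    refine (Complex.abs_re_le_norm _).trans ?_
    have hderiv : ∀ s ∈ uIcc (0:ℝ) 1, HasDerivAt (fun s : ℝ => H ((y - z) + s • (x - y)))
        (fderiv ℝ H ((y - z) + s • (x - y)) (x - y)) s := by
      intro s _
      have h2 : HasDerivAt (fun s : ℝ => (y - z) + s • (x - y)) (x - y) s := by
        have := ((hasDerivAt_id s).smul_const (x - y)).const_add (y - z)
        simpa using this
      exact (hHd _).hasFDerivAt.comp_hasDerivAt s h2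
    have hcont : Continuous (fun s : ℝ => fderiv ℝ H ((y - z) + s • (x - y)) (x - y)) := by
      have : Continuous (fderiv ℝ H) := (H.smooth 1).continuous_fderiv (by norm_num)
      fun_prop
    have h3 := intervalIntegral.integral_eq_sub_of_hasDerivAt hderiv (hcont.intervalIntegrable _ _)
    have h4 : H (x - z) - H (y - z) =
        ∫ s in (0:ℝ)..1, fderiv ℝ H ((y - z) + s • (x - y)) (x - y) := by
      rw [h3]
      congr 2
      · module
      · simp
    rw [h4]
    refine (intervalIntegral.norm_integral_le_integral_norm zero_le_one).trans ?_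
    apply intervalIntegral.integral_mono_on zero_le_one (hcont.norm.intervalIntegrable _ _)
    · have : Continuous (fun s : ℝ => ‖fderiv ℝ H ((y - z) + s • (x - y))‖ * ‖x - y‖) := by
        have : Continuous (fderiv ℝ H) := (H.smooth 1).continuous_fderiv (by norm_num)
        fun_prop
      exact this.intervalIntegrable _ _
    · intro s _
      exact ContinuousLinearMap.le_opNorm _ _
  -- Fubini
  have hcontD : Continuous (fun w => ‖fderiv ℝ H w‖) := by
    have : Continuous (fderiv ℝ H) := (H.smooth 1).continuous_fderiv (by norm_num)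
    exact this.norm
  have hshift : ∀ s : ℝ, Integrable (fun z => ‖fderiv ℝ H ((y - z) + s • (x - y))‖) := by
    intro s
    have h5 : (fun z => ‖fderiv ℝ H ((y - z) + s • (x - y))‖) =
        fun z => ‖fderiv ℝ H ((y + s • (x - y)) - z)‖ := by
      ext z; congr 2; abel
    rw [h5]
    exact hDint.comp_sub_left (y + s • (x - y))
  have hval : ∀ s : ℝ, (∫ z, ‖fderiv ℝ H ((y - z) + s • (x - y))‖) = ∫ w, ‖fderiv ℝ H w‖ := by
    intro s
    have h5 : (fun z => ‖fderiv ℝ H ((y - z) + s • (x - y))‖) =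
        fun z => ‖fderiv ℝ H ((y + s • (x - y)) - z)‖ := by
      ext z; congr 2; abel
    rw [h5]
    exact integral_sub_left_eq_self (fun w => ‖fderiv ℝ H w‖) volume (y + s • (x - y))
  have hprod : Integrable (fun p : E n × ℝ => ‖fderiv ℝ H ((y - p.1) + p.2 • (x - y))‖ * ‖x - y‖)
      (volume.prod (volume.restrict (Ioc (0:ℝ) 1))) := by
    have hc2 : Continuous (fun p : E n × ℝ => ‖fderiv ℝ H ((y - p.1) + p.2 • (x - y))‖ * ‖x - y‖) := by
      have : Continuous (fderiv ℝ H) := (H.smooth 1).continuous_fderiv (by norm_num)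
      fun_prop
    rw [integrable_prod_iff' hc2.aestronglyMeasurable]
    constructor
    · exact Filter.Eventually.of_forall fun s => (hshift s).mul_const _
    · have h6 : (fun s : ℝ => ∫ z, ‖‖fderiv ℝ H ((y - z) + s • (x - y))‖ * ‖x - y‖‖) =
          fun _ => (∫ w, ‖fderiv ℝ H w‖) * ‖x - y‖ := by
        ext s
        rw [← hval s, ← integral_mul_const]
        congr 1
        ext z
        rw [norm_mul, norm_norm, norm_norm]
      simp only [h6]
      exact integrable_const _
  have hsw : (∫ z, ∫ s in (0:ℝ)..1, ‖fderiv ℝ H ((y - z) + s • (x - y))‖ * ‖x - y‖) =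
      (∫ w, ‖fderiv ℝ H w‖) * ‖x - y‖ := by
    simp_rw [intervalIntegral.integral_of_le (zero_le_one (α := ℝ))]
    rw [integral_integral_swap hprod]
    have : ∀ s : ℝ, (∫ z, ‖fderiv ℝ H ((y - z) + s • (x - y))‖ * ‖x - y‖) =
        (∫ w, ‖fderiv ℝ H w‖) * ‖x - y‖ := by
      intro s
      rw [integral_mul_const, hval s]
    simp_rw [this]
    simp
  rw [← hsw]
  apply integral_mono_of_nonneg (Filter.Eventually.of_forall fun z => abs_nonneg _)
  · have := hprod.integral_prod_left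
    simp_rw [intervalIntegral.integral_of_le (zero_le_one (α := ℝ))]
    exact this
  · exact Filter.Eventually.of_forall hpt

end Pool.Agent.Helper865.EulerBesov
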