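import Pool.Agent.Helper865.EulerBesov.Besov

set_option autoImplicit false

open Set Filter Topology MeasureTheory Real
open scoped ContDiff ENNReal RealInnerProductSpace

namespace Pool.Agent.Helper865.EulerBesov

variable {n : ℕ} {χ : E n → ℝ}

lemma lowpass_coord (hχ : IsCutoff χ) {v : E n → E n} (hv : Continuous v) {A : ℝ}
    (hA : ∀ x, ‖v x‖ ≤ A) (N : ℕ) (x : E n) (j : Fin n) :
    (lowpass χ N v x) j = ∫ y, kernel χ y * v (x - (1 / 2 : ℝ) ^ N • y) j := by
  have h := (EuclideanSpace.proj (𝕜 := ℝ) j).integral_comp_comm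
    (integrable_lowpass hχ hv hA N x)
  have e1 : (lowpass χ N v x) j = (EuclideanSpace.proj (𝕜 := ℝ) j) (lowpass χ N v x) := rfl
  rw [e1]
  unfold lowpass
  rw [← h]
  rfl

lemma integrable_prod_lowpass (hχ : IsCutoff χ) {h w : E n → ℝ} (hh : Continuous h)
    (hw : Continuous w) {A : ℝ} (hA : ∀ x, |w x| ≤ A) (N : ℕ) :
    Integrable (fun z : E n × E n => h z.1 * (kernel χ z.2 * w (z.1 - (1 / 2 : ℝ) ^ N • z.2)))
      ((volume.restrict (Q n)).prod volume) := by
  have h1 : Integrable (fun z : E n × E n => |h z.1| * (|kernel χ z.2| * A))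
      ((volume.restrict (Q n)).prod volume) :=
    Integrable.mul_prod (f := fun x => |h x|) (g := fun y => |kernel χ y| * A)
      (integrableOn_Q hh.abs) ((integrable_kernel hχ).abs.mul_const A)
  have hk := continuous_kernel hχ
  refine h1.mono' (by fun_prop : Continuous fun z : E n × E n =>
    h z.1 * (kernel χ z.2 * w (z.1 - (1 / 2 : ℝ) ^ N • z.2))).aestronglyMeasurable ?_
  refine Filter.Eventually.of_forall fun z => ?_
  rw [Real.norm_eq_abs, abs_mul, abs_mul]
  gcongr
  exact hA _

lemma fubini_lowpass (hχ : IsCutoff χ) {h w : E n → ℝ} (hh : Continuous h)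
    (hw : Continuous w) {A : ℝ} (hA : ∀ x, |w x| ≤ A) (N : ℕ) :
    (∫ x in Q n, h x * ∫ y, kernel χ y * w (x - (1 / 2 : ℝ) ^ N • y)) =
      ∫ y, kernel χ y * ∫ x in Q n, h x * w (x - (1 / 2 : ℝ) ^ N • y) := by
  simp_rw [← integral_const_mul]
  rw [integral_integral_swap (integrable_prod_lowpass hχ hh hw hA N)]
  congr 1
  ext y
  congr 1
  ext x
  ring

/-- integrals of antiperiodic functions vanish -/
lemma setIntegral_antiper {H : E n → ℝ} (hH : IsPer H) {a : E n} (ha : ∀ x, H (x + a) = -H x) :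
    (∫ x in Q n, H x) = 0 := by
  have h1 := setIntegral_Q_translate hH a
  simp_rw [ha] at h1
  rw [integral_neg] at h1
  linarith

section two
variable {d : ℕ} {f g ρ G : ℝ → ℝ}

/-- the phase -/
noncomputable def ph (f : ℝ → ℝ) (T K : ℝ) (x : E (d + 2)) : ℝ := K * (x 0 - T * f (x 1))

/-- the test function -/
noncomputable def tst (f G : ℝ → ℝ) (T K : ℝ) (x : E (d + 2)) : ℝ := G (x 1) * sin (ph f T K x)

lemma continuous_ph (hf : Continuous f) (T K : ℝ) : Continuous (ph (d := d) f T K) := by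
  unfold ph
  fun_prop

lemma continuous_tst (hf : Continuous f) (hG : Continuous G) (T K : ℝ) :
    Continuous (tst (d := d) f G T K) := by
  have := continuous_ph (d := d) hf T K
  unfold tst
  fun_prop

lemma isPer_sinph (hf : ∀ y, f (y + 2 * π) = f y) (T : ℝ) (K : ℕ) :
    IsPer (fun x : E (d + 2) => sin (ph f T K x)) :=
  isPer_two (F := fun X Y => sin ((K : ℝ) * (X - T * f Y)))
    (fun X Y => sin_shift K X _) (fun X Y => by simp only [hf])

lemma isPer_one (hG : ∀ y, G (y + 2 * π) = G y) : IsPer (fun x : E (d + 2) => G (x 1)) :=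
  isPer_two (F := fun _ Y => G Y) (fun _ _ => rfl) (fun _ Y => hG Y)

lemma isPer_tst (hf : ∀ y, f (y + 2 * π) = f y) (hG : ∀ y, G (y + 2 * π) = G y) (T : ℝ) (K : ℕ) :
    IsPer (tst (d := d) f G T K) := by
  intro x i
  have h1 := isPer_sinph (d := d) hf T K x i
  have h2 := isPer_one (d := d) hG x i
  simp only at h1 h2
  simp only [tst, h1, h2]

lemma coord_add0 (x : E (d + 2)) (c : ℝ) :
    (x + EuclideanSpace.single 0 c : E (d + 2)) 0 = x 0 + c ∧
      (x + EuclideanSpace.single 0 c : E (d + 2)) 1 = x 1 := by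
  constructor
  · simp
  · simp

/-- the test function is orthogonal to functions of the second coordinate -/
lemma tst_orth (hf : ∀ y, f (y + 2 * π) = f y) (hG : ∀ y, G (y + 2 * π) = G y) {F : ℝ → ℝ}
    (hF : ∀ y, F (y + 2 * π) = F y) (T : ℝ) {K : ℕ} (hK : 1 ≤ K) (s : E (d + 2)) :
    (∫ x in Q (d + 2), tst f G T K x * F ((x - s) 1)) = 0 := by
  have hK0 : (K : ℝ) ≠ 0 := by positivity
  refine setIntegral_antiper (a := EuclideanSpace.single 0 (π / K)) ?_ ?_
  · intro x i
    have h1 := isPer_tst (d := d) hf hG T K x i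
    have h2 := isPer_one (d := d) hF (x - s) i
    simp only at h2
    have h3 : x + EuclideanSpace.single i (2 * π) - s = x - s + EuclideanSpace.single i (2 * π) := by
      abel
    simp only [h1, h3, h2]
  · intro x
    have h3 : x + EuclideanSpace.single 0 (π / K) - s = x - s + EuclideanSpace.single 0 (π / K) := by
      abel
    simp only [tst, ph, h3, (coord_add0 _ _).1, (coord_add0 _ _).2]
    have h4 : (K : ℝ) * (x 0 + π / K - T * f (x 1)) = K * (x 0 - T * f (x 1)) + π := by
      field_simp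
      ring
    rw [h4, sin_add_pi]
    ring

/-- product to sum -/
lemma tst_prod (hfc : Continuous f) (hGc : Continuous G) (hρc : Continuous ρ)
    (hf : ∀ y, f (y + 2 * π) = f y) (hG : ∀ y, G (y + 2 * π) = G y)
    (hρ : ∀ y, ρ (y + 2 * π) = ρ y) (T : ℝ) {K : ℕ} (hK : 1 ≤ K) (s : E (d + 2)) :
    (∫ x in Q (d + 2), tst f G T K x * (ρ ((x - s) 1) * sin (ph f T K (x - s)))) =
      1 / 2 * ∫ x in Q (d + 2), G (x 1) * ρ (x 1 - s 1) *
        cos (K * (s 0 - T * (f (x 1) - f (x 1 - s 1)))) := by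
  have hK0 : (K : ℝ) ≠ 0 := by positivity
  set H : E (d + 2) → ℝ := fun x => G (x 1) * ρ (x 1 - s 1) *
    cos (K * (x 0 - T * f (x 1)) + K * (x 0 - s 0 - T * f (x 1 - s 1))) with hH
  have h1 : ∀ x : E (d + 2), tst f G T K x * (ρ ((x - s) 1) * sin (ph f T K (x - s))) =
      1 / 2 * (G (x 1) * ρ (x 1 - s 1) * cos (K * (s 0 - T * (f (x 1) - f (x 1 - s 1)))))
      - 1 / 2 * H x := by
    intro x
    simp only [tst, ph, hH, PiLp.sub_apply]
    have e1 : (K : ℝ) * (s 0 - T * (f (x 1) - f (x 1 - s 1))) =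
        K * (x 0 - T * f (x 1)) - K * (x 0 - s 0 - T * f (x 1 - s 1)) := by ring
    rw [e1, cos_sub, cos_add]
    ring
  simp_rw [h1]
  have hHc : Continuous H := by
    simp only [hH]
    fun_prop
  rw [integral_sub, integral_const_mul, integral_const_mul]
  · have h2 : (∫ x in Q (d + 2), H x) = 0 := by
      refine setIntegral_antiper (a := EuclideanSpace.single 0 (π / (2 * K))) ?_ ?_
      · simp only [hH]
        apply isPer_two (F := fun X Y => G Y * ρ (Y - s 1) *
          cos (K * (X - T * f Y) + K * (X - s 0 - T * f (Y - s 1))))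
        · intro X Y
          have e2 : (K : ℝ) * (X + 2 * π - T * f Y) + K * (X + 2 * π - s 0 - T * f (Y - s 1)) =
              (K * (X - T * f Y) + K * (X - s 0 - T * f (Y - s 1))) + ((2 * K : ℕ) : ℝ) * (2 * π) := by
            push_cast
            ring
          rw [e2, cos_add_nat_mul_two_pi]
        · intro X Y
          have e3 : Y + 2 * π - s 1 = (Y - s 1) + 2 * π := by ring
          rw [e3, hG, hρ, hf, hf]
      · intro x
        simp only [hH, (coord_add0 _ _).1, (coord_add0 _ _).2]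
        have e4 : (K : ℝ) * (x 0 + π / (2 * K) - T * f (x 1)) +
            K * (x 0 + π / (2 * K) - s 0 - T * f (x 1 - s 1)) =
            (K * (x 0 - T * f (x 1)) + K * (x 0 - s 0 - T * f (x 1 - s 1))) + π := by
          field_simp
          ring
        rw [e4, cos_add_pi]
        ring
    rw [h2, mul_zero, sub_zero]
  · apply integrableOn_Q
    fun_prop
  · apply integrableOn_Q
    fun_prop

end two

end Pool.Agent.Helper865.EulerBesov
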