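import Pool.Agent.Helper865.EulerBesov.Lower

set_option autoImplicit false

open Set Filter Topology MeasureTheory Real
open scoped ContDiff ENNReal RealInnerProductSpace

namespace Pool.Agent.Helper865.EulerBesov

variable {d : ℕ} {χ : E (d + 2) → ℝ} {f g ρ G : ℝ → ℝ}

/-- standing assumptions on the profiles -/
structure Wave (f g ρ G : ℝ → ℝ) (Bρ : ℝ) : Prop where
  df : ∀ y, HasDerivAt f (g y) y
  cg : Continuous g
  cρ : Continuous ρ
  cG : Continuous G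
  pf : ∀ y, f (y + 2 * π) = f y
  pρ : ∀ y, ρ (y + 2 * π) = ρ y
  pG : ∀ y, G (y + 2 * π) = G y
  bρ : ∀ y, |ρ y| ≤ Bρ
  G0 : ∀ y, 0 ≤ G y
  G1 : ∀ y, G y ≤ 1

lemma Wave.cf {Bρ : ℝ} (h : Wave f g ρ G Bρ) : Continuous f := cont_of_hasDerivAt h.df

lemma Wave.Bρ0 {Bρ : ℝ} (h : Wave f g ρ G Bρ) : 0 ≤ Bρ := (abs_nonneg _).trans (h.bρ 0)

/-- the remainder -/
noncomputable def rem (f ρ : ℝ → ℝ) (T K : ℝ) (v : E (d + 2) → E (d + 2)) (x : E (d + 2)) : ℝ :=
  v x 0 - f (x 1) - K⁻¹ * ρ (x 1) * sin (ph f T K x)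

lemma continuous_rem {Bρ : ℝ} (h : Wave f g ρ G Bρ) (T K : ℝ) {v : E (d + 2) → E (d + 2)}
    (hv : Continuous v) : Continuous (rem f ρ T K v) := by
  have h1 := h.cf
  have h2 := h.cρ
  have h3 := continuous_ph (d := d) h1 T K
  unfold rem
  fun_prop

lemma isPer_rem {Bρ : ℝ} (h : Wave f g ρ G Bρ) (T : ℝ) (K : ℕ) {v : E (d + 2) → E (d + 2)}
    (hv : IsPer v) : IsPer (rem f ρ T K v) := by
  intro x i
  have h1 := isPer_sinph (d := d) h.pf T K x i
  have h2 := isPer_one (d := d) h.pρ x i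
  have h3 := isPer_one (d := d) h.pf x i
  simp only at h1 h2 h3
  simp only [rem, h1, h2, h3, hv x i]

/-- decomposition of the pairing with the test function -/
lemma pairing_eq {Bρ : ℝ} (h : Wave f g ρ G Bρ) (T : ℝ) {K : ℕ} (hK : 1 ≤ K)
    {v : E (d + 2) → E (d + 2)} (hv : Continuous v) (s : E (d + 2)) :
    (K : ℝ) * (∫ x in Q (d + 2), tst f G T K x * v (x - s) 0) =
      1 / 2 * (∫ x in Q (d + 2), G (x 1) * ρ (x 1 - s 1) *
        cos (K * (s 0 - T * (f (x 1) - f (x 1 - s 1)))))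
      + K * ∫ x in Q (d + 2), tst f G T K x * rem f ρ T K v (x - s) := by
  have hK0 : (K : ℝ) ≠ 0 := by positivity
  have cf := h.cf
  have cρ := h.cρ
  have ct := continuous_tst (d := d) h.cf h.cG T K
  have cp := continuous_ph (d := d) h.cf T K
  have cr := continuous_rem (d := d) h T K hv
  have e1 : ∀ x : E (d + 2), tst f G T K x * v (x - s) 0 =
      tst f G T K x * f ((x - s) 1)
      + (K : ℝ)⁻¹ * (tst f G T K x * (ρ ((x - s) 1) * sin (ph f T K (x - s))))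
      + tst f G T K x * rem f ρ T K v (x - s) := by
    intro x
    unfold rem
    ring
  simp_rw [e1]
  have i1 : IntegrableOn (fun x : E (d + 2) => tst f G T K x * f ((x - s) 1)) (Q (d + 2)) := by
    apply integrableOn_Q
    fun_prop
  have i2 : IntegrableOn (fun x : E (d + 2) =>
      (K : ℝ)⁻¹ * (tst f G T K x * (ρ ((x - s) 1) * sin (ph f T K (x - s))))) (Q (d + 2)) := by
    apply integrableOn_Q
    fun_prop
  have i3 : IntegrableOn (fun x : E (d + 2) => tst f G T K x * rem f ρ T K v (x - s))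
      (Q (d + 2)) := by
    apply integrableOn_Q
    fun_prop
  rw [integral_add (f := fun x : E (d + 2) => tst f G T K x * f ((x - s) 1)
      + (K : ℝ)⁻¹ * (tst f G T K x * (ρ ((x - s) 1) * sin (ph f T K (x - s)))))
      (i1.add i2) i3, integral_add i1 i2, integral_const_mul,
    tst_orth h.pf h.pG h.pf T hK s, tst_prod h.cf h.cG h.cρ h.pf h.pG h.pρ T hK s, zero_add,
    mul_add, ← mul_assoc (K : ℝ) (K : ℝ)⁻¹, mul_inv_cancel₀ hK0, one_mul]

lemma abs_tst_le {Bρ : ℝ} (h : Wave f g ρ G Bρ) (T K : ℝ) (x : E (d + 2)) :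
    |tst f G T K x| ≤ 1 := by
  unfold tst
  rw [abs_mul]
  apply mul_le_one₀ _ (abs_nonneg _) (abs_sin_le_one _)
  rw [abs_of_nonneg (h.G0 _)]
  exact h.G1 _

/-- the remainder is negligible -/
lemma rem_pairing_le {Bρ : ℝ} (h : Wave f g ρ G Bρ) (T : ℝ) {K : ℕ} (hK : 1 ≤ K)
    {v : E (d + 2) → E (d + 2)} (hv : Continuous v) (hper : IsPer v) {C : ℝ}
    (hC : (∫ x in Q (d + 2), rem f ρ T K v x ^ 2) ≤ C * (K : ℝ)⁻¹ ^ 4) (s : E (d + 2)) :
    |(K : ℝ) * ∫ x in Q (d + 2), tst f G T K x * rem f ρ T K v (x - s)| ≤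
      1 / 2 * (K : ℝ)⁻¹ * (C + (volume (Q (d + 2))).toReal) := by
  have hK0 : (0 : ℝ) < K := by positivity
  have ct := continuous_tst (d := d) h.cf h.cG T K
  have cr := continuous_rem (d := d) h T K hv
  have hp : IsPer (fun x => rem f ρ T K v x ^ 2) := by
    intro x i
    have := isPer_rem (d := d) h T K hper x i
    simp only [this]
  have h1 : |∫ x in Q (d + 2), tst f G T K x * rem f ρ T K v (x - s)| ≤
      ∫ x in Q (d + 2), (1 / 2 * ((K : ℝ) ^ 2 * rem f ρ T K v (x - s) ^ 2)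
        + 1 / 2 * (K : ℝ)⁻¹ ^ 2) := by
    rw [← Real.norm_eq_abs]
    refine (norm_integral_le_integral_norm _).trans ?_
    apply integral_mono
    · exact (integrableOn_Q (by fun_prop :
        Continuous fun x => tst f G T K x * rem f ρ T K v (x - s))).norm
    · apply integrableOn_Q
      fun_prop
    · intro x
      simp only
      rw [Real.norm_eq_abs, abs_mul]
      have h2 := abs_tst_le h T K x
      have h3 : |tst f G T K x| * |rem f ρ T K v (x - s)| ≤ 1 * |rem f ρ T K v (x - s)| := by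
        gcongr
      have h4 : (K : ℝ) * (K : ℝ)⁻¹ = 1 := mul_inv_cancel₀ hK0.ne'
      have h5 := sq_abs (rem f ρ T K v (x - s))
      have h6 : (K : ℝ) * (K : ℝ)⁻¹ * |rem f ρ T K v (x - s)| = |rem f ρ T K v (x - s)| := by
        rw [h4, one_mul]
      rw [← h5]
      nlinarith [sq_nonneg ((K : ℝ) * |rem f ρ T K v (x - s)| - (K : ℝ)⁻¹)]
  have h6 : (∫ x in Q (d + 2), (1 / 2 * ((K : ℝ) ^ 2 * rem f ρ T K v (x - s) ^ 2)
        + 1 / 2 * (K : ℝ)⁻¹ ^ 2)) =
      1 / 2 * ((K : ℝ) ^ 2 * ∫ x in Q (d + 2), rem f ρ T K v x ^ 2)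
        + 1 / 2 * (K : ℝ)⁻¹ ^ 2 * (volume (Q (d + 2))).toReal := by
    rw [integral_add, integral_const_mul, integral_const_mul, setIntegral_const]
    · rw [setIntegral_Q_translate_sub hp s]
      simp only [smul_eq_mul, measureReal_def]
      ring
    · apply integrableOn_Q
      fun_prop
    · exact integrableOn_Q continuous_const
  rw [h6] at h1
  rw [abs_mul, abs_of_nonneg hK0.le]
  have h7 : (K : ℝ)⁻¹ * K = 1 := inv_mul_cancel₀ hK0.ne'
  calc (K : ℝ) * |∫ x in Q (d + 2), tst f G T K x * rem f ρ T K v (x - s)|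
      ≤ K * (1 / 2 * ((K : ℝ) ^ 2 * (C * (K : ℝ)⁻¹ ^ 4))
        + 1 / 2 * (K : ℝ)⁻¹ ^ 2 * (volume (Q (d + 2))).toReal) := by
        apply mul_le_mul_of_nonneg_left _ hK0.le
        refine h1.trans ?_
        gcongr
    _ = 1 / 2 * (K : ℝ)⁻¹ * (C + (volume (Q (d + 2))).toReal) := by
        field_simp

/-- frequency vector seen by the kernel -/
noncomputable def zet (d r : ℕ) (T : ℝ) (g : ℝ → ℝ) (y : ℝ) : E (d + 2) :=
  (1 / 2 : ℝ) ^ r • (EuclideanSpace.single 0 (1:ℝ) - (T * g y) • EuclideanSpace.single 1 (1:ℝ))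

lemma inner_zet (r : ℕ) (T : ℝ) (g : ℝ → ℝ) (t : ℝ) (y : E (d + 2)) :
    ⟪y, zet d r T g t⟫ = (1 / 2 : ℝ) ^ r * (y 0 - T * g t * y 1) := by
  unfold zet
  rw [real_inner_smul_right, inner_sub_right, real_inner_smul_right,
    EuclideanSpace.inner_single_right, EuclideanSpace.inner_single_right]
  simp

/-- difference quotients along the dyadic scale -/
lemma tendsto_dq (hf : ∀ y, HasDerivAt f (g y) y) (x a : ℝ) :
    Tendsto (fun m : ℕ => (2:ℝ) ^ m * (f x - f (x - (1 / 2 : ℝ) ^ m * a))) atTop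
      (𝓝 (a * g x)) := by
  have h1 : HasDerivAt (fun τ : ℝ => f (x - τ * a)) (-(a * g x)) 0 := by
    have h2 : HasDerivAt (fun τ : ℝ => x - τ * a) (-a) 0 := by
      simpa using ((hasDerivAt_id (0:ℝ)).mul_const a).const_sub x
    have h3 : HasDerivAt f (g x) (x - 0 * a) := by simpa using hf x
    refine (h3.comp (0:ℝ) h2).congr_deriv ?_
    ring
  have h4 := h1.tendsto_slope_zero
  have h5 : Tendsto (fun m : ℕ => (1 / 2 : ℝ) ^ m) atTop (𝓝[≠] 0) := by
    rw [tendsto_nhdsWithin_iff]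
    refine ⟨tendsto_pow_atTop_nhds_zero_of_lt_one (by norm_num) (by norm_num), ?_⟩
    exact Filter.Eventually.of_forall fun m => by
      simp
  have h6 := (h4.comp h5).neg
  rw [neg_neg] at h6
  refine h6.congr fun m => ?_
  simp only [Function.comp_apply, zero_add, zero_mul, sub_zero, smul_eq_mul]
  rw [one_div, inv_pow, inv_inv]
  ring

/-- the limit of the main term -/
lemma tendsto_main {Bρ : ℝ} (h : Wave f g ρ G Bρ) (T : ℝ) (r : ℕ) (y : E (d + 2)) :
    Tendsto (fun m : ℕ => 1 / 2 * (∫ x in Q (d + 2), G (x 1) *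
        ρ (x 1 - ((1 / 2 : ℝ) ^ (m + r) • y) 1) *
        cos (((2 ^ m : ℕ) : ℝ) * (((1 / 2 : ℝ) ^ (m + r) • y) 0 -
          T * (f (x 1) - f (x 1 - ((1 / 2 : ℝ) ^ (m + r) • y) 1)))))) atTop
      (𝓝 (1 / 2 * ∫ x in Q (d + 2), G (x 1) * ρ (x 1) * cos ⟪y, zet d r T g (x 1)⟫)) := by
  apply Tendsto.const_mul
  have cf := h.cf
  have cG := h.cG
  have cρ := h.cρ
  apply tendsto_integral_of_dominated_convergence (fun _ => Bρ)
  · intro m
    exact (by fun_prop : Continuous fun x : E (d + 2) => G (x 1) *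
        ρ (x 1 - ((1 / 2 : ℝ) ^ (m + r) • y) 1) *
        cos (((2 ^ m : ℕ) : ℝ) * (((1 / 2 : ℝ) ^ (m + r) • y) 0 -
          T * (f (x 1) - f (x 1 - ((1 / 2 : ℝ) ^ (m + r) • y) 1))))).aestronglyMeasurable
  · exact integrable_const _
  · intro m
    refine Filter.Eventually.of_forall fun x => ?_
    rw [Real.norm_eq_abs, abs_mul, abs_mul]
    have h1 : |G (x 1)| ≤ 1 := by rw [abs_of_nonneg (h.G0 _)]; exact h.G1 _
    calc |G (x 1)| * |ρ (x 1 - ((1 / 2 : ℝ) ^ (m + r) • y) 1)| * |cos _|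
        ≤ (1 * Bρ) * 1 := by
          apply mul_le_mul _ (abs_cos_le_one _) (abs_nonneg _) (by simpa using h.Bρ0)
          exact mul_le_mul h1 (h.bρ _) (abs_nonneg _) zero_le_one
      _ = Bρ := by ring
  · refine Filter.Eventually.of_forall fun x => ?_
    have e1 : ∀ m : ℕ, ((1 / 2 : ℝ) ^ (m + r) • y) 1 = (1 / 2 : ℝ) ^ m * ((1 / 2 : ℝ) ^ r * y 1) := by
      intro m
      simp only [PiLp.smul_apply, smul_eq_mul, pow_add]
      ring
    have e2 : ∀ m : ℕ, ((2 ^ m : ℕ) : ℝ) * (((1 / 2 : ℝ) ^ (m + r) • y) 0) = (1 / 2 : ℝ) ^ r * y 0 := by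
      intro m
      simp only [PiLp.smul_apply, smul_eq_mul, pow_add]
      push_cast
      have : (2:ℝ) ^ m * (1 / 2 : ℝ) ^ m = 1 := by rw [← mul_pow]; norm_num
      calc (2:ℝ) ^ m * ((1 / 2 : ℝ) ^ m * (1 / 2 : ℝ) ^ r * y 0) =
          ((2:ℝ) ^ m * (1 / 2 : ℝ) ^ m) * ((1 / 2 : ℝ) ^ r * y 0) := by ring
        _ = _ := by rw [this, one_mul]
    have l1 : Tendsto (fun m : ℕ => ρ (x 1 - (1 / 2 : ℝ) ^ m * ((1 / 2 : ℝ) ^ r * y 1))) atTop
        (𝓝 (ρ (x 1))) := by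
      have h2 : Tendsto (fun m : ℕ => x 1 - (1 / 2 : ℝ) ^ m * ((1 / 2 : ℝ) ^ r * y 1)) atTop
          (𝓝 (x 1 - 0 * ((1 / 2 : ℝ) ^ r * y 1))) :=
        ((tendsto_pow_atTop_nhds_zero_of_lt_one (by norm_num) (by norm_num)).mul_const _).const_sub _
      rw [zero_mul, sub_zero] at h2
      exact (cρ.tendsto _).comp h2
    have l2 := tendsto_dq h.df (x 1) ((1 / 2 : ℝ) ^ r * y 1)
    have l3 : Tendsto (fun m : ℕ => ((2 ^ m : ℕ) : ℝ) * (((1 / 2 : ℝ) ^ (m + r) • y) 0 -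
          T * (f (x 1) - f (x 1 - ((1 / 2 : ℝ) ^ (m + r) • y) 1)))) atTop
        (𝓝 ⟪y, zet d r T g (x 1)⟫) := by
      rw [inner_zet]
      have l4 := (l2.const_mul T).const_sub ((1 / 2 : ℝ) ^ r * y 0)
      have e3 : (1 / 2 : ℝ) ^ r * y 0 - T * ((1 / 2 : ℝ) ^ r * y 1 * g (x 1)) =
          (1 / 2 : ℝ) ^ r * (y 0 - T * g (x 1) * y 1) := by ring
      rw [e3] at l4
      refine l4.congr fun m => ?_
      have h7 := e2 m
      rw [e1 m]
      push_cast at h7 ⊢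
      linear_combination (-1) * h7
    simp_rw [e1] at l3 ⊢
    exact ((l1.const_mul _).mul ((continuous_cos.tendsto _).comp l3))

end Pool.Agent.Helper865.EulerBesov
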