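import Pool.Agent.Helper865.EulerBesov.Lower2

set_option autoImplicit false

open Set Filter Topology MeasureTheory Real
open scoped ContDiff ENNReal RealInnerProductSpace

namespace Pool.Agent.Helper865.EulerBesov

variable {d : ℕ} {χ : E (d + 2) → ℝ} {f g ρ G : ℝ → ℝ}

lemma abs_main_le {Bρ : ℝ} (h : Wave f g ρ G Bρ) {Φ : E (d + 2) → ℝ} (s : ℝ) :
    |1 / 2 * ∫ x in Q (d + 2), G (x 1) * ρ (x 1 - s) * cos (Φ x)| ≤
      1 / 2 * (Bρ * (volume (Q (d + 2))).toReal) := by
  rw [abs_mul, abs_of_nonneg (by norm_num : (0:ℝ) ≤ 1 / 2)]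
  apply mul_le_mul_of_nonneg_left _ (by norm_num)
  rw [← Real.norm_eq_abs]
  refine norm_setIntegral_le_of_norm_le_const volume_Q_lt_top fun x _ => ?_
  rw [Real.norm_eq_abs, abs_mul, abs_mul]
  have h1 : |G (x 1)| ≤ 1 := by rw [abs_of_nonneg (h.G0 _)]; exact h.G1 _
  calc |G (x 1)| * |ρ (x 1 - s)| * |cos (Φ x)| ≤ (1 * Bρ) * 1 := by
        apply mul_le_mul _ (abs_cos_le_one _) (abs_nonneg _) (by simpa using h.Bρ0)
        exact mul_le_mul h1 (h.bρ _) (abs_nonneg _) zero_le_one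
    _ = Bρ := by ring

lemma measurable_pairing {h w : E (d + 2) → ℝ} (hh : Continuous h) (hw : Continuous w) (c : ℝ) :
    StronglyMeasurable (fun y : E (d + 2) => ∫ x in Q (d + 2), h x * w (x - c • y)) := by
  apply StronglyMeasurable.integral_prod_right
  exact (by fun_prop : Continuous (Function.uncurry fun (y x : E (d + 2)) =>
    h x * w (x - c • y))).stronglyMeasurable

theorem tendsto_pairing (hχ : IsCutoff χ) {Bρ : ℝ} (h : Wave f g ρ G Bρ) (T : ℝ) (r : ℕ) {C : ℝ}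
    (hC0 : 0 ≤ C) {v : ℕ → E (d + 2) → E (d + 2)} (hv : ∀ m, Continuous (v m))
    (hper : ∀ m, IsPer (v m))
    (hC : ∀ m, (∫ x in Q (d + 2), rem f ρ T ((2 ^ m : ℕ) : ℝ) (v m) x ^ 2) ≤
      C * (((2 ^ m : ℕ) : ℝ)⁻¹) ^ 4) :
    Tendsto (fun m : ℕ => ((2 ^ m : ℕ) : ℝ) * ∫ x in Q (d + 2),
      tst f G T ((2 ^ m : ℕ) : ℝ) x * (lowpass χ (m + r) (v m) x) 0) atTop
      (𝓝 (1 / 2 * ∫ x in Q (d + 2), G (x 1) * ρ (x 1) *
        χ ((2 * π)⁻¹ • zet d r T g (x 1)))) := by
  set Ω : ℝ := (volume (Q (d + 2))).toReal with hΩ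
  have hΩ0 : 0 ≤ Ω := ENNReal.toReal_nonneg
  have hBρ := h.Bρ0
  have cf := h.cf
  have cG := h.cG
  have cρ := h.cρ
  have cg := h.cg
  have ck := continuous_kernel hχ
  have hKpos : ∀ m : ℕ, 1 ≤ 2 ^ m := fun m => Nat.one_le_two_pow
  -- rewriting by Fubini
  have e1 : ∀ m : ℕ, ((2 ^ m : ℕ) : ℝ) * (∫ x in Q (d + 2),
      tst f G T ((2 ^ m : ℕ) : ℝ) x * (lowpass χ (m + r) (v m) x) 0) =
      ∫ y, kernel χ y * (((2 ^ m : ℕ) : ℝ) * ∫ x in Q (d + 2),
        tst f G T ((2 ^ m : ℕ) : ℝ) x * v m (x - (1 / 2 : ℝ) ^ (m + r) • y) 0) := by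
    intro m
    obtain ⟨A, hA⟩ := (hper m).bounded (hv m)
    have hA' : ∀ x, |v m x 0| ≤ A := fun x => (abs_coord_le _ _).trans (hA x)
    simp_rw [lowpass_coord hχ (hv m) hA]
    rw [fubini_lowpass hχ (w := fun x => v m x 0) (continuous_tst cf cG T _)
      (by have := hv m; fun_prop) hA', ← integral_const_mul]
    congr 1
    ext y
    ring
  simp_rw [e1]
  -- the limit
  have e2 : (1 / 2 * ∫ x in Q (d + 2), G (x 1) * ρ (x 1) *
        χ ((2 * π)⁻¹ • zet d r T g (x 1))) =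
      ∫ y, kernel χ y * (1 / 2 * ∫ x in Q (d + 2), G (x 1) * ρ (x 1) *
        cos ⟪y, zet d r T g (x 1)⟫) := by
    have hzc : Continuous (fun z : E (d + 2) × E (d + 2) => ⟪z.2, zet d r T g (z.1 1)⟫) := by
      simp_rw [inner_zet]
      fun_prop
    have hint : Integrable (fun z : E (d + 2) × E (d + 2) =>
        G (z.1 1) * ρ (z.1 1) * (kernel χ z.2 * cos ⟪z.2, zet d r T g (z.1 1)⟫))
        ((volume.restrict (Q (d + 2))).prod volume) := by
      have h1 : Integrable (fun z : E (d + 2) × E (d + 2) => Bρ * |kernel χ z.2|)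
          ((volume.restrict (Q (d + 2))).prod volume) :=
        Integrable.mul_prod (f := fun _ : E (d + 2) => Bρ) (g := fun y => |kernel χ y|)
          (integrable_const _) (integrable_kernel hχ).abs
      refine h1.mono' (by fun_prop : Continuous fun z : E (d + 2) × E (d + 2) =>
        G (z.1 1) * ρ (z.1 1) * (kernel χ z.2 *
          cos ⟪z.2, zet d r T g (z.1 1)⟫)).aestronglyMeasurable ?_
      refine Filter.Eventually.of_forall fun z => ?_
      rw [Real.norm_eq_abs, abs_mul, abs_mul, abs_mul]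
      have h1 : |G (z.1 1)| ≤ 1 := by rw [abs_of_nonneg (h.G0 _)]; exact h.G1 _
      calc |G (z.1 1)| * |ρ (z.1 1)| * (|kernel χ z.2| * |cos ⟪z.2, zet d r T g (z.1 1)⟫|)
          ≤ (1 * Bρ) * (|kernel χ z.2| * 1) := by
            apply mul_le_mul
            · exact mul_le_mul h1 (h.bρ _) (abs_nonneg _) zero_le_one
            · gcongr
              exact abs_cos_le_one _
            · positivity
            · linarith
        _ = Bρ * |kernel χ z.2| := by ring
    simp_rw [← integral_kernel_mul_cos hχ, ← integral_const_mul]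
    rw [integral_integral_swap (f := fun x y : E (d + 2) => 1 / 2 *
      (G (x 1) * ρ (x 1) * (kernel χ y * cos ⟪y, zet d r T g (x 1)⟫))) (hint.const_mul (1 / 2))]
    congr 1
    ext y
    congr 1
    ext x
    ring
  rw [e2]
  apply tendsto_integral_of_dominated_convergence
    (fun y => |kernel χ y| * (1 / 2 * (Bρ * Ω) + 1 / 2 * (C + Ω)))
  · intro m
    exact (ck.stronglyMeasurable.mul ((measurable_pairing (h := tst f G T ((2 ^ m : ℕ) : ℝ))
      (w := fun x => v m x 0) (continuous_tst cf cG T _) (by have := hv m; fun_prop)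
      ((1 / 2 : ℝ) ^ (m + r))).const_mul _)).aestronglyMeasurable
  · exact (integrable_kernel hχ).abs.mul_const _
  · intro m
    refine Filter.Eventually.of_forall fun y => ?_
    rw [Real.norm_eq_abs, abs_mul]
    apply mul_le_mul_of_nonneg_left _ (abs_nonneg _)
    rw [pairing_eq h T (hKpos m) (hv m)]
    refine (abs_add_le _ _).trans (add_le_add (abs_main_le h _) ?_)
    refine (rem_pairing_le h T (hKpos m) (hv m) (hper m) (hC m) _).trans ?_
    have h1 : (((2 ^ m : ℕ) : ℝ))⁻¹ ≤ 1 := by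
      apply inv_le_one_of_one_le₀
      exact_mod_cast hKpos m
    calc 1 / 2 * (((2 ^ m : ℕ) : ℝ))⁻¹ * (C + Ω) ≤ 1 / 2 * 1 * (C + Ω) := by gcongr
      _ = _ := by ring
  · refine Filter.Eventually.of_forall fun y => ?_
    apply Tendsto.const_mul
    have h1 : ∀ m : ℕ, (((2 ^ m : ℕ) : ℝ) * ∫ x in Q (d + 2),
        tst f G T ((2 ^ m : ℕ) : ℝ) x * v m (x - (1 / 2 : ℝ) ^ (m + r) • y) 0) = _ :=
      fun m => pairing_eq h T (hKpos m) (hv m) ((1 / 2 : ℝ) ^ (m + r) • y)
    simp_rw [h1]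
    have h2 := tendsto_main h T r y
    have h3 : Tendsto (fun m : ℕ => ((2 ^ m : ℕ) : ℝ) * ∫ x in Q (d + 2),
        tst f G T ((2 ^ m : ℕ) : ℝ) x *
          rem f ρ T ((2 ^ m : ℕ) : ℝ) (v m) (x - (1 / 2 : ℝ) ^ (m + r) • y)) atTop (𝓝 0) := by
      have h4 : Tendsto (fun m : ℕ => 1 / 2 * (((2 ^ m : ℕ) : ℝ))⁻¹ * (C + Ω)) atTop (𝓝 0) := by
        have h5 : Tendsto (fun m : ℕ => (((2 ^ m : ℕ) : ℝ))⁻¹) atTop (𝓝 0) := by
          have := tendsto_pow_atTop_nhds_zero_of_lt_one (r := (1 / 2 : ℝ)) (by norm_num)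
            (by norm_num)
          refine this.congr fun m => ?_
          push_cast
          rw [one_div, inv_pow]
        have := (h5.const_mul (1 / 2)).mul_const (C + Ω)
        simpa using this
      exact squeeze_zero_norm (fun m =>
        rem_pairing_le h T (hKpos m) (hv m) (hper m) (hC m) _) h4
    simpa using h2.add h3

end Pool.Agent.Helper865.EulerBesov
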