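import Pool.Agent.Helper865.EulerBesov.Lower3
import Pool.Agent.Helper865.EulerBesov.Compare

set_option autoImplicit false

open Set Filter Topology MeasureTheory Real
open scoped ContDiff ENNReal RealInnerProductSpace Pointwise

namespace Pool.Agent.Helper865.EulerBesov

section pos
variable {n : ℕ}

lemma isFund_Q : IsAddFundamentalDomain (lat n) (Q n) (volume : Measure (E n)) :=
  ZSpan.isAddFundamentalDomain (latBasis n) volume

lemma setIntegral_Q_pos {F : E n → ℝ} (hc : Continuous F) (hp : IsPer F) (h0 : ∀ x, 0 ≤ F x)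
    {x₀ : E n} (hx : 0 < F x₀) : 0 < ∫ x in Q n, F x := by
  rw [setIntegral_pos_iff_support_of_nonneg_ae (Filter.Eventually.of_forall h0)
    (integrableOn_Q hc)]
  rw [pos_iff_ne_zero]
  intro hzero
  have hopen : IsOpen (Function.support F) := hc.isOpen_support
  have hinv : ∀ g : lat n, g +ᵥ Function.support F = Function.support F := by
    intro g
    ext z
    rw [Set.mem_vadd_set_iff_neg_vadd_mem, Function.mem_support, Function.mem_support]
    have h1 : (-g) +ᵥ z = ((-g : lat n) : E n) + z := rfl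
    rw [h1, hp.vadd _ (-g).2 z]
  have hmeas : VAddInvariantMeasure (lat n) (E n) volume :=
    inferInstanceAs <| VAddInvariantMeasure (lat n).toAddSubgroup (E n) volume
  have h2 := isFund_Q.measure_zero_of_invariant _ hinv hzero
  exact hopen.measure_ne_zero volume ⟨x₀, hx.ne'⟩ h2

end pos

variable {d : ℕ} {χ : E (d + 2) → ℝ} {f g g1 g2 : ℝ → ℝ}

/-- the cutoff in the second coordinate -/
noncomputable def bump (g : ℝ → ℝ) (T lam y : ℝ) : ℝ := max 0 (1 / 10 - |T * g y / lam - 1|)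

lemma bump_supp {T lam y : ℝ} (hl : 0 < lam) (h : bump g T lam y ≠ 0) :
    9 / 10 * lam ≤ T * g y ∧ T * g y ≤ 11 / 10 * lam := by
  unfold bump at h
  have h1 : 0 < 1 / 10 - |T * g y / lam - 1| := by
    by_contra hcon
    push Not at hcon
    exact h (max_eq_left hcon)
  have h2 : |T * g y / lam - 1| < 1 / 10 := by linarith
  rw [abs_lt] at h2
  have h3 : T * g y = (T * g y / lam) * lam := by field_simp
  constructor
  · rw [h3]
    apply mul_le_mul_of_nonneg_right _ hl.le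
    linarith [h2.1]
  · rw [h3]
    apply mul_le_mul_of_nonneg_right _ hl.le
    linarith [h2.2]

lemma bump_nonneg (T lam y : ℝ) : 0 ≤ bump g T lam y := le_max_left _ _

lemma bump_le_one (T lam y : ℝ) : bump g T lam y ≤ 1 := by
  unfold bump
  apply max_le zero_le_one
  linarith [abs_nonneg (T * g y / lam - 1)]

lemma rho_eq (g : ℝ → ℝ) (ε T y : ℝ) :
    rho g ε T y = -(ε * (T * g y / (1 + (T * g y) ^ 2))) := by
  unfold rho In
  rw [mul_pow]
  ring

lemma abs_rho_le (g : ℝ → ℝ) {ε : ℝ} (hε : 0 ≤ ε) (T y : ℝ) : |rho g ε T y| ≤ ε := by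
  rw [rho_eq, abs_neg, abs_mul, abs_of_nonneg hε]
  apply mul_le_of_le_one_right hε
  rw [abs_div, abs_of_pos (by positivity : 0 < 1 + (T * g y) ^ 2), div_le_one₀ (by positivity)]
  have h1 := sq_abs (T * g y)
  nlinarith [sq_nonneg (|T * g y| - 1), abs_nonneg (T * g y)]

lemma Prof.wave (h : Prof f g g1 g2) {ε : ℝ} (hε : 0 ≤ ε) (T lam : ℝ) :
    Wave f g (rho g ε T) (bump g T lam) ε where
  df := h.hf
  cg := h.cg
  cρ := by
    have h1 : rho g ε T = fun y => -(ε * (T * g y / (1 + (T * g y) ^ 2))) := funext (rho_eq g ε T)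
    rw [h1]
    have := h.cg
    have h2 : Continuous (fun y => T * g y / (1 + (T * g y) ^ 2)) := by
      apply Continuous.div (by fun_prop) (by fun_prop)
      intro y
      positivity
    fun_prop
  cG := by
    have := h.cg
    unfold bump
    fun_prop
  pf := h.per
  pρ := fun y => by simp only [rho_eq, h.perg]
  pG := fun y => by simp only [bump, h.perg]
  bρ := fun y => abs_rho_le g hε T y
  G0 := bump_nonneg T lam
  G1 := bump_le_one T lam

lemma norm_zet_le (r : ℕ) (T y : ℝ) : ‖zet d r T g y‖ ≤ (1 / 2 : ℝ) ^ r * (1 + |T * g y|) := by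
  unfold zet
  rw [norm_smul, Real.norm_of_nonneg (by positivity : (0:ℝ) ≤ (1 / 2 : ℝ) ^ r)]
  gcongr
  refine (norm_sub_le _ _).trans ?_
  rw [norm_smul, PiLp.norm_single, PiLp.norm_single, norm_one, mul_one, Real.norm_eq_abs]

lemma le_norm_zet (r : ℕ) (T y : ℝ) : (1 / 2 : ℝ) ^ r * |T * g y| ≤ ‖zet d r T g y‖ := by
  have h1 := abs_coord_le (zet d r T g y) 1
  refine le_trans (le_of_eq ?_) h1
  unfold zet
  simp [abs_mul]

lemma chi_zet_one (hχ : IsCutoff χ) {T y lam : ℝ} {r : ℕ} (hlr : (1 / 2 : ℝ) ^ r * lam = 1)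
    (hl : 1 ≤ lam) (h1 : 9 / 10 * lam ≤ T * g y) (h2 : T * g y ≤ 11 / 10 * lam) :
    χ ((2 * π)⁻¹ • zet d r T g y) = 1 := by
  apply hχ.one
  rw [norm_smul, Real.norm_of_nonneg (by positivity : (0:ℝ) ≤ (2 * π)⁻¹)]
  have hπ := pi_gt_three
  have hπ0 : 0 < 2 * π := by positivity
  have h3 : 0 ≤ T * g y := by linarith
  rw [inv_mul_eq_div, div_le_one₀ hπ0]
  refine (norm_zet_le r T y).trans ?_
  rw [abs_of_nonneg h3]
  have h4 : (0:ℝ) < (1 / 2 : ℝ) ^ r := by positivity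
  calc (1 / 2 : ℝ) ^ r * (1 + T * g y) ≤ (1 / 2 : ℝ) ^ r * (lam + 11 / 10 * lam) := by gcongr
    _ = 21 / 10 * ((1 / 2 : ℝ) ^ r * lam) := by ring
    _ ≤ 2 * π := by rw [hlr]; linarith

lemma chi_zet_zero (hχ : IsCutoff χ) {T y lam : ℝ} {r : ℕ} (hlr : (1 / 2 : ℝ) ^ r * lam = 64)
    (hl : 1 ≤ lam) (h1 : 9 / 10 * lam ≤ T * g y) :
    χ ((2 * π)⁻¹ • zet d r T g y) = 0 := by
  apply hχ.zero
  rw [norm_smul, Real.norm_of_nonneg (by positivity : (0:ℝ) ≤ (2 * π)⁻¹)]
  have hπ := pi_lt_d2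
  have hπ0 : 0 < 2 * π := by positivity
  have h3 : 0 ≤ T * g y := by linarith
  rw [inv_mul_eq_div, le_div_iff₀ hπ0]
  refine le_trans ?_ (le_norm_zet r T y)
  rw [abs_of_nonneg h3]
  have h4 : (0:ℝ) < (1 / 2 : ℝ) ^ r := by positivity
  calc 2 * (2 * π) ≤ 9 / 10 * 64 := by linarith
    _ = (1 / 2 : ℝ) ^ r * (9 / 10 * lam) := by rw [← hlr]; ring
    _ ≤ (1 / 2 : ℝ) ^ r * (T * g y) := by gcongr

/-- the amplitude on the support of the cutoff -/
lemma bump_rho_le {ε T lam y : ℝ} (hε : 0 ≤ ε) (hl : 2 ≤ lam) :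
    bump g T lam y * rho g ε T y ≤ -(ε / (11 / 5 * lam)) * bump g T lam y := by
  by_cases h0 : bump g T lam y = 0
  · rw [h0]; simp
  · obtain ⟨h1, h2⟩ := bump_supp (by linarith) h0
    have h3 : rho g ε T y ≤ -(ε / (11 / 5 * lam)) := by
      rw [rho_eq, neg_le_neg_iff, div_eq_mul_inv]
      apply mul_le_mul_of_nonneg_left _ hε
      have h4 : 1 ≤ T * g y := by linarith
      rw [inv_eq_one_div, div_le_div_iff₀ (by linarith) (by positivity)]
      nlinarith
    calc bump g T lam y * rho g ε T y ≤ bump g T lam y * (-(ε / (11 / 5 * lam))) := by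
          apply mul_le_mul_of_nonneg_left h3 (bump_nonneg _ _ _)
      _ = _ := mul_comm _ _

/-- telescoping of six blocks -/
lemma lowpass_sub_eq {n : ℕ} {χ : E n → ℝ} (v : E n → E n) (N : ℕ) (x : E n) :
    lowpass χ (N + 6) v x - lowpass χ N v x = ∑ k ∈ Finset.range 6, block χ (N + k + 1) v x := by
  have := Finset.sum_range_sub (fun k => lowpass χ (N + k) v x) 6
  simp only [add_zero] at this
  rw [← this]
  apply Finset.sum_congr rfl
  intro k _
  rfl

lemma lowpass_sub_norm_le {n : ℕ} {χ : E n → ℝ} {v : E n → E n} {N : ℕ} {c : ℝ} (hc : 0 ≤ c)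
    (x : E n)
    (h : ∀ k < 6, (2 : ℝ) ^ (((N + k + 1 : ℕ) : ℤ) - 1) * ‖block χ (N + k + 1) v x‖ ≤ c) :
    ‖lowpass χ (N + 6) v x - lowpass χ N v x‖ ≤ 2 * c * (1 / 2 : ℝ) ^ N := by
  rw [lowpass_sub_eq]
  have h1 : ∀ k ∈ Finset.range 6, ‖block χ (N + k + 1) v x‖ ≤
      c * (1 / 2 : ℝ) ^ N * (1 / 2 : ℝ) ^ k := by
    intro k hk
    have h2 := h k (Finset.mem_range.1 hk)
    rw [zpow_pred, pow_succ, mul_div_assoc, div_self two_ne_zero, mul_one] at h2
    have h3 : (0:ℝ) < 2 ^ (N + k) := by positivity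
    have h4 : (1 / 2 : ℝ) ^ N * (1 / 2 : ℝ) ^ k * 2 ^ (N + k) = 1 := by
      rw [← pow_add, ← mul_pow]; norm_num
    have h5 : 0 < (1 / 2 : ℝ) ^ N * (1 / 2 : ℝ) ^ k := by positivity
    calc ‖block χ (N + k + 1) v x‖
        = ((1 / 2 : ℝ) ^ N * (1 / 2 : ℝ) ^ k) * (2 ^ (N + k) * ‖block χ (N + k + 1) v x‖) := by
          rw [← mul_assoc, h4, one_mul]
      _ ≤ ((1 / 2 : ℝ) ^ N * (1 / 2 : ℝ) ^ k) * c := by gcongr
      _ = _ := by ring
  refine (norm_sum_le _ _).trans ((Finset.sum_le_sum h1).trans ?_)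
  rw [← Finset.mul_sum]
  have h6 : ∑ k ∈ Finset.range 6, (1 / 2 : ℝ) ^ k ≤ 2 := by
    simp only [Finset.sum_range_succ, Finset.sum_range_zero]
    norm_num
  have h7 : 0 ≤ c * (1 / 2 : ℝ) ^ N := by positivity
  calc c * (1 / 2 : ℝ) ^ N * ∑ k ∈ Finset.range 6, (1 / 2 : ℝ) ^ k ≤ c * (1 / 2 : ℝ) ^ N * 2 := by
        gcongr
    _ = _ := by ring

end Pool.Agent.Helper865.EulerBesov
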