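import Pool.Agent.Helper865.EulerBesov.Lower4

set_option autoImplicit false

open Set Filter Topology MeasureTheory Real
open scoped ContDiff ENNReal RealInnerProductSpace Pointwise

namespace Pool.Agent.Helper865.EulerBesov

variable {d : ℕ} {χ : E (d + 2) → ℝ} {f g g1 g2 : ℝ → ℝ} {q : ℝ}

/-- one group of six consecutive blocks contains a large one -/
theorem exists_block (hχ : IsCutoff χ) (h : Prof f g g1 g2) {T ε : ℝ} (hε : 0 < ε) {C : ℝ}
    (hC0 : 0 ≤ C) {v : ℕ → E (d + 2) → E (d + 2)} (hv : ∀ m, Continuous (v m))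
    (hper : ∀ m, IsPer (v m))
    (hC : ∀ m, (∫ x in Q (d + 2), rem f (rho g ε T) T ((2 ^ m : ℕ) : ℝ) (v m) x ^ 2) ≤
      C * (((2 ^ m : ℕ) : ℝ)⁻¹) ^ 4) (i : ℕ) (hy : ∃ y, T * g y = 64 ^ (i + 1)) :
    ∀ᶠ m : ℕ in atTop, ∃ k < 6, ∃ x, ε / 1000 ≤
      (2 : ℝ) ^ (((m + 6 * i + k + 1 : ℕ) : ℤ) - 1) * ‖block χ (m + 6 * i + k + 1) (v m) x‖ := by
  set lam : ℝ := 64 ^ (i + 1) with hlam
  have hl64 : (64:ℝ) ≤ lam := by
    rw [hlam, pow_succ]
    have : (1:ℝ) ≤ 64 ^ i := one_le_pow₀ (by norm_num)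
    linarith
  have hl0 : 0 < lam := by linarith
  have hw := h.wave hε.le T lam
  set G : ℝ → ℝ := bump g T lam with hG
  set ρ : ℝ → ℝ := rho g ε T with hρ
  have hp1 := tendsto_pairing hχ hw T (6 * i + 6) hC0 hv hper hC
  have hp0 := tendsto_pairing hχ hw T (6 * i) hC0 hv hper hC
  have hr1 : (1 / 2 : ℝ) ^ (6 * i + 6) * lam = 1 := by
    rw [hlam, show 6 * i + 6 = 6 * (i + 1) by ring, pow_mul, ← mul_pow]
    norm_num
  have hr0 : (1 / 2 : ℝ) ^ (6 * i) * lam = 64 := by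
    rw [hlam, pow_succ (64:ℝ), pow_mul, ← mul_assoc, ← mul_pow]
    norm_num
  -- values of the limits
  have hlim1 : ∀ x : E (d + 2), G (x 1) * ρ (x 1) *
      χ ((2 * π)⁻¹ • zet d (6 * i + 6) T g (x 1)) = G (x 1) * ρ (x 1) := by
    intro x
    by_cases h0 : G (x 1) = 0
    · rw [h0]; ring
    · obtain ⟨h1, h2⟩ := bump_supp hl0 h0
      rw [chi_zet_one hχ hr1 (by linarith) h1 h2, mul_one]
  have hlim0 : ∀ x : E (d + 2), G (x 1) * ρ (x 1) *
      χ ((2 * π)⁻¹ • zet d (6 * i) T g (x 1)) = 0 := by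
    intro x
    by_cases h0 : G (x 1) = 0
    · rw [h0]; ring
    · obtain ⟨h1, h2⟩ := bump_supp hl0 h0
      rw [chi_zet_zero hχ hr0 (by linarith) h1, mul_zero]
  simp_rw [hlim1] at hp1
  simp_rw [hlim0] at hp0
  rw [integral_zero, mul_zero] at hp0
  -- positivity of the mass of the cutoff
  set IG : ℝ := ∫ x in Q (d + 2), G (x 1) with hIG
  have cG := hw.cG
  have cρ := hw.cρ
  have hIG0 : 0 < IG := by
    obtain ⟨y, hy⟩ := hy
    apply setIntegral_Q_pos (F := fun x : E (d + 2) => G (x 1)) (by fun_prop) (isPer_one hw.pG)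
      (fun x => hw.G0 _) (x₀ := EuclideanSpace.single 1 y)
    simp only [PiLp.single_apply, if_true, hG, bump, hy]
    rw [div_self hl0.ne']
    simp
  -- the limit is large
  have hneg : 1 / 2 * (∫ x in Q (d + 2), G (x 1) * ρ (x 1)) ≤ -(ε * IG / (22 / 5 * lam)) := by
    have h1 : (∫ x in Q (d + 2), G (x 1) * ρ (x 1)) ≤
        ∫ x in Q (d + 2), -(ε / (11 / 5 * lam)) * G (x 1) := by
      apply integral_mono
      · exact integrableOn_Q (by fun_prop)
      · exact integrableOn_Q (by fun_prop)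
      · intro x
        exact bump_rho_le hε.le (by linarith)
    rw [integral_const_mul, ← hIG] at h1
    have h2 : 1 / 2 * (-(ε / (11 / 5 * lam)) * IG) = -(ε * IG / (22 / 5 * lam)) := by
      field_simp
      ring
    linarith
  have hlt : -(ε * IG / (22 / 5 * lam)) < -(ε * IG / (5 * lam)) := by
    rw [neg_lt_neg_iff]
    apply div_lt_div_of_pos_left (by positivity) (by positivity)
    linarith
  have hdiff := hp1.sub hp0
  rw [sub_zero] at hdiff
  have hev := hdiff.eventually (gt_mem_nhds (hneg.trans_lt hlt))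
  filter_upwards [hev] with m hm
  by_contra hcon
  push Not at hcon
  -- all six blocks small
  set K : ℝ := ((2 ^ m : ℕ) : ℝ) with hK
  have hK0 : 0 < K := by rw [hK]; positivity
  have hsmall : ∀ x, ‖lowpass χ (m + 6 * i + 6) (v m) x - lowpass χ (m + 6 * i) (v m) x‖ ≤
      2 * (ε / 1000) * (1 / 2 : ℝ) ^ (m + 6 * i) := by
    intro x
    exact lowpass_sub_norm_le (by positivity) x fun k hk => (hcon k hk x).le
  obtain ⟨A, hA⟩ := (hper m).bounded (hv m)
  have hA' : ∀ x, |v m x 0| ≤ A := fun x => (abs_coord_le _ _).trans (hA x)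
  have ct : Continuous (tst (d := d) f G T K) := continuous_tst hw.cf cG T K
  have hint : ∀ N, IntegrableOn (fun x : E (d + 2) => tst f G T K x * (lowpass χ N (v m) x) 0)
      (Q (d + 2)) := by
    intro N
    have h1 := (integrable_prod_lowpass hχ (h := tst f G T K) (w := fun x => v m x 0) ct
      (by have := hv m; fun_prop) hA' N).integral_prod_left
    refine h1.congr (Filter.Eventually.of_forall fun x => ?_)
    simp only
    rw [lowpass_coord hχ (hv m) hA, integral_const_mul]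
  have hD : K * (∫ x in Q (d + 2), tst f G T K x * (lowpass χ (m + (6 * i + 6)) (v m) x) 0) -
      K * (∫ x in Q (d + 2), tst f G T K x * (lowpass χ (m + 6 * i) (v m) x) 0) =
      K * ∫ x in Q (d + 2), tst f G T K x *
        ((lowpass χ (m + 6 * i + 6) (v m) x - lowpass χ (m + 6 * i) (v m) x) 0) := by
    rw [← mul_sub, ← integral_sub (hint _) (hint _)]
    congr 2
    ext x
    rw [PiLp.sub_apply, ← add_assoc]
    ring
  rw [hD] at hm
  have hub : |∫ x in Q (d + 2), tst f G T K x *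
      ((lowpass χ (m + 6 * i + 6) (v m) x - lowpass χ (m + 6 * i) (v m) x) 0)| ≤
      2 * (ε / 1000) * (1 / 2 : ℝ) ^ (m + 6 * i) * IG := by
    rw [← Real.norm_eq_abs, hIG, ← integral_const_mul]
    refine norm_integral_le_of_norm_le ?_ ?_
    · exact integrableOn_Q (by fun_prop)
    · refine Filter.Eventually.of_forall fun x => ?_
      rw [Real.norm_eq_abs, abs_mul, mul_comm]
      apply mul_le_mul
      · exact (abs_coord_le _ _).trans (hsmall x)
      · unfold tst
        rw [abs_mul, abs_of_nonneg (hw.G0 _)]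
        exact mul_le_of_le_one_right (hw.G0 _) (abs_sin_le_one _)
      · exact abs_nonneg _
      · positivity
  have hKp : K * (1 / 2 : ℝ) ^ (m + 6 * i) = 64 / lam := by
    rw [eq_div_iff hl0.ne', pow_add, hK]
    push_cast
    have h1 : (2:ℝ) ^ m * (1 / 2 : ℝ) ^ m = 1 := by rw [← mul_pow]; norm_num
    calc (2:ℝ) ^ m * ((1 / 2 : ℝ) ^ m * (1 / 2 : ℝ) ^ (6 * i)) * lam =
        ((2:ℝ) ^ m * (1 / 2 : ℝ) ^ m) * ((1 / 2 : ℝ) ^ (6 * i) * lam) := by ring
      _ = 64 := by rw [h1, hr0, one_mul]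
  have hlow := neg_abs_le (∫ x in Q (d + 2), tst f G T K x *
      ((lowpass χ (m + 6 * i + 6) (v m) x - lowpass χ (m + 6 * i) (v m) x) 0))
  have h1 : -(K * (2 * (ε / 1000) * (1 / 2 : ℝ) ^ (m + 6 * i) * IG)) ≤
      K * ∫ x in Q (d + 2), tst f G T K x *
        ((lowpass χ (m + 6 * i + 6) (v m) x - lowpass χ (m + 6 * i) (v m) x) 0) := by
    rw [← mul_neg]
    apply mul_le_mul_of_nonneg_left _ hK0.le
    linarith
  have h2 : K * (2 * (ε / 1000) * (1 / 2 : ℝ) ^ (m + 6 * i) * IG) =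
      (16 / 125) * (ε * IG / lam) := by
    calc K * (2 * (ε / 1000) * (1 / 2 : ℝ) ^ (m + 6 * i) * IG) =
        (K * (1 / 2 : ℝ) ^ (m + 6 * i)) * (2 * (ε / 1000) * IG) := by ring
      _ = _ := by rw [hKp]; ring
  have h3 : ε * IG / (5 * lam) = (1 / 5) * (ε * IG / lam) := by
    field_simp
  rw [h2] at h1
  rw [h3] at hm
  have h4 : 0 < ε * IG / lam := by positivity
  linarith

/-- lower bound for the Besov norm -/
theorem besov_lower (hχ : IsCutoff χ) (hq : 0 < q) (h : Prof f g g1 g2) {T ε : ℝ} (hε : 0 < ε)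
    {C : ℝ} (hC0 : 0 ≤ C) {v : ℕ → E (d + 2) → E (d + 2)} (hv : ∀ m, Continuous (v m))
    (hper : ∀ m, IsPer (v m))
    (hC : ∀ m, (∫ x in Q (d + 2), rem f (rho g ε T) T ((2 ^ m : ℕ) : ℝ) (v m) x ^ 2) ≤
      C * (((2 ^ m : ℕ) : ℝ)⁻¹) ^ 4) (M : ℕ) (hy : ∀ i < M, ∃ y, T * g y = 64 ^ (i + 1)) :
    ∀ᶠ m : ℕ in atTop, (M : ℝ≥0∞) * ENNReal.ofReal (ε / 1000) ^ q ≤ besovNorm χ q (v m) ^ q := by
  have h1 : ∀ᶠ m : ℕ in atTop, ∀ i ∈ Finset.range M, ∃ k < 6, ∃ x, ε / 1000 ≤
      (2 : ℝ) ^ (((m + 6 * i + k + 1 : ℕ) : ℤ) - 1) * ‖block χ (m + 6 * i + k + 1) (v m) x‖ := by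
    rw [Filter.eventually_all_finset]
    intro i hi
    exact exists_block hχ h hε hC0 hv hper hC i (hy i (Finset.mem_range.1 hi))
  filter_upwards [h1] with m hm
  choose! k hk using hm
  have hinj : Set.InjOn (fun i => m + 6 * i + k i + 1) (Finset.range M : Set ℕ) := by
    intro i hi j hj hij
    simp only at hij
    have a1 := (hk i hi).1
    have a2 := (hk j hj).1
    omega
  have hcard : ((Finset.range M).image (fun i => m + 6 * i + k i + 1)).card = M := by
    rw [Finset.card_image_of_injOn hinj, Finset.card_range]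
  have h2 := le_besovNorm_of_card (χ := χ) (u := v m) hq
    ((Finset.range M).image (fun i => m + 6 * i + k i + 1)) (c := ε / 1000) ?_
  · rwa [hcard] at h2
  · intro j hj
    rw [Finset.mem_image] at hj
    obtain ⟨i, hi, rfl⟩ := hj
    exact (hk i hi).2

end Pool.Agent.Helper865.EulerBesov
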