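import Pool.Agent.Helper865.EulerBesov.Lower5
import Pool.Agent.Helper865.EulerBesov.FromSol2
import Pool.Agent.Helper865.EulerBesov.Data4

set_option autoImplicit false

open Set Filter Topology MeasureTheory Real
open scoped ContDiff ENNReal RealInnerProductSpace

namespace Pool.Agent.Helper865.EulerBesov

section restrict
variable {n : ℕ} {χ : E n → ℝ} {q : ℝ}

/-- restriction of a solution to a shorter time interval -/
lemma IsSolution.restrict {T t : ℝ} (htT : t ≤ T) {u₀ : E n → E n} {u : ℝ → E n → E n}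
    (h : IsSolution χ q T u₀ u) : IsSolution χ q t u₀ u where
  initial := h.initial
  mem := fun s hs => h.mem s ⟨hs.1, hs.2.trans htT⟩
  continuous := fun s hs => (h.continuous s ⟨hs.1, hs.2.trans htT⟩).mono_left
    (nhdsWithin_mono _ (Icc_subset_Icc_right htT))
  divFree := fun s hs => h.divFree s ⟨hs.1, hs.2.trans htT⟩
  momentum := by
    obtain ⟨p, h1, h2, h3⟩ := h.momentum
    refine ⟨p, h1.mono (prod_mono (Icc_subset_Icc_right htT) le_rfl), ?_, ?_⟩
    · intro ε hε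
      obtain ⟨R, hR⟩ := h2 ε hε
      exact ⟨R, fun s hs => hR s ⟨hs.1, hs.2.trans htT⟩⟩
    · exact fun s hs => h3 s ⟨hs.1, hs.2.trans htT⟩

/-- unique solutions with periodic data are periodic -/
lemma isPer_of_unique {T : ℝ} {v₀ : E n → E n} {u : ℝ → E n → E n}
    (h : IsSolution χ q T v₀ u)
    (huniq : ∀ v, IsSolution χ q T v₀ v → ∀ t ∈ Icc 0 T, v t = u t) (hper : IsPer v₀) :
    ∀ t ∈ Icc 0 T, IsPer (u t) := by
  intro t ht x i
  have h1 := h.translate (EuclideanSpace.single i (2 * π))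
  have h2 : (fun x => v₀ (x + EuclideanSpace.single i (2 * π))) = v₀ := funext fun x => hper x i
  rw [h2] at h1
  have h3 := huniq _ h1 t ht
  exact congrFun h3 x

end restrict

variable {d : ℕ} {χ : E (d + 2) → ℝ} {q : ℝ}

/-- comparison estimate for solutions with the model data -/
lemma rem_estimate (hχ : IsCutoff χ) (hq : 0 < q) (J : ℕ) (ε : ℝ) {T : ℝ} (hT : 0 < T) :
    ∃ C : ℝ, 0 ≤ C ∧ ∀ (m : ℕ) (u : ℝ → E (d + 2) → E (d + 2)),
      IsSolution χ q T (VJ d J ε m) u → (∀ t ∈ Icc 0 T, IsPer (u t)) →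
      (∫ x in Q (d + 2), rem (fN J) (rho (gN J) ε T) T ((2 ^ m : ℕ) : ℝ) (u T) x ^ 2) ≤
        C * (((2 ^ m : ℕ) : ℝ)⁻¹) ^ 4 := by
  obtain ⟨C, hC0, hC⟩ := (prof_fN J).compare (d := d) ε hT.le
  refine ⟨C, hC0, fun m u hu hper => ?_⟩
  obtain ⟨A, CH, p, hA, hCH, hsol⟩ := hu.exists_HSol hχ hq hT hper
  have h0 : (projIcc 0 T hT.le (0:ℝ) : ℝ) = 0 := by rw [projIcc_left]
  have h1 : (projIcc 0 T hT.le T : ℝ) = T := by rw [projIcc_right]
  have hinit : u (projIcc 0 T hT.le (0:ℝ)) = VJ d J ε m := by rw [h0]; exact hu.initial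
  have h2 := hC (2 ^ m) Nat.one_le_two_pow A CH hA hCH _ p hsol
    (fun x => by simp only [hinit]; exact VJ_zero J ε m x)
    (fun x => by simp only [hinit]; exact VJ_one J ε m x)
    (fun x i => by simp only [hinit]; exact VJ_ss J ε m x i)
  simp only [h1] at h2
  exact h2

lemma contDiff_VJ (J : ℕ) (ε : ℝ) (m : ℕ) : ContDiff ℝ ∞ (VJ d J ε m) := by
  unfold VJ
  have h1 : ContDiff ℝ ∞ (fun x : E (d + 2) => fN J (x 1)) := by
    unfold fN trig
    fun_prop
  have h2 : ContDiff ℝ ∞ (fun x : E (d + 2) => wv ε m (x 0)) := by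
    unfold wv trig
    fun_prop
  exact (h1.smul contDiff_const).add (h2.smul contDiff_const)

/-- there are smooth data arbitrarily close to the limit datum whose periodic solutions are
arbitrarily large at any prescribed time -/
theorem norm_inflation_per (hχ : IsCutoff χ) (hq : 1 < q) {t : ℝ} (ht0 : 0 < t)
    {δ R : ℝ≥0∞} (hδ : 0 < δ) (hR : R < ⊤) :
    ∃ v₀ : E (d + 2) → E (d + 2), ContDiff ℝ ∞ v₀ ∧ IsPer v₀ ∧ MemBesov χ q v₀ ∧ DivFree v₀ ∧
      besovNorm χ q (v₀ - UInf d) < δ ∧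
      ∀ u, IsSolution χ q t v₀ u → (∀ s ∈ Icc 0 t, IsPer (u s)) → R < besovNorm χ q (u t) := by
  have hq0 : 0 < q := by linarith
  -- smallness of the data
  set η : ℝ≥0∞ := δ ^ q / 2 with hη
  have hη0 : 0 < η := by
    rw [hη]
    exact ENNReal.div_pos (ENNReal.rpow_pos_of_nonneg hδ hq0.le).ne' (by norm_num)
  have hηη : η + η = δ ^ q := ENNReal.add_halves _
  have h2top : (2 : ℝ≥0∞) ^ (q - 1) ≠ ⊤ :=
    (ENNReal.rpow_lt_top_of_nonneg (by linarith) (by norm_num)).ne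
  obtain ⟨ε, hε0, hε⟩ : ∃ ε : ℝ, 0 < ε ∧
      (2 : ℝ≥0∞) ^ (q - 1) * (4 * ENNReal.ofReal (2 * ε) ^ q) < η := by
    have h1 : Tendsto (fun ε : ℝ => (2 : ℝ≥0∞) ^ (q - 1) * (4 * ENNReal.ofReal (2 * ε) ^ q))
        (𝓝[>] 0) (𝓝 0) := by
      have h2 : Continuous (fun ε : ℝ => (2 : ℝ≥0∞) ^ (q - 1) *
          (4 * ENNReal.ofReal (2 * ε) ^ q)) := by
        apply (ENNReal.continuous_const_mul h2top).comp
        apply (ENNReal.continuous_const_mul (by norm_num)).comp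
        exact ENNReal.continuous_rpow_const.comp
          (ENNReal.continuous_ofReal.comp (by fun_prop))
      have h3 := h2.tendsto 0
      simp only [mul_zero, ENNReal.ofReal_zero, ENNReal.zero_rpow_of_pos hq0] at h3
      exact h3.mono_left nhdsWithin_le_nhds
    have h4 := (h1.eventually (gt_mem_nhds hη0)).and self_mem_nhdsWithin
    obtain ⟨ε, h5, h6⟩ := h4.exists
    exact ⟨ε, h6, h5⟩
  -- number of frequencies
  have hc0 : ENNReal.ofReal (ε / 1000) ^ q ≠ 0 := by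
    have : 0 < ENNReal.ofReal (ε / 1000) := ENNReal.ofReal_pos.2 (by positivity)
    exact (ENNReal.rpow_pos_of_nonneg this hq0.le).ne'
  obtain ⟨M, hM⟩ : ∃ M : ℕ, R ^ q < (M : ℝ≥0∞) * ENNReal.ofReal (ε / 1000) ^ q := by
    have hRq : R ^ q < ⊤ := ENNReal.rpow_lt_top_of_nonneg hq0.le hR.ne
    have h1 : R ^ q / ENNReal.ofReal (ε / 1000) ^ q < ⊤ := ENNReal.div_lt_top hRq.ne hc0
    obtain ⟨M, hM⟩ := ENNReal.exists_nat_gt h1.ne
    refine ⟨M, ?_⟩
    rw [ENNReal.div_lt_iff (Or.inl hc0) (Or.inl (ENNReal.rpow_lt_top_of_nonneg hq0.le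
      ENNReal.ofReal_ne_top).ne)] at hM
    exact hM
  -- choice of the truncation
  obtain ⟨J, hJ1, hJ2⟩ : ∃ J : ℕ, (2 : ℝ≥0∞) ^ (q - 1) * tailSum q J < η ∧
      64 ^ M / t ≤ gN J 0 := by
    have h1 : Tendsto (fun J => (2 : ℝ≥0∞) ^ (q - 1) * tailSum q J) atTop (𝓝 0) := by
      have := ENNReal.Tendsto.const_mul (tendsto_tailSum hq) (Or.inr h2top)
        (a := (2 : ℝ≥0∞) ^ (q - 1))
      simpa using this
    have h2 := h1.eventually (gt_mem_nhds hη0)
    have h3 := tendsto_gN_zero.eventually_ge_atTop (64 ^ M / t)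
    exact (h2.and h3).exists
  have hy : ∀ i < M, ∃ y, t * gN J y = 64 ^ (i + 1) := by
    intro i hi
    have h1 : (64:ℝ) ^ (i + 1) ≤ 64 ^ M := pow_le_pow_right₀ (by norm_num) hi
    obtain ⟨y, hy⟩ := exists_gN_eq J (w := 64 ^ (i + 1) / t) (by positivity)
      (le_trans (by gcongr) hJ2)
    refine ⟨y, ?_⟩
    rw [hy]
    field_simp
  -- closeness
  have hclose : ∀ m, besovNorm χ q (VJ d J ε m - UInf d) < δ := by
    intro m
    rw [← ENNReal.rpow_lt_rpow_iff hq0]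
    calc besovNorm χ q (VJ d J ε m - UInf d) ^ q
        ≤ (2 : ℝ≥0∞) ^ (q - 1) * (4 * ENNReal.ofReal (2 * ε) ^ q + tailSum q J) :=
          besovNorm_VJ_sub hχ hq J hε0.le m
      _ = (2 : ℝ≥0∞) ^ (q - 1) * (4 * ENNReal.ofReal (2 * ε) ^ q)
          + (2 : ℝ≥0∞) ^ (q - 1) * tailSum q J := mul_add _ _ _
      _ < η + η := ENNReal.add_lt_add hε hJ1
      _ = δ ^ q := hηη
  have hmem : ∀ m, MemBesov χ q (VJ d J ε m) := fun m => memBesov_VJ hχ hq J hε0.le m
  have hdiv : ∀ m, DivFree (VJ d J ε m) := fun m => divFree_VJ J ε m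
  by_contra hcon
  push Not at hcon
  have hbad : ∀ m : ℕ, ∃ u, IsSolution χ q t (VJ d J ε m) u ∧ (∀ s ∈ Icc 0 t, IsPer (u s)) ∧
      besovNorm χ q (u t) ≤ R := fun m =>
    hcon _ (contDiff_VJ J ε m) (isPer_VJ J ε m) (hmem m) (hdiv m) (hclose m)
  choose u hsol hper hbound using hbad
  obtain ⟨C, hC0, hC⟩ := rem_estimate (d := d) hχ hq0 J ε ht0
  have hlow := besov_lower hχ hq0 (prof_fN J) (T := t) hε0 hC0
    (v := fun m => u m t)
    (fun m => ((hsol m).mem t ⟨ht0.le, le_rfl⟩).continuous)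
    (fun m => hper m t ⟨ht0.le, le_rfl⟩)
    (fun m => hC m _ (hsol m) (hper m)) M hy
  obtain ⟨m, hm⟩ := hlow.exists
  have h1 : besovNorm χ q (u m t) ^ q ≤ R ^ q := ENNReal.rpow_le_rpow (hbound m) hq0.le
  exact absurd (hm.trans h1) (not_le.2 hM)

/-- norm inflation for unique solutions -/
theorem norm_inflation (hχ : IsCutoff χ) (hq : 1 < q) {t : ℝ} (ht0 : 0 < t)
    {δ R : ℝ≥0∞} (hδ : 0 < δ) (hR : R < ⊤) :
    ∃ v₀ : E (d + 2) → E (d + 2), ContDiff ℝ ∞ v₀ ∧ MemBesov χ q v₀ ∧ DivFree v₀ ∧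
      besovNorm χ q (v₀ - UInf d) < δ ∧
      ∀ u, IsSolution χ q t v₀ u →
        (∀ v, IsSolution χ q t v₀ v → ∀ s ∈ Icc 0 t, v s = u s) →
          R < besovNorm χ q (u t) := by
  obtain ⟨v₀, h1, h2, h3, h4, h5, h6⟩ := norm_inflation_per (d := d) hχ hq ht0 hδ hR
  exact ⟨v₀, h1, h3, h4, h5, fun u hu huniq => h6 u hu (isPer_of_unique hu huniq h2)⟩

lemma besovNorm_self {n : ℕ} {χ : E n → ℝ} (hq : 0 < q) (u : E n → E n) :
    besovNorm χ q (u - u) = 0 := by
  rw [sub_self]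
  unfold besovNorm
  have h3 : ∀ j x, block χ j (0 : E n → E n) x = 0 := by
    intro j x
    cases j with
    | zero => simp [block, lowpass]
    | succ j => simp [block, lowpass]
  simp only [h3, enorm_zero, ENNReal.iSup_zero, mul_zero, ENNReal.zero_rpow_of_pos hq, tsum_zero]
  rw [ENNReal.zero_rpow_of_pos (by positivity)]

/-- ill-posedness -/
theorem not_locallyWellPosed (hχ : IsCutoff χ) (hq : 1 < q) : ¬ LocallyWellPosed χ q := by
  intro hwp
  obtain ⟨T, hT, δ, hδ, S, hS, hcont⟩ := hwp (UInf d) (memBesov_UInf hχ hq) divFree_UInf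
  obtain ⟨δ', hδ', hc⟩ := hcont 1 one_pos
  have hq0 : 0 < q := by linarith
  have hTm : T ∈ Icc 0 T := ⟨hT.le, le_rfl⟩
  have hself : besovNorm χ q (UInf d - UInf d) < δ := by
    rw [besovNorm_self hq0]
    exact hδ
  have hU := (hS _ (memBesov_UInf hχ hq) divFree_UInf hself).1
  have hmemU := hU.mem T hTm
  -- a bound for all solutions with data close to the limit datum
  set B : ℝ≥0∞ := (2 : ℝ≥0∞) ^ (q - 1) * (1 ^ q + besovNorm χ q (S (UInf d) T) ^ q) with hB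
  have hBtop : B < ⊤ := by
    apply ENNReal.mul_lt_top
    · exact ENNReal.rpow_lt_top_of_nonneg (by linarith) (by norm_num)
    · refine ENNReal.add_lt_top.2 ⟨by simp, ?_⟩
      exact ENNReal.rpow_lt_top_of_nonneg hq0.le hmemU.norm_lt_top.ne
  obtain ⟨v₀, _, hm, hd, hclose, hbig⟩ := norm_inflation (δ := min δ δ') hχ hq hT
    (lt_min hδ hδ') (R := B ^ (1 / q)) (ENNReal.rpow_lt_top_of_nonneg (by positivity) hBtop.ne)
  have hv := hS v₀ hm hd (hclose.trans_le (min_le_left _ _))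
  have hbig' := hbig _ hv.1 hv.2
  have hmemv := hv.1.mem T hTm
  have h1 := hc v₀ hm hd (hclose.trans_le (min_le_right _ _)) T hTm
  obtain ⟨A₁, hA₁⟩ := hmemv.bounded
  obtain ⟨A₂, hA₂⟩ := hmemU.bounded
  have h2 := besovNorm_add_rpow hχ hq.le (hmemv.continuous.sub hmemU.continuous)
    hmemU.continuous (A := A₁ + A₂)
    (fun x => (norm_sub_le _ _).trans (add_le_add (hA₁ x) (hA₂ x))) hA₂
  have h3 : S v₀ T - S (UInf d) T + S (UInf d) T = S v₀ T := sub_add_cancel _ _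
  rw [h3] at h2
  have h4 : besovNorm χ q (S v₀ T) ^ q ≤ B := by
    refine h2.trans ?_
    rw [hB]
    gcongr
  exact absurd (besovNorm_le_of_rpow_le hq0 h4) (not_le.2 hbig')

/-- cutoffs exist -/
theorem exists_isCutoff (n : ℕ) : ∃ χ : E n → ℝ, IsCutoff χ := by
  refine ⟨fun ξ => Real.smoothTransition ((4 - ‖ξ‖ ^ 2) / 3), ?_, ?_, ?_, ?_, ?_, ?_⟩
  · apply Real.smoothTransition.contDiff.comp
    have : ContDiff ℝ ∞ (fun ξ : E n => ‖ξ‖ ^ 2) := contDiff_norm_sq ℝ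
    fun_prop
  · intro ξ η h
    simp only [h]
  · intro ξ
    exact Real.smoothTransition.nonneg _
  · intro ξ
    exact Real.smoothTransition.le_one _
  · intro ξ h
    apply Real.smoothTransition.one_of_one_le
    have h1 : ‖ξ‖ ^ 2 ≤ 1 := pow_le_one₀ (norm_nonneg _) h
    linarith
  · intro ξ h
    apply Real.smoothTransition.zero_of_nonpos
    have h1 : (2:ℝ) ^ 2 ≤ ‖ξ‖ ^ 2 := pow_le_pow_left₀ (by norm_num) h 2
    linarith

end Pool.Agent.Helper865.EulerBesov
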