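import Pool.Agent.Helper865.EulerBesov.Torus

set_option autoImplicit false

open Set Filter Topology MeasureTheory Real
open scoped ContDiff ENNReal RealInnerProductSpace Convolution

namespace Pool.Agent.Helper865.EulerBesov

variable {n : ℕ}

/-- partial derivative -/
noncomputable def pd (j : Fin n) (f : E n → ℝ) (x : E n) : ℝ :=
  fderiv ℝ f x (EuclideanSpace.single j 1)

/-- a mollifier at scale `δ` -/
structure IsMoll (η : E n → ℝ) (δ C₁ : ℝ) : Prop where
  smooth : ContDiff ℝ ∞ η
  supp : ∀ y, δ < ‖y‖ → η y = 0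
  nonneg : ∀ y, 0 ≤ η y
  integral : ∫ y, η y = 1
  grad : ∫ y, ‖fderiv ℝ η y‖ ≤ C₁ / δ

lemma IsMoll.hasCompactSupport {η : E n → ℝ} {δ C₁ : ℝ} (h : IsMoll η δ C₁) :
    HasCompactSupport η := by
  apply HasCompactSupport.intro (isCompact_closedBall (0 : E n) δ)
  intro x hx
  apply h.supp
  simpa using hx

lemma exists_moll (n : ℕ) : ∃ C₁ : ℝ, 0 ≤ C₁ ∧ ∀ δ : ℝ, 0 < δ →
    ∃ η : E n → ℝ, IsMoll η δ C₁ := by
  let φ : ContDiffBump (0 : E n) := ⟨1 / 2, 1, by norm_num, by norm_num⟩
  set η₁ : E n → ℝ := φ.normed volume with hη₁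
  have hsm : ContDiff ℝ ∞ η₁ := φ.contDiff_normed
  refine ⟨∫ y, ‖fderiv ℝ η₁ y‖, integral_nonneg fun _ => norm_nonneg _, ?_⟩
  intro δ hδ
  have hfin : Module.finrank ℝ (E n) = n := by simp
  refine ⟨fun y => (δ⁻¹) ^ n * η₁ (δ⁻¹ • y), ?_, ?_, ?_, ?_, ?_⟩
  · exact contDiff_const.mul (hsm.comp (contDiff_const_smul _))
  · intro y hy
    have : η₁ (δ⁻¹ • y) = 0 := by
      have hsup : Function.support η₁ = Metric.ball (0 : E n) 1 := φ.support_normed_eq
      by_contra hne
      have : δ⁻¹ • y ∈ Function.support η₁ := hne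
      rw [hsup] at this
      simp only [Metric.mem_ball, dist_zero_right, norm_smul, norm_inv, norm_eq_abs,
        abs_of_pos hδ] at this
      rw [inv_mul_lt_iff₀ hδ] at this
      linarith
    rw [this, mul_zero]
  · intro y
    have := φ.nonneg_normed (μ := volume) (δ⁻¹ • y)
    positivity
  · rw [integral_const_mul]
    have h := Measure.integral_comp_smul (volume : Measure (E n)) η₁ δ⁻¹
    rw [h, hfin, φ.integral_normed]
    have : 0 < (δ⁻¹) ^ n := by positivity
    rw [abs_of_pos (by positivity), smul_eq_mul, mul_one]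
    field_simp
  · have hd : ∀ y, fderiv ℝ (fun y => (δ⁻¹) ^ n * η₁ (δ⁻¹ • y)) y =
        ((δ⁻¹) ^ n * δ⁻¹) • fderiv ℝ η₁ (δ⁻¹ • y) := by
      intro y
      have h1 : HasFDerivAt η₁ (fderiv ℝ η₁ (δ⁻¹ • y)) (δ⁻¹ • y) :=
        (hsm.differentiable (by simp) _).hasFDerivAt
      have h2 : HasFDerivAt (fun y : E n => δ⁻¹ • y) (δ⁻¹ • ContinuousLinearMap.id ℝ (E n)) y :=
        (hasFDerivAt_id y).const_smul δ⁻¹
      have h3 := (h1.comp y h2).const_mul ((δ⁻¹) ^ n)
      have h4 := h3.fderiv
      have h5 : (fun y => (δ⁻¹) ^ n * (η₁ ∘ fun y : E n => δ⁻¹ • y) y) =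
          (fun y => (δ⁻¹) ^ n * η₁ (δ⁻¹ • y)) := rfl
      rw [h5] at h4
      rw [h4]
      ext v
      simp
      ring
    simp_rw [hd, norm_smul]
    rw [integral_const_mul]
    have h := Measure.integral_comp_smul (volume : Measure (E n)) (fun y => ‖fderiv ℝ η₁ y‖) δ⁻¹
    rw [h, hfin]
    have : 0 < (δ⁻¹) ^ n := by positivity
    rw [abs_of_pos (by positivity), smul_eq_mul, norm_eq_abs, abs_of_pos (by positivity)]
    apply le_of_eq
    field_simp

/-- mollification -/
noncomputable def mol (η : E n → ℝ) (f : E n → ℝ) (x : E n) : ℝ := ∫ y, η (x - y) * f y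

lemma mol_eq_conv (η f : E n → ℝ) :
    mol η f = η ⋆[ContinuousLinearMap.lsmul ℝ ℝ, volume] f := by
  ext x
  rw [convolution_eq_swap]
  rfl

lemma mol_eq' (η f : E n → ℝ) (x : E n) : mol η f x = ∫ y, η y * f (x - y) := by
  rw [mol_eq_conv]
  rfl

variable {η : E n → ℝ} {δ C₁ : ℝ}

lemma IsMoll.contDiff_mol (h : IsMoll η δ C₁) {f : E n → ℝ} (hf : Continuous f) :
    ContDiff ℝ ∞ (mol η f) := by
  rw [mol_eq_conv]
  exact h.hasCompactSupport.contDiff_convolution_left _ h.smooth hf.locallyIntegrable

lemma IsMoll.integrable_mul (h : IsMoll η δ C₁) {f : E n → ℝ} (hf : Continuous f) (x : E n) :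
    Integrable (fun y => η (x - y) * f y) := by
  have hc : Continuous (fun y => η (x - y) * f y) :=
    (h.smooth.continuous.comp (by fun_prop)).mul hf
  apply hc.integrable_of_hasCompactSupport
  have h1 : HasCompactSupport (fun y => η (x - y)) :=
    h.hasCompactSupport.comp_homeomorph (Homeomorph.subLeft x)
  exact h1.mul_right

lemma IsMoll.hasFDerivAt_mol (h : IsMoll η δ C₁) {f : E n → ℝ} (hf : Continuous f) (x : E n) :
    HasFDerivAt (mol η f) (∫ y, f y • fderiv ℝ η (x - y)) x := by
  have h1 := h.hasCompactSupport.hasFDerivAt_convolution_left (ContinuousLinearMap.lsmul ℝ ℝ)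
    (h.smooth.of_le (by exact_mod_cast le_top)) hf.locallyIntegrable (μ := volume) x
  rw [← mol_eq_conv] at h1
  refine h1.congr_fderiv ?_
  rw [convolution_eq_swap]
  congr 1
  ext y v
  simp [mul_comm]

lemma IsMoll.continuous_fderiv (h : IsMoll η δ C₁) : Continuous (fderiv ℝ η) :=
  h.smooth.continuous_fderiv (by simp)

lemma IsMoll.integrable_smul_fderiv (h : IsMoll η δ C₁) {f : E n → ℝ} (hf : Continuous f)
    (x : E n) : Integrable (fun y => f y • fderiv ℝ η (x - y)) := by
  have hc : Continuous (fun y => f y • fderiv ℝ η (x - y)) :=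
    hf.smul (h.continuous_fderiv.comp (by fun_prop))
  apply hc.integrable_of_hasCompactSupport
  have h1 : HasCompactSupport (fun y => fderiv ℝ η (x - y)) :=
    (h.hasCompactSupport.fderiv ℝ).comp_homeomorph (Homeomorph.subLeft x)
  refine h1.mono fun y hy => ?_
  simp only [Function.mem_support] at hy ⊢
  intro h0
  exact hy (by rw [h0, smul_zero])

lemma IsMoll.pd_mol (h : IsMoll η δ C₁) {f : E n → ℝ} (hf : Continuous f) (j : Fin n) (x : E n) :
    pd j (mol η f) x = ∫ y, f y * pd j η (x - y) := by
  unfold pd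
  rw [(h.hasFDerivAt_mol hf x).fderiv,
    ContinuousLinearMap.integral_apply (h.integrable_smul_fderiv hf x)]
  rfl

lemma IsMoll.integrable_pd (h : IsMoll η δ C₁) {f : E n → ℝ} (hf : Continuous f) (j : Fin n)
    (x : E n) : Integrable (fun y => f y * pd j η (x - y)) := by
  have := (h.integrable_smul_fderiv hf x).apply_continuousLinearMap (EuclideanSpace.single j 1)
  exact this

lemma IsMoll.abs_pd_mol_le (h : IsMoll η δ C₁) {f : E n → ℝ} (hf : Continuous f) {A : ℝ}
    (hA : ∀ x, |f x| ≤ A) (j : Fin n) (x : E n) : |pd j (mol η f) x| ≤ A * (C₁ / δ) := by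
  have hA0 : 0 ≤ A := (abs_nonneg _).trans (hA 0)
  rw [h.pd_mol hf]
  have hint : Integrable (fun y => ‖fderiv ℝ η y‖) :=
    (h.continuous_fderiv.norm).integrable_of_hasCompactSupport (h.hasCompactSupport.fderiv ℝ).norm
  calc |∫ y, f y * pd j η (x - y)| ≤ ∫ y, |f y * pd j η (x - y)| := by
        simpa using norm_integral_le_integral_norm (fun y => f y * pd j η (x - y))
    _ ≤ ∫ y, A * ‖fderiv ℝ η (x - y)‖ := by
        apply integral_mono_of_nonneg (Filter.Eventually.of_forall fun y => abs_nonneg _)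
        · exact (hint.comp_sub_left x).const_mul _
        · refine Filter.Eventually.of_forall fun y => ?_
          simp only [abs_mul]
          apply mul_le_mul (hA y) _ (abs_nonneg _) hA0
          unfold pd
          have := (fderiv ℝ η (x - y)).le_opNorm (EuclideanSpace.single j 1)
          simpa using this
    _ = A * ∫ y, ‖fderiv ℝ η y‖ := by
        rw [integral_const_mul, integral_sub_left_eq_self (fun y => ‖fderiv ℝ η y‖) volume x]
    _ ≤ A * (C₁ / δ) := mul_le_mul_of_nonneg_left h.grad hA0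

lemma IsMoll.integral_sub_left (h : IsMoll η δ C₁) (x : E n) : ∫ y, η (x - y) = 1 := by
  rw [integral_sub_left_eq_self η volume x, h.integral]

/-- averages against a mollifier -/
lemma IsMoll.abs_mol_sub_le (h : IsMoll η δ C₁) {f : E n → ℝ} (hf : Continuous f) {B c : ℝ}
    (x : E n) (hB : ∀ y, ‖x - y‖ ≤ δ → |f y - c| ≤ B) : |mol η f x - c| ≤ B := by
  have hint1 := h.integrable_mul (continuous_const (y := (1:ℝ))) x
  simp only [mul_one] at hint1
  have h1 : mol η f x - c = ∫ y, η (x - y) * (f y - c) := by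
    unfold mol
    have h2 : ∀ y, η (x - y) * (f y - c) = η (x - y) * f y - η (x - y) * c := fun y => by ring
    simp_rw [h2]
    rw [integral_sub (h.integrable_mul hf x) (hint1.mul_const c), integral_mul_const,
      h.integral_sub_left, one_mul]
  rw [h1]
  calc |∫ y, η (x - y) * (f y - c)| ≤ ∫ y, |η (x - y) * (f y - c)| := by
        simpa using norm_integral_le_integral_norm (fun y => η (x - y) * (f y - c))
    _ ≤ ∫ y, η (x - y) * B := by
        apply integral_mono_of_nonneg (Filter.Eventually.of_forall fun y => abs_nonneg _)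
        · exact hint1.mul_const _
        · refine Filter.Eventually.of_forall fun y => ?_
          simp only [abs_mul, abs_of_nonneg (h.nonneg _)]
          by_cases hy : ‖x - y‖ ≤ δ
          · exact mul_le_mul_of_nonneg_left (hB y hy) (h.nonneg _)
          · push Not at hy
            rw [h.supp _ hy, zero_mul, zero_mul]
    _ = B := by rw [integral_mul_const, h.integral_sub_left, one_mul]

/-- commutator (covariance) estimate -/
lemma IsMoll.abs_cov_le (h : IsMoll η δ C₁) {f g : E n → ℝ} (hf : Continuous f)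
    (hg : Continuous g) {B : ℝ} (x : E n)
    (hB : ∀ y, ‖x - y‖ ≤ δ → |f y - f x| ≤ B ∧ |g y - g x| ≤ B) :
    |mol η (fun y => f y * g y) x - mol η f x * mol η g x| ≤ 4 * B ^ 2 := by
  by_cases hδ : 0 ≤ δ
  swap
  · -- then η = 0 everywhere, impossible
    exfalso
    push Not at hδ
    have h0 : ∀ y, η y = 0 := fun y => h.supp y (hδ.trans_le (norm_nonneg y))
    have := h.integral
    simp [h0] at this
  have hB0 : 0 ≤ B := (abs_nonneg _).trans (hB x (by simpa using hδ)).1
  have hf1 := h.abs_mol_sub_le hf x fun y hy => (hB y hy).1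
  have hg1 := h.abs_mol_sub_le hg x fun y hy => (hB y hy).2
  set a := mol η f x with ha
  set b := mol η g x with hb
  -- cov = ∫ η (f - a)(g - b)
  have hint1 := h.integrable_mul (continuous_const (y := (1:ℝ))) x
  simp only [mul_one] at hint1
  have h1 : mol η (fun y => f y * g y) x - a * b = mol η (fun y => (f y - a) * (g y - b)) x := by
    have e : ∀ y, η (x - y) * ((f y - a) * (g y - b)) =
        η (x - y) * (f y * g y) - (η (x - y) * g y) * a - (η (x - y) * f y) * b
          + η (x - y) * (a * b) := fun y => by ring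
    have i1 := h.integrable_mul (by fun_prop : Continuous fun y => f y * g y) x
    have i2 := (h.integrable_mul hg x).mul_const a
    have i3 := (h.integrable_mul hf x).mul_const b
    have i4 := hint1.mul_const (a * b)
    have e2 : mol η (fun y => (f y - a) * (g y - b)) x =
        mol η (fun y => f y * g y) x - b * a - a * b + a * b := by
      unfold mol
      simp_rw [e]
      have e3 := integral_add ((i1.sub i2).sub i3) i4
      have e4 := integral_sub (i1.sub i2) i3
      have e5 := integral_sub i1 i2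
      simp only [Pi.sub_apply] at e3 e4 e5
      rw [e3, e4, e5, integral_mul_const, integral_mul_const, integral_mul_const,
        h.integral_sub_left, one_mul]
      rw [ha, hb]
      rfl
    rw [e2]; ring
  rw [h1]
  have hc : Continuous (fun y => (f y - a) * (g y - b)) := by fun_prop
  have := h.abs_mol_sub_le (c := 0) (B := 4 * B ^ 2) hc x (fun y hy => by
    rw [sub_zero, abs_mul]
    obtain ⟨h2, h3⟩ := hB y hy
    have h4 : |f y - a| ≤ 2 * B := by
      calc |f y - a| = |(f y - f x) - (a - f x)| := by congr 1; ring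
        _ ≤ |f y - f x| + |a - f x| := abs_sub _ _
        _ ≤ 2 * B := by linarith
    have h5 : |g y - b| ≤ 2 * B := by
      calc |g y - b| = |(g y - g x) - (b - g x)| := by congr 1; ring
        _ ≤ |g y - g x| + |b - g x| := abs_sub _ _
        _ ≤ 2 * B := by linarith
    calc |f y - a| * |g y - b| ≤ (2 * B) * (2 * B) :=
          mul_le_mul h4 h5 (abs_nonneg _) (by linarith)
      _ = 4 * B ^ 2 := by ring)
  simpa using this

lemma isPer_mol {f : E n → ℝ} (hf : IsPer f) : IsPer (mol η f) := by
  intro x i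
  rw [mol_eq', mol_eq']
  congr 1
  ext y
  rw [show x + EuclideanSpace.single i (2 * π) - y = (x - y) + EuclideanSpace.single i (2 * π)
    by abel, hf]

end Pool.Agent.Helper865.EulerBesov
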