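import Pool.Agent.Helper865.EulerBesov.Energy

set_option autoImplicit false

open Set Filter Topology MeasureTheory Real
open scoped ContDiff ENNReal RealInnerProductSpace Convolution

namespace Pool.Agent.Helper865.EulerBesov

variable {n : ℕ} {η : E n → ℝ} {δ C₁ : ℝ}

/-- joint continuity of convolutions with a continuous compactly supported kernel -/
lemma continuous_conv {k : E n → ℝ} (hk : Continuous k) {δ : ℝ} (hs : ∀ y, δ < ‖y‖ → k y = 0)
    {g : ℝ × E n → ℝ} (hg : Continuous g) :
    Continuous (fun z : ℝ × E n => ∫ y, g (z.1, y) * k (z.2 - y)) := by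
  have h1 : ∀ z : ℝ × E n, (∫ y, g (z.1, y) * k (z.2 - y)) =
      ∫ y in Metric.closedBall (0 : E n) δ, g (z.1, z.2 - y) * k y := by
    intro z
    rw [← integral_sub_left_eq_self (fun y => g (z.1, y) * k (z.2 - y)) volume z.2]
    rw [setIntegral_eq_integral_of_forall_compl_eq_zero]
    · congr 1
      ext y
      simp
    · intro y hy
      rw [hs y (by simpa using hy), mul_zero]
  simp_rw [h1]
  apply continuous_parametric_integral_of_continuous
  · have : Continuous (fun w : (ℝ × E n) × E n => g (w.1.1, w.1.2 - w.2) * k w.2) := by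
      fun_prop
    exact this
  · exact isCompact_closedBall _ _

lemma IsMoll.pd_supp (h : IsMoll η δ C₁) (j : Fin n) (y : E n) (hy : δ < ‖y‖) :
    pd j η y = 0 := by
  unfold pd
  have : y ∉ tsupport η := by
    have hsub : tsupport η ⊆ Metric.closedBall 0 δ := by
      apply closure_minimal _ Metric.isClosed_closedBall
      intro z hz
      simp only [Metric.mem_closedBall, dist_zero_right]
      by_contra hcon
      push Not at hcon
      exact hz (h.supp z hcon)
    intro hmem
    have := hsub hmem
    simp only [Metric.mem_closedBall, dist_zero_right] at this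
    linarith
  have h0 : fderiv ℝ η y = 0 := by
    have := support_fderiv_subset ℝ (f := η)
    by_contra hne
    exact ‹y ∉ tsupport η› (this hne)
  rw [h0]
  rfl

lemma IsMoll.continuous_pd (h : IsMoll η δ C₁) (j : Fin n) : Continuous (pd j η) :=
  (h.continuous_fderiv).clm_apply continuous_const

lemma IsMoll.continuous_mol (h : IsMoll η δ C₁) {g : ℝ × E n → ℝ} (hg : Continuous g) :
    Continuous (fun z : ℝ × E n => mol η (fun y => g (z.1, y)) z.2) := by
  have := continuous_conv h.smooth.continuous h.supp hg
  refine this.congr fun z => ?_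
  unfold mol
  congr 1
  ext y
  ring

lemma IsMoll.continuous_pd_mol (h : IsMoll η δ C₁) {g : ℝ × E n → ℝ} (hg : Continuous g)
    (j : Fin n) : Continuous (fun z : ℝ × E n => pd j (mol η (fun y => g (z.1, y))) z.2) := by
  have := continuous_conv (h.continuous_pd j) (h.pd_supp j) hg
  refine this.congr fun z => ?_
  rw [h.pd_mol (by fun_prop : Continuous fun y => g (z.1, y))]

/-- the linear expansion of a derivative in coordinates -/
lemma fderiv_eq_sum_pd (f : E n → ℝ) (x w : E n) : fderiv ℝ f x w = ∑ j, w j * pd j f x := by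
  have hw : w = ∑ j, w j • EuclideanSpace.single j (1:ℝ) := by
    ext i
    simp [Finset.sum_apply, Pi.single_apply]
  conv_lhs => rw [hw]
  rw [map_sum]
  simp only [map_smul, smul_eq_mul]
  rfl

lemma IsMoll.hasFDerivAt_sub (h : IsMoll η δ C₁) (x y : E n) :
    HasFDerivAt (fun y => η (x - y)) (-(fderiv ℝ η (x - y))) y := by
  have h1 : HasFDerivAt η (fderiv ℝ η (x - y)) (x - y) :=
    (h.smooth.differentiable (by simp) _).hasFDerivAt
  have h2 : HasFDerivAt (fun y : E n => x - y) (-(ContinuousLinearMap.id ℝ (E n))) y :=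
    (hasFDerivAt_id y).const_sub x
  have := h1.comp y h2
  refine this.congr_fderiv ?_
  ext v
  simp

/-- mollified fields of divergence-free fields are divergence free -/
lemma IsMoll.div_mol (h : IsMoll η δ C₁) {w : E n → E n} (hw : Continuous w) (hd : DivFree w)
    (x : E n) : ∑ j, pd j (mol η (fun y => w y j)) x = 0 := by
  have hcj : ∀ j, Continuous (fun y => w y j) := fun j => by fun_prop
  have h1 := hd (fun y => η (x - y)) (h.smooth.comp (by fun_prop))
    (h.hasCompactSupport.comp_homeomorph (Homeomorph.subLeft x))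
  have h2 : ∀ y, fderiv ℝ (fun y => η (x - y)) y (w y) = -∑ j, w y j * pd j η (x - y) := by
    intro y
    rw [(h.hasFDerivAt_sub x y).fderiv, _root_.neg_apply, fderiv_eq_sum_pd]
  simp_rw [h2] at h1
  rw [integral_neg, neg_eq_zero, integral_finsetSum] at h1
  · rw [← h1]
    apply Finset.sum_congr rfl
    intro j _
    rw [h.pd_mol (hcj j)]
  · intro j _
    exact h.integrable_pd (hcj j) j x

/-- The mollified momentum equation. -/
lemma IsMoll.momentum (h : IsMoll η δ C₁) {v : ℝ → E n → E n} {p : ℝ → E n → ℝ}
    (hv : Continuous (fun z : ℝ × E n => v z.1 z.2)) (hp : Continuous (fun z : ℝ × E n => p z.1 z.2))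
    {t : ℝ} (hmom : ∀ φ : E n → E n, ContDiff ℝ ∞ φ → HasCompactSupport φ →
      (∫ x, ⟪v t x - v 0 x, φ x⟫) =
        ∫ s in (0 : ℝ)..t, ∫ x, (⟪v s x, fderiv ℝ φ x (v s x)⟫ + p s x * divergence φ x))
    (i : Fin n) (x : E n) :
    mol η (fun y => v t y i) x - mol η (fun y => v 0 y i) x =
      ∫ s in (0 : ℝ)..t, (-(∑ j, pd j (mol η (fun y => v s y i * v s y j)) x)
        - pd i (mol η (p s)) x) := by
  have hvs : ∀ s, Continuous (v s) := fun s => hv.comp (by fun_prop : Continuous fun y => (s, y))
  have hps : ∀ s, Continuous (p s) := fun s => hp.comp (by fun_prop : Continuous fun y => (s, y))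
  have hvi : ∀ s j, Continuous (fun y => v s y j) := fun s j => by
    have := hvs s
    fun_prop
  set φ : E n → E n := fun y => η (x - y) • EuclideanSpace.single i (1:ℝ) with hφ
  have hφ1 : ContDiff ℝ ∞ φ := (h.smooth.comp (by fun_prop)).smul contDiff_const
  have hφ2 : HasCompactSupport φ := by
    have h1 : HasCompactSupport (fun y => η (x - y)) :=
      h.hasCompactSupport.comp_homeomorph (Homeomorph.subLeft x)
    refine h1.mono fun y hy => ?_
    simp only [hφ, Function.mem_support] at hy ⊢
    intro h0
    exact hy (by rw [h0, zero_smul])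
  have hφd : ∀ y w, fderiv ℝ φ y w = (-∑ j, w j * pd j η (x - y)) • EuclideanSpace.single i (1:ℝ) := by
    intro y w
    have := (h.hasFDerivAt_sub x y).smul_const (EuclideanSpace.single i (1:ℝ))
    rw [this.fderiv]
    simp only [ContinuousLinearMap.smulRight_apply, _root_.neg_apply]
    rw [fderiv_eq_sum_pd]
  have hm := hmom φ hφ1 hφ2
  have hinner : ∀ a : E n, ⟪a, EuclideanSpace.single i (1:ℝ)⟫ = a i := by
    intro a
    rw [EuclideanSpace.inner_single_right]
    simp
  -- left side
  have hL : (∫ y, ⟪v t y - v 0 y, φ y⟫) =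
      mol η (fun y => v t y i) x - mol η (fun y => v 0 y i) x := by
    unfold mol
    rw [← integral_sub (h.integrable_mul (hvi t i) x) (h.integrable_mul (hvi 0 i) x)]
    congr 1
    ext y
    rw [hφ]
    simp only
    rw [inner_smul_right, hinner]
    simp
    ring
  rw [← hL, hm]
  -- right side
  congr 1
  ext s
  have hdiv : ∀ y, divergence φ y = -pd i η (x - y) := by
    intro y
    unfold divergence
    simp_rw [hφd]
    rw [Finset.sum_eq_single i]
    · simp
    · intro j _ hj
      simp [hj]
    · simp
  have hpt : ∀ y, ⟪v s y, fderiv ℝ φ y (v s y)⟫ + p s y * divergence φ y =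
      -(∑ j, (v s y i * v s y j) * pd j η (x - y)) - p s y * pd i η (x - y) := by
    intro y
    rw [hφd, inner_smul_right, hinner, hdiv]
    have : ∑ j, v s y i * v s y j * pd j η (x - y) = v s y i * ∑ j, v s y j * pd j η (x - y) := by
      rw [Finset.mul_sum]
      apply Finset.sum_congr rfl
      intro j _
      ring
    rw [this]
    ring
  simp_rw [hpt]
  have hprod : ∀ j, Continuous (fun y => v s y i * v s y j) := fun j => (hvi s i).mul (hvi s j)
  rw [integral_sub, integral_neg, integral_finsetSum]
  · congr 1
    · congr 1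
      apply Finset.sum_congr rfl
      intro j _
      rw [h.pd_mol (hprod j)]
    · rw [h.pd_mol (hps s)]
  · intro j _
    exact h.integrable_pd (hprod j) j x
  · apply Integrable.neg
    apply integrable_finsetSum
    intro j _
    exact h.integrable_pd (hprod j) j x
  · exact h.integrable_pd (hps s) i x

end Pool.Agent.Helper865.EulerBesov
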