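import Pool.Agent.Helper865.EulerBesov.Stab2

set_option autoImplicit false

open Set Filter Topology MeasureTheory Real
open scoped ContDiff ENNReal RealInnerProductSpace

namespace Pool.Agent.Helper865.EulerBesov

/-- the factor `1/(1+t²g²)` -/
noncomputable def In (g : ℝ → ℝ) (t y : ℝ) : ℝ := (1 + t ^ 2 * g y ^ 2)⁻¹

lemma In_den_pos (g : ℝ → ℝ) (t y : ℝ) : 0 < 1 + t ^ 2 * g y ^ 2 := by positivity

lemma In_mul (g : ℝ → ℝ) (t y : ℝ) : In g t y * (1 + t ^ 2 * g y ^ 2) = 1 :=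
  inv_mul_cancel₀ (In_den_pos g t y).ne'

lemma In_deriv_y {g g1 : ℝ → ℝ} (hg : ∀ y, HasDerivAt g (g1 y) y) (t y : ℝ) :
    HasDerivAt (fun y => In g t y) (-(2 * t ^ 2 * g y * g1 y) * In g t y ^ 2) y := by
  have h1 : HasDerivAt (fun y => 1 + t ^ 2 * g y ^ 2) (t ^ 2 * (2 * g y * g1 y)) y := by
    have := (((hg y).pow 2).const_mul (t ^ 2)).const_add 1
    refine this.congr_deriv ?_
    push_cast
    ring
  have h2 := h1.inv (In_den_pos g t y).ne'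
  refine h2.congr_deriv ?_
  unfold In
  field_simp

lemma In_deriv_t (g : ℝ → ℝ) (t y : ℝ) :
    HasDerivAt (fun t => In g t y) (-(2 * t * g y ^ 2) * In g t y ^ 2) t := by
  have h1 : HasDerivAt (fun t : ℝ => 1 + t ^ 2 * g y ^ 2) (2 * t * g y ^ 2) t := by
    have := (((hasDerivAt_id t).pow 2).mul_const (g y ^ 2)).const_add 1
    refine this.congr_deriv ?_
    push_cast
    simp
  have h2 := h1.inv (In_den_pos g t y).ne'
  refine h2.congr_deriv ?_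
  unfold In
  field_simp

lemma In_continuous {g : ℝ → ℝ} (hg : Continuous g) :
    Continuous (fun z : ℝ × ℝ => In g z.1 z.2) := by
  unfold In
  exact Continuous.inv₀ (by fun_prop) fun z => (In_den_pos g z.1 z.2).ne'

lemma In_contDiff {g : ℝ → ℝ} (hg : ContDiff ℝ 1 g) (t : ℝ) :
    ContDiff ℝ 1 (fun y => In g t y) := by
  unfold In
  exact ContDiff.inv (by fun_prop) fun y => (In_den_pos g t y).ne'

/-- first velocity component of the approximate solution -/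
noncomputable def U1 (f g g1 : ℝ → ℝ) (ε K t X Y : ℝ) : ℝ :=
  f Y + K⁻¹ ^ 2 * (2 * ε * t ^ 2 * g Y * g1 Y * In g t Y ^ 2) * cos (K * (X - t * f Y))
    + K⁻¹ * (-ε * In g t Y) * t * g Y * sin (K * (X - t * f Y))

/-- second velocity component of the approximate solution -/
noncomputable def U2 (f g : ℝ → ℝ) (ε K t X Y : ℝ) : ℝ :=
  K⁻¹ * (-ε * In g t Y) * sin (K * (X - t * f Y))

/-- pressure of the approximate solution -/
noncomputable def P0 (f g : ℝ → ℝ) (ε K t X Y : ℝ) : ℝ :=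
  K⁻¹ ^ 2 * (-2 * ε * g Y * In g t Y ^ 2) * cos (K * (X - t * f Y))

/-- derivatives -/
noncomputable def U1X (f g g1 : ℝ → ℝ) (ε K t X Y : ℝ) : ℝ :=
  -(K⁻¹ * (2 * ε * t ^ 2 * g Y * g1 Y * In g t Y ^ 2)) * sin (K * (X - t * f Y))
    + (-ε * In g t Y) * t * g Y * cos (K * (X - t * f Y))

noncomputable def U2X (f g : ℝ → ℝ) (ε K t X Y : ℝ) : ℝ :=
  (-ε * In g t Y) * cos (K * (X - t * f Y))

noncomputable def P0X (f g : ℝ → ℝ) (ε K t X Y : ℝ) : ℝ :=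
  -(K⁻¹ * (-2 * ε * g Y * In g t Y ^ 2)) * sin (K * (X - t * f Y))

noncomputable def U1Y (f g g1 g2 : ℝ → ℝ) (ε K t X Y : ℝ) : ℝ :=
  g Y + K⁻¹ ^ 2 * (2 * ε * t ^ 2 * (g1 Y ^ 2 + g Y * g2 Y) * In g t Y ^ 2
      - 8 * ε * t ^ 4 * g Y ^ 2 * g1 Y ^ 2 * In g t Y ^ 3) * cos (K * (X - t * f Y))
    + K⁻¹ * (2 * ε * t ^ 2 * g Y * g1 Y * In g t Y ^ 2) * t * g Y * sin (K * (X - t * f Y))
    + K⁻¹ * ((2 * ε * t ^ 2 * g Y * g1 Y * In g t Y ^ 2) * t * g Y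
      + (-ε * In g t Y) * t * g1 Y) * sin (K * (X - t * f Y))
    - (-ε * In g t Y) * (t * g Y) ^ 2 * cos (K * (X - t * f Y))

noncomputable def U2Y (f g g1 : ℝ → ℝ) (ε K t X Y : ℝ) : ℝ :=
  K⁻¹ * (2 * ε * t ^ 2 * g Y * g1 Y * In g t Y ^ 2) * sin (K * (X - t * f Y))
    - (-ε * In g t Y) * t * g Y * cos (K * (X - t * f Y))

noncomputable def P0Y (f g g1 : ℝ → ℝ) (ε K t X Y : ℝ) : ℝ :=
  K⁻¹ ^ 2 * (-2 * ε * g1 Y * In g t Y ^ 2 + 8 * ε * t ^ 2 * g Y ^ 2 * g1 Y * In g t Y ^ 3)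
      * cos (K * (X - t * f Y))
    + K⁻¹ * (-2 * ε * g Y * In g t Y ^ 2) * t * g Y * sin (K * (X - t * f Y))

noncomputable def U1t (f g g1 : ℝ → ℝ) (ε K t X Y : ℝ) : ℝ :=
  K⁻¹ ^ 2 * (4 * ε * t * g Y * g1 Y * In g t Y ^ 2
      - 8 * ε * t ^ 3 * g Y ^ 3 * g1 Y * In g t Y ^ 3) * cos (K * (X - t * f Y))
    + K⁻¹ * (2 * ε * t ^ 2 * g Y * g1 Y * In g t Y ^ 2) * f Y * sin (K * (X - t * f Y))
    + K⁻¹ * ((2 * ε * t * g Y ^ 2 * In g t Y ^ 2) * t + (-ε * In g t Y)) * g Y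
      * sin (K * (X - t * f Y))
    - (-ε * In g t Y) * t * g Y * f Y * cos (K * (X - t * f Y))

noncomputable def U2t (f g : ℝ → ℝ) (ε K t X Y : ℝ) : ℝ :=
  K⁻¹ * (2 * ε * t * g Y ^ 2 * In g t Y ^ 2) * sin (K * (X - t * f Y))
    - (-ε * In g t Y) * f Y * cos (K * (X - t * f Y))

section deriv
variable {f g g1 g2 : ℝ → ℝ} {K : ℝ} (ε : ℝ)

lemma theta_X (f : ℝ → ℝ) (K t X Y : ℝ) :
    HasDerivAt (fun X => K * (X - t * f Y)) K X := by
  simpa using ((hasDerivAt_id X).sub_const (t * f Y)).const_mul K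

lemma theta_Y (hf : ∀ y, HasDerivAt f (g y) y) (K t X Y : ℝ) :
    HasDerivAt (fun Y => K * (X - t * f Y)) (-(K * t * g Y)) Y := by
  have := (((hf Y).const_mul t).const_sub X).const_mul K
  exact this.congr_deriv (by ring)

lemma theta_t (f : ℝ → ℝ) (K t X Y : ℝ) :
    HasDerivAt (fun t => K * (X - t * f Y)) (-(K * f Y)) t := by
  have := ((((hasDerivAt_id t)).mul_const (f Y)).const_sub X).const_mul K
  exact this.congr_deriv (by ring)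

lemma hU2X (hK : K ≠ 0) (t X Y : ℝ) :
    HasDerivAt (fun X => U2 f g ε K t X Y) (U2X f g ε K t X Y) X := by
  unfold U2 U2X
  refine (((theta_X f K t X Y).sin).const_mul (K⁻¹ * (-ε * In g t Y))).congr_deriv ?_
  field_simp

lemma hP0X (hK : K ≠ 0) (t X Y : ℝ) :
    HasDerivAt (fun X => P0 f g ε K t X Y) (P0X f g ε K t X Y) X := by
  unfold P0 P0X
  refine (((theta_X f K t X Y).cos).const_mul
    (K⁻¹ ^ 2 * (-2 * ε * g Y * In g t Y ^ 2))).congr_deriv ?_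
  field_simp

lemma hU1X (hK : K ≠ 0) (t X Y : ℝ) :
    HasDerivAt (fun X => U1 f g g1 ε K t X Y) (U1X f g g1 ε K t X Y) X := by
  unfold U1 U1X
  refine (((((theta_X f K t X Y).cos).const_mul
    (K⁻¹ ^ 2 * (2 * ε * t ^ 2 * g Y * g1 Y * In g t Y ^ 2))).const_add (f Y)).add
    (((theta_X f K t X Y).sin).const_mul (K⁻¹ * (-ε * In g t Y) * t * g Y))).congr_deriv ?_
  field_simp

lemma hay (hg : ∀ y, HasDerivAt g (g1 y) y) (hg1 : ∀ y, HasDerivAt g1 (g2 y) y) (t Y : ℝ) :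
    HasDerivAt (fun Y => 2 * ε * t ^ 2 * g Y * g1 Y * In g t Y ^ 2)
      (2 * ε * t ^ 2 * (g1 Y ^ 2 + g Y * g2 Y) * In g t Y ^ 2
      - 8 * ε * t ^ 4 * g Y ^ 2 * g1 Y ^ 2 * In g t Y ^ 3) Y := by
  refine ((((hg Y).const_mul (2 * ε * t ^ 2)).mul (hg1 Y)).mul
    ((In_deriv_y hg t Y).pow 2)).congr_deriv ?_
  simp only [Pi.mul_apply, Pi.pow_apply]
  push_cast
  ring

lemma ha_y (hg : ∀ y, HasDerivAt g (g1 y) y) (t Y : ℝ) :
    HasDerivAt (fun Y => -ε * In g t Y) (2 * ε * t ^ 2 * g Y * g1 Y * In g t Y ^ 2) Y := by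
  refine ((In_deriv_y hg t Y).const_mul (-ε)).congr_deriv ?_
  ring

lemma hB_y (hg : ∀ y, HasDerivAt g (g1 y) y) (t Y : ℝ) :
    HasDerivAt (fun Y => -2 * ε * g Y * In g t Y ^ 2)
      (-2 * ε * g1 Y * In g t Y ^ 2 + 8 * ε * t ^ 2 * g Y ^ 2 * g1 Y * In g t Y ^ 3) Y := by
  refine (((hg Y).const_mul (-2 * ε)).mul ((In_deriv_y hg t Y).pow 2)).congr_deriv ?_
  simp only [Pi.mul_apply, Pi.pow_apply]
  push_cast
  ring

lemma hU2Y (hK : K ≠ 0) (hf : ∀ y, HasDerivAt f (g y) y) (hg : ∀ y, HasDerivAt g (g1 y) y)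
    (t X Y : ℝ) :
    HasDerivAt (fun Y => U2 f g ε K t X Y) (U2Y f g g1 ε K t X Y) Y := by
  unfold U2 U2Y
  refine (((ha_y ε hg t Y).const_mul K⁻¹).mul ((theta_Y hf K t X Y).sin)).congr_deriv ?_
  field_simp
  ring

lemma hP0Y (hK : K ≠ 0) (hf : ∀ y, HasDerivAt f (g y) y) (hg : ∀ y, HasDerivAt g (g1 y) y)
    (t X Y : ℝ) :
    HasDerivAt (fun Y => P0 f g ε K t X Y) (P0Y f g g1 ε K t X Y) Y := by
  unfold P0 P0Y
  refine (((hB_y ε hg t Y).const_mul (K⁻¹ ^ 2)).mul ((theta_Y hf K t X Y).cos)).congr_deriv ?_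
  field_simp

lemma hU1Y (hK : K ≠ 0) (hf : ∀ y, HasDerivAt f (g y) y) (hg : ∀ y, HasDerivAt g (g1 y) y)
    (hg1 : ∀ y, HasDerivAt g1 (g2 y) y) (t X Y : ℝ) :
    HasDerivAt (fun Y => U1 f g g1 ε K t X Y) (U1Y f g g1 g2 ε K t X Y) Y := by
  unfold U1 U1Y
  refine (((hf Y).add (((hay ε hg hg1 t Y).const_mul (K⁻¹ ^ 2)).mul
    ((theta_Y hf K t X Y).cos))).add
    (((((ha_y ε hg t Y).const_mul K⁻¹).mul_const t).mul (hg Y)).mul
      ((theta_Y hf K t X Y).sin))).congr_deriv ?_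
  simp only [Pi.mul_apply, Pi.pow_apply, id]
  field_simp
  ring

lemma ha_t (t Y : ℝ) :
    HasDerivAt (fun t => -ε * In g t Y) (2 * ε * t * g Y ^ 2 * In g t Y ^ 2) t := by
  refine ((In_deriv_t g t Y).const_mul (-ε)).congr_deriv ?_
  ring

lemma hay_t (t Y : ℝ) :
    HasDerivAt (fun t => 2 * ε * t ^ 2 * g Y * g1 Y * In g t Y ^ 2)
      (4 * ε * t * g Y * g1 Y * In g t Y ^ 2
      - 8 * ε * t ^ 3 * g Y ^ 3 * g1 Y * In g t Y ^ 3) t := by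
  refine ((((((hasDerivAt_id t).pow 2).const_mul (2 * ε)).mul_const (g Y)).mul_const (g1 Y)).mul
    ((In_deriv_t g t Y).pow 2)).congr_deriv ?_
  simp only [Pi.mul_apply, Pi.pow_apply, id]
  push_cast
  ring

lemma hU2t (hK : K ≠ 0) (t X Y : ℝ) :
    HasDerivAt (fun t => U2 f g ε K t X Y) (U2t f g ε K t X Y) t := by
  unfold U2 U2t
  refine (((ha_t ε t Y).const_mul K⁻¹).mul ((theta_t f K t X Y).sin)).congr_deriv ?_
  field_simp
  ring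

lemma hU1t (hK : K ≠ 0) (t X Y : ℝ) :
    HasDerivAt (fun t => U1 f g g1 ε K t X Y) (U1t f g g1 ε K t X Y) t := by
  unfold U1 U1t
  refine (((((hay_t ε t Y).const_mul (K⁻¹ ^ 2)).mul
    ((theta_t f K t X Y).cos)).const_add (f Y)).add
    (((((ha_t ε t Y).const_mul K⁻¹).mul (hasDerivAt_id t)).mul_const (g Y)).mul
      ((theta_t f K t X Y).sin))).congr_deriv ?_
  simp only [Pi.mul_apply, Pi.pow_apply, id]
  field_simp
  ring

/-- first residual -/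
lemma res1 (f g g1 g2 : ℝ → ℝ) (hK : K ≠ 0) (t X Y : ℝ) :
    U1t f g g1 ε K t X Y + U1 f g g1 ε K t X Y * U1X f g g1 ε K t X Y
      + U2 f g ε K t X Y * U1Y f g g1 g2 ε K t X Y + P0X f g ε K t X Y =
    K⁻¹ ^ 2 * ((4 * ε * t * g Y * g1 Y * In g t Y ^ 2
      - 8 * ε * t ^ 3 * g Y ^ 3 * g1 Y * In g t Y ^ 3) * cos (K * (X - t * f Y))
      + K⁻¹ * ((-ε * In g t Y) * (2 * ε * t ^ 2 * (g1 Y ^ 2 + g Y * g2 Y) * In g t Y ^ 2
      - 8 * ε * t ^ 4 * g Y ^ 2 * g1 Y ^ 2 * In g t Y ^ 3)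
        - (2 * ε * t ^ 2 * g Y * g1 Y * In g t Y ^ 2) ^ 2)
        * (sin (K * (X - t * f Y)) * cos (K * (X - t * f Y)))
      + (-ε * In g t Y) * (2 * ε * t ^ 2 * g Y * g1 Y * In g t Y ^ 2) * (t * g Y)
        * cos (K * (X - t * f Y)) ^ 2
      + (-ε * In g t Y) * ((2 * ε * t ^ 2 * g Y * g1 Y * In g t Y ^ 2) * t * g Y
      + (-ε * In g t Y) * t * g1 Y) * sin (K * (X - t * f Y)) ^ 2) := by
  unfold U1t U1 U1X U2 U1Y P0X
  have h1 : In g t Y ^ 2 * (1 + t ^ 2 * g Y ^ 2) = In g t Y := by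
    have := In_mul g t Y
    rw [pow_two, mul_assoc, this, mul_one]
  have h2 : K⁻¹ * K = 1 := inv_mul_cancel₀ hK
  generalize In g t Y = I at h1 ⊢
  generalize K⁻¹ = κ at h2 ⊢
  generalize sin (K * (X - t * f Y)) = s
  generalize cos (K * (X - t * f Y)) = c
  linear_combination (2 * ε * g Y * κ * s) * h1

/-- second residual -/
lemma res2 (f g g1 : ℝ → ℝ) (t X Y : ℝ) :
    U2t f g ε K t X Y + U1 f g g1 ε K t X Y * U2X f g ε K t X Y
      + U2 f g ε K t X Y * U2Y f g g1 ε K t X Y + P0Y f g g1 ε K t X Y =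
    K⁻¹ ^ 2 * ((-2 * ε * g1 Y * In g t Y ^ 2 + 8 * ε * t ^ 2 * g Y ^ 2 * g1 Y * In g t Y ^ 3)
      * cos (K * (X - t * f Y))
      + (-ε * In g t Y) * (2 * ε * t ^ 2 * g Y * g1 Y * In g t Y ^ 2)) := by
  unfold U2t U1 U2X U2 U2Y P0Y
  have h3 := sin_sq_add_cos_sq (K * (X - t * f Y))
  generalize In g t Y = I
  generalize K⁻¹ = κ
  generalize sin (K * (X - t * f Y)) = s at h3 ⊢
  generalize cos (K * (X - t * f Y)) = c at h3 ⊢
  linear_combination (κ ^ 2 * (-ε * I) * (2 * ε * t ^ 2 * g Y * g1 Y * I ^ 2)) * h3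

lemma div0 (f g g1 : ℝ → ℝ) (t X Y : ℝ) :
    U1X f g g1 ε K t X Y + U2Y f g g1 ε K t X Y = 0 := by
  unfold U1X U2Y
  ring

end deriv

end Pool.Agent.Helper865.EulerBesov
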