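import Pool.Agent.Helper865.EulerBesov.Main

set_option autoImplicit false

open Set Filter Topology MeasureTheory Real
open scoped ContDiff ENNReal RealInnerProductSpace

namespace Pool.Agent.Helper865.EulerBesov

variable {d : ℕ} {χ : E (d + 2) → ℝ} {q : ℝ}

/-- The steady shear flow with the rough profile `UInf` is a solution for all times. -/
theorem isSolution_UInf (hχ : IsCutoff χ) (hq : 1 < q) (T : ℝ) :
    IsSolution χ q T (UInf d) (fun _ => UInf d) where
  initial := rfl
  mem := fun _ _ => memBesov_UInf hχ hq
  continuous := fun t _ => by
    simp only [besovNorm_self (by linarith : 0 < q)]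
    exact tendsto_const_nhds
  divFree := fun _ _ => divFree_UInf
  momentum := by
    refine ⟨fun _ _ => 0, continuousOn_const, ?_, ?_⟩
    · intro ε hε
      exact ⟨0, fun t _ x _ => by rw [abs_zero]; positivity⟩
    · intro t _ φ hφ hc
      have h1 : (∫ x, (⟪UInf d x, fderiv ℝ φ x (UInf d x)⟫ + 0 * divergence φ x)) = 0 := by
        have hc2 : Continuous (fun y => fInf y ^ 2) := continuous_fInf.pow 2
        have h2 := divFree_shear (n := d + 2) hc2 (c := 1) (j := 0) (by simp)
          (fun x => φ x 0) (by fun_prop) (hc.comp_left (g := fun v : E (d + 2) => v 0) rfl)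
        refine Eq.trans ?_ h2
        congr 1
        ext x
        have h3 : fderiv ℝ (fun x => φ x 0) x =
            (EuclideanSpace.proj (𝕜 := ℝ) (0 : Fin (d + 2))).comp (fderiv ℝ φ x) := by
          have h4 : HasFDerivAt φ (fderiv ℝ φ x) x :=
            (hφ.differentiable (by simp) x).hasFDerivAt
          exact ((EuclideanSpace.proj (𝕜 := ℝ) (0 : Fin (d + 2))).hasFDerivAt.comp x h4).fderiv
        rw [h3]
        unfold UInf
        simp only [map_smul, real_inner_smul_left, real_inner_smul_right, zero_mul, add_zero,
          ContinuousLinearMap.comp_apply, smul_eq_mul]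
        rw [EuclideanSpace.inner_single_left]
        simp
        ring
      simp only [h1, sub_self, inner_zero_left, integral_zero, intervalIntegral.integral_zero]

end Pool.Agent.Helper865.EulerBesov
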