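import Pool.Agent.Helper865.EulerBesov.Stability

set_option autoImplicit false

open Set Filter Topology MeasureTheory Real
open scoped ContDiff ENNReal RealInnerProductSpace Convolution

namespace Pool.Agent.Helper865.EulerBesov

variable {n : ℕ}

/-- the stability estimate between a Hölder solution and an approximate solution -/
theorem stability {T L δF A CH : ℝ} (hT : 0 ≤ T) (hL : 0 ≤ L) (hA : 0 ≤ A) (hCH : 0 ≤ CH)
    {ua dua : Fin n → ℝ → E n → ℝ} {pa : ℝ → E n → ℝ} (ha : ApproxSol T L δF ua dua pa)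
    {v : ℝ → E n → E n} {p : ℝ → E n → ℝ} (hv : HSol T A CH v p)
    (h0 : ∀ x i, v 0 x i = ua i 0 x) :
    (∫ x in Q n, ∑ i, (v T x i - ua i T x) ^ 2) ≤
      2 * (exp ((2 * (n * L) + 1) * T) * (T * (δF ^ 2 * (volume (Q n)).toReal))) := by
  obtain ⟨C₁, hC₁, hex⟩ := exists_moll n
  set Ω : ℝ := (volume (Q n)).toReal with hΩ
  set G : ℝ → ℝ := fun r =>
    2 * (exp ((2 * (n * L) + 1) * T) * ((n * (CH * r ^ 2) ^ 2) * Ω
        + T * ((δF ^ 2 + 2 * (n ^ 2 * (4 * CH ^ 2 * (A * C₁ * r + L * r ^ 4)))) * Ω)))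
      + 2 * (n * (CH * r ^ 2) ^ 2 * Ω) with hG
  have hcont : Continuous G := by fun_prop
  have hG0 : G 0 = 2 * (exp ((2 * (n * L) + 1) * T) * (T * (δF ^ 2 * Ω))) := by
    simp only [hG]
    ring
  have hlim : Tendsto G (𝓝[>] 0) (𝓝 (2 * (exp ((2 * (n * L) + 1) * T) * (T * (δF ^ 2 * Ω))))) := by
    rw [← hG0]
    exact hcont.continuousAt.tendsto.mono_left nhdsWithin_le_nhds
  apply ge_of_tendsto hlim
  have hmem : Ioc (0:ℝ) 1 ∈ 𝓝[>] (0:ℝ) := Ioc_mem_nhdsGT one_pos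
  filter_upwards [hmem] with r hr
  obtain ⟨η, hη⟩ := hex (r ^ 3) (pow_pos hr.1 3)
  refine (energy_step hT hL hA hCH hC₁ ha hv h0 hr.1 hr.2 hη).trans (le_of_eq ?_)
  simp only [hG, ← hΩ]
  have hr0 : r ≠ 0 := hr.1.ne'
  have h1 : (A * (C₁ / r ^ 3) + L) * (4 * (CH * r ^ 2) ^ 2) =
      4 * CH ^ 2 * (A * C₁ * r + L * r ^ 4) := by
    field_simp
  rw [h1]

end Pool.Agent.Helper865.EulerBesov
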