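import Pool.Agent.Helper865.EulerBesov.MollEq

set_option autoImplicit false

open Set Filter Topology MeasureTheory Real
open scoped ContDiff ENNReal RealInnerProductSpace Convolution

namespace Pool.Agent.Helper865.EulerBesov

variable {n : ℕ}

/-- a smooth periodic approximate solution with residual at most `δF` on `[0,T]` -/
structure ApproxSol (T L δF : ℝ) (ua dua : Fin n → ℝ → E n → ℝ) (pa : ℝ → E n → ℝ) : Prop where
  c1 : ∀ i t, ContDiff ℝ 1 (ua i t)
  cont : ∀ i, Continuous (fun z : ℝ × E n => ua i z.1 z.2)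
  dcont : ∀ i, Continuous (fun z : ℝ × E n => dua i z.1 z.2)
  hasDeriv : ∀ i t x, HasDerivAt (fun s => ua i s x) (dua i t x) t
  per : ∀ i t, IsPer (ua i t)
  div : ∀ t x, ∑ j, pd j (ua j t) x = 0
  pc1 : ∀ t, ContDiff ℝ 1 (pa t)
  pper : ∀ t, IsPer (pa t)
  grad : ∀ t ∈ Icc 0 T, ∀ i j x, |pd j (ua i t) x| ≤ L
  res : ∀ t ∈ Icc 0 T, ∀ x,
    ∑ i, (dua i t x + ∑ j, ua j t x * pd j (ua i t) x + pd i (pa t) x) ^ 2 ≤ δF ^ 2

/-- a periodic Hölder solution in the sense of distributions -/
structure HSol (T A CH : ℝ) (v : ℝ → E n → E n) (p : ℝ → E n → ℝ) : Prop where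
  vcont : Continuous (fun z : ℝ × E n => v z.1 z.2)
  pcont : Continuous (fun z : ℝ × E n => p z.1 z.2)
  vper : ∀ t, IsPer (v t)
  pper : ∀ t, IsPer (p t)
  divFree : ∀ t, DivFree (v t)
  bound : ∀ t x, ‖v t x‖ ≤ A
  holder : ∀ t, ∀ r : ℝ, 0 < r → r ≤ 1 → ∀ x y : E n, ‖x - y‖ ≤ r ^ 3 →
    ‖v t x - v t y‖ ≤ CH * r ^ 2
  mom : ∀ t ∈ Icc 0 T, ∀ φ : E n → E n, ContDiff ℝ ∞ φ → HasCompactSupport φ →
      (∫ x, ⟪v t x - v 0 x, φ x⟫) =
        ∫ s in (0 : ℝ)..t, ∫ x, (⟪v s x, fderiv ℝ φ x (v s x)⟫ + p s x * divergence φ x)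

lemma abs_coord_le (w : E n) (i : Fin n) : |w i| ≤ ‖w‖ := by
  have := EuclideanSpace.norm_eq w
  have h := PiLp.norm_apply_le (p := 2) w i
  simpa using h

lemma integrable_prod_Q {g : ℝ × E n → ℝ} (hg : Continuous g) (t : ℝ) :
    Integrable (fun z : E n × ℝ => g (z.2, z.1))
      ((volume.restrict (Q n)).prod (volume.restrict (Ioc 0 t))) := by
  rw [Measure.prod_restrict]
  have hK : IsCompact (closure (Q n) ×ˢ Icc (0:ℝ) t) :=
    isBounded_Q.isCompact_closure.prod isCompact_Icc
  have hc : Continuous (fun z : E n × ℝ => g (z.2, z.1)) := hg.comp (by fun_prop)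
  exact (hc.continuousOn.integrableOn_compact hK).mono_set
    (prod_mono subset_closure Ioc_subset_Icc_self)

lemma continuous_setIntegral_Q {g : ℝ × E n → ℝ} (hg : Continuous g) :
    Continuous (fun s => ∫ x in Q n, g (s, x)) := by
  rw [continuous_iff_continuousAt]
  intro s₀
  have hK : IsCompact (Icc (s₀ - 1) (s₀ + 1) ×ˢ closure (Q n)) :=
    isCompact_Icc.prod isBounded_Q.isCompact_closure
  obtain ⟨C, hC⟩ := hK.exists_bound_of_continuousOn hg.continuousOn
  apply continuousAt_of_dominated (bound := fun _ => C)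
  · exact Filter.Eventually.of_forall fun s =>
      (hg.comp (by fun_prop : Continuous fun x => (s, x))).aestronglyMeasurable
  · have : Icc (s₀ - 1) (s₀ + 1) ∈ 𝓝 s₀ := Icc_mem_nhds (by linarith) (by linarith)
    filter_upwards [this] with s hs
    filter_upwards [ae_restrict_mem measurableSet_Q] with x hx
    exact hC (s, x) ⟨hs, subset_closure hx⟩
  · exact integrable_const _
  · exact Filter.Eventually.of_forall fun x =>
      (hg.comp (by fun_prop : Continuous fun s => (s, x))).continuousAt

lemma cont_aux {z V F : Fin n → E n → ℝ} {dz du W : Fin n → Fin n → E n → ℝ}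
    (hz : ∀ i, Continuous (z i)) (hdz : ∀ i j, Continuous (dz i j))
    (hdu : ∀ i j, Continuous (du i j)) (hW : ∀ i j, Continuous (W i j))
    (hV : ∀ i, Continuous (V i)) (hF : ∀ i, Continuous (F i)) :
    Continuous (fun x => -(∑ i, ∑ j, z i x * z j x * du i j x) - (∑ i, z i x * F i x)
      + ∑ i, ∑ j, dz i j x * (W i j x - V i x * V j x)) := by
  fun_prop

lemma cont_aux2 {z : Fin n → E n → ℝ} (hz : ∀ i, Continuous (z i)) :
    Continuous (fun x => ∑ i, (z i x) ^ 2) := by
  fun_prop

lemma cont_aux3 {X : Type*} [TopologicalSpace X] {z H D : Fin n → X → ℝ}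
    (hz : ∀ i, Continuous (z i)) (hH : ∀ i, Continuous (H i)) (hD : ∀ i, Continuous (D i)) :
    Continuous (fun x => ∑ i, z i x * (H i x - D i x)) := by
  fun_prop

lemma cont_aux4 {X : Type*} [TopologicalSpace X] {W : Fin n → X → ℝ} {P : X → ℝ}
    (hW : ∀ i, Continuous (W i)) (hP : Continuous P) :
    Continuous (fun x => -(∑ j, W j x) - P x) := by
  fun_prop

lemma cont_aux' {z : Fin n → E n → ℝ} (hz : ∀ i, Continuous (z i)) (a b : ℝ) :
    Continuous (fun x => a * (∑ i, (z i x) ^ 2) + b) := by
  fun_prop

/-- one mollified energy estimate -/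
lemma energy_step {T L δF A CH C₁ : ℝ} (hT : 0 ≤ T) (hL : 0 ≤ L) (hA : 0 ≤ A) (hCH : 0 ≤ CH)
    (hC₁ : 0 ≤ C₁)
    {ua dua : Fin n → ℝ → E n → ℝ} {pa : ℝ → E n → ℝ} (ha : ApproxSol T L δF ua dua pa)
    {v : ℝ → E n → E n} {p : ℝ → E n → ℝ} (hv : HSol T A CH v p)
    (h0 : ∀ x i, v 0 x i = ua i 0 x) {r : ℝ} (hr0 : 0 < r) (hr1 : r ≤ 1)
    {η : E n → ℝ} (hη : IsMoll η (r ^ 3) C₁) :
    (∫ x in Q n, ∑ i, (v T x i - ua i T x) ^ 2) ≤
      2 * (exp ((2 * (n * L) + 1) * T) * ((n * (CH * r ^ 2) ^ 2) * (volume (Q n)).toReal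
        + T * ((δF ^ 2 + 2 * (n ^ 2 * ((A * (C₁ / r ^ 3) + L) * (4 * (CH * r ^ 2) ^ 2))))
          * (volume (Q n)).toReal)))
      + 2 * (n * (CH * r ^ 2) ^ 2 * (volume (Q n)).toReal) := by
  have hr3 : 0 < r ^ 3 := by positivity
  -- abbreviations
  set V : Fin n → ℝ → E n → ℝ := fun i t => mol η (fun y => v t y i) with hV
  set W : Fin n → Fin n → ℝ → E n → ℝ := fun i j t => mol η (fun y => v t y i * v t y j) with hW
  set Pm : ℝ → E n → ℝ := fun t => mol η (p t) with hPm
  set z : Fin n → ℝ → E n → ℝ := fun i t x => V i t x - ua i t x with hz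
  set H : Fin n → ℝ → E n → ℝ := fun i t x =>
    -(∑ j, pd j (W i j t) x) - pd i (Pm t) x with hH
  have hvi : ∀ i, Continuous (fun w : ℝ × E n => v w.1 w.2 i) := fun i => by
    have := hv.vcont
    fun_prop
  have hvti : ∀ t i, Continuous (fun y => v t y i) := fun t i =>
    (hvi i).comp (by fun_prop : Continuous fun y => (t, y))
  have hpt : ∀ t, Continuous (p t) := fun t =>
    hv.pcont.comp (by fun_prop : Continuous fun y => (t, y))
  -- smoothness in x
  have sV : ∀ i t, ContDiff ℝ 1 (V i t) := fun i t =>
    (hη.contDiff_mol (hvti t i)).of_le (by exact_mod_cast le_top)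
  have sW : ∀ i j t, ContDiff ℝ 1 (W i j t) := fun i j t =>
    (hη.contDiff_mol ((hvti t i).mul (hvti t j))).of_le (by exact_mod_cast le_top)
  have sP : ∀ t, ContDiff ℝ 1 (Pm t) := fun t =>
    (hη.contDiff_mol (hpt t)).of_le (by exact_mod_cast le_top)
  have sz : ∀ i t, ContDiff ℝ 1 (z i t) := fun i t => (sV i t).sub (ha.c1 i t)
  -- joint continuity
  have cV : ∀ i, Continuous (fun w : ℝ × E n => V i w.1 w.2) := fun i =>
    hη.continuous_mol (hvi i)
  have cW : ∀ i j k, Continuous (fun w : ℝ × E n => pd k (W i j w.1) w.2) := fun i j k =>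
    hη.continuous_pd_mol ((hvi i).mul (hvi j)) k
  have cP : ∀ k, Continuous (fun w : ℝ × E n => pd k (Pm w.1) w.2) := fun k =>
    hη.continuous_pd_mol hv.pcont k
  have cz : ∀ i, Continuous (fun w : ℝ × E n => z i w.1 w.2) := fun i => (cV i).sub (ha.cont i)
  have cH : ∀ i, Continuous (fun w : ℝ × E n => H i w.1 w.2) := by
    intro i
    exact cont_aux4 (W := fun j (w : ℝ × E n) => pd j (W i j w.1) w.2) (fun j => cW i j j) (cP i)
  -- periodicity
  have pV : ∀ i t, IsPer (V i t) := fun i t => isPer_mol (fun x k => by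
    simp only [hv.vper t x k])
  have pW : ∀ i j t, IsPer (W i j t) := fun i j t => isPer_mol (fun x k => by
    simp only [hv.vper t x k])
  have pPm : ∀ t, IsPer (Pm t) := fun t => isPer_mol (hv.pper t)
  have pz : ∀ i t, IsPer (z i t) := fun i t x k => by
    simp only [hz, pV i t x k, ha.per i t x k]
  -- evolution of z
  have hevol : ∀ t ∈ Icc 0 T, ∀ i x, z i t x = z i 0 x +
      ∫ s in (0:ℝ)..t, (H i s x - dua i s x) := by
    intro t ht i x
    have h1 := hη.momentum hv.vcont hv.pcont (hv.mom t ht) i x
    have h2 : ua i t x - ua i 0 x = ∫ s in (0:ℝ)..t, dua i s x := by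
      rw [intervalIntegral.integral_eq_sub_of_hasDerivAt (fun s _ => ha.hasDeriv i s x)]
      exact ((ha.dcont i).comp (by fun_prop : Continuous fun s => (s, x))).intervalIntegrable _ _
    have i1 : IntervalIntegrable (fun s => H i s x) volume 0 t :=
      ((cH i).comp (by fun_prop : Continuous fun s => (s, x))).intervalIntegrable _ _
    have i2 : IntervalIntegrable (fun s => dua i s x) volume 0 t :=
      ((ha.dcont i).comp (by fun_prop : Continuous fun s => (s, x))).intervalIntegrable _ _
    rw [intervalIntegral.integral_sub i1 i2, ← h2]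
    have h3 : (∫ s in (0:ℝ)..t, H i s x) = V i t x - V i 0 x := h1.symm
    rw [h3]
    simp only [hz]
    ring
  -- energy function
  set Y : ℝ → ℝ := fun t => ∫ x in Q n, ∑ i, (z i t x) ^ 2 with hY
  set e : ℝ → ℝ := fun s => ∫ x in Q n, ∑ i, z i s x * (H i s x - dua i s x) with he
  have cinteg : Continuous (fun w : ℝ × E n => ∑ i, z i w.1 w.2 * (H i w.1 w.2 - dua i w.1 w.2)) := by
    exact cont_aux3 (z := fun i (w : ℝ × E n) => z i w.1 w.2) cz cH ha.dcont
  have ce : Continuous e := continuous_setIntegral_Q cinteg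
  have hYe : ∀ t ∈ Icc 0 T, Y t = Y 0 + ∫ s in (0:ℝ)..t, 2 * e s := by
    intro t ht
    have hpoint : ∀ x, (∑ i, (z i t x) ^ 2) = (∑ i, (z i 0 x) ^ 2) +
        ∫ s in Ioc 0 t, 2 * ∑ i, z i s x * (H i s x - dua i s x) := by
      intro x
      have hone : ∀ i, (z i t x) ^ 2 = (z i 0 x) ^ 2 +
          ∫ s in (0:ℝ)..t, 2 * (z i s x * (H i s x - dua i s x)) := by
        intro i
        set h : ℝ → ℝ := fun s => H i s x - dua i s x with hh
        have ch : Continuous h := by
          have h1 := (cH i).comp (by fun_prop : Continuous fun s : ℝ => (s, x))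
          have h2 := (ha.dcont i).comp (by fun_prop : Continuous fun s : ℝ => (s, x))
          exact h1.sub h2
        set ζ : ℝ → ℝ := fun s => z i 0 x + ∫ σ in (0:ℝ)..s, h σ with hζ
        have dζ : ∀ s, HasDerivAt ζ (h s) s := fun s =>
          ((intervalIntegral.integral_hasDerivAt_right (ch.intervalIntegrable _ _)
            ch.stronglyMeasurable.stronglyMeasurableAtFilter ch.continuousAt).const_add _)
        have cζ : Continuous ζ := continuous_iff_continuousAt.2 fun s => (dζ s).continuousAt
        have hζz : ∀ s ∈ Icc 0 t, ζ s = z i s x := fun s hs =>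
          (hevol s ⟨hs.1, hs.2.trans ht.2⟩ i x).symm
        have hsq : ∀ s, HasDerivAt (fun s => (ζ s) ^ 2) (2 * (ζ s * h s)) s := by
          intro s
          have := (dζ s).pow 2
          refine this.congr_deriv ?_
          push_cast
          ring
        have hint : (∫ s in (0:ℝ)..t, 2 * (ζ s * h s)) = (ζ t) ^ 2 - (ζ 0) ^ 2 :=
          intervalIntegral.integral_eq_sub_of_hasDerivAt (fun s _ => hsq s)
            ((by fun_prop : Continuous fun s => 2 * (ζ s * h s)).intervalIntegrable _ _)
        have hcongr : (∫ s in (0:ℝ)..t, 2 * (z i s x * h s)) =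
            ∫ s in (0:ℝ)..t, 2 * (ζ s * h s) := by
          apply intervalIntegral.integral_congr
          intro s hs
          rw [uIcc_of_le ht.1] at hs
          simp only [hζz s hs]
        rw [hcongr, hint, hζz t ⟨ht.1, le_rfl⟩, hζz 0 ⟨le_rfl, ht.1⟩]
        ring
      simp_rw [hone]
      rw [Finset.sum_add_distrib]
      congr 1
      rw [← intervalIntegral.integral_of_le ht.1]
      simp_rw [Finset.mul_sum]
      rw [intervalIntegral.integral_finsetSum]
      intro i _
      apply Continuous.intervalIntegrable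
      have h1 := (cz i).comp (by fun_prop : Continuous fun s : ℝ => (s, x))
      have h2 := (cH i).comp (by fun_prop : Continuous fun s : ℝ => (s, x))
      have h3 := (ha.dcont i).comp (by fun_prop : Continuous fun s : ℝ => (s, x))
      exact continuous_const.mul (h1.mul (h2.sub h3))
    simp only [hY]
    simp_rw [hpoint]
    have cint2 : Continuous (fun w : ℝ × E n =>
        2 * ∑ i, z i w.1 w.2 * (H i w.1 w.2 - dua i w.1 w.2)) := continuous_const.mul cinteg
    have hI := integrable_prod_Q cint2 t
    rw [integral_add]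
    · congr 1
      rw [integral_integral_swap hI, intervalIntegral.integral_of_le ht.1]
      congr 1
      ext s
      rw [integral_const_mul]
    · apply integrableOn_Q
      have h1 : ∀ i, Continuous (fun x => z i 0 x) := fun i =>
        (cz i).comp (by fun_prop : Continuous fun x : E n => ((0:ℝ), x))
      exact cont_aux2 (z := fun i x => z i 0 x) h1
    · exact hI.integral_prod_left
  -- differential inequality
  have hΩ : 0 ≤ (volume (Q n)).toReal := ENNReal.toReal_nonneg
  set cr : ℝ := n ^ 2 * ((A * (C₁ / r ^ 3) + L) * (4 * (CH * r ^ 2) ^ 2)) with hcr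
  have hcr0 : 0 ≤ cr := by positivity
  have hdiff : ∀ s ∈ Icc 0 T, 2 * e s ≤ (2 * (n * L) + 1) * Y s +
      (δF ^ 2 + 2 * cr) * (volume (Q n)).toReal := by
    intro s hs
    have hid := energy_identity (fun i => z i s) (fun i => ua i s) (fun i => V i s)
      (fun i j => W i j s) (fun x => Pm s x - pa s x)
      (fun i x => dua i s x + ∑ j, ua j s x * pd j (ua i s) x + pd i (pa s) x)
      (fun i => sz i s) (fun i => ha.c1 i s) (fun i => sV i s) (fun i j => sW i j s)
      ((sP s).sub (ha.pc1 s))
      (fun i => by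
        have h1 : Continuous (fun x => dua i s x) :=
          (ha.dcont i).comp (by fun_prop : Continuous fun x : E n => (s, x))
        have h2 : ∀ j, Continuous (ua j s) := fun j => (ha.c1 j s).continuous
        have h3 : ∀ j, Continuous (pd j (ua i s)) := fun j => continuous_pd (ha.c1 i s) j
        have h4 : Continuous (pd i (pa s)) := continuous_pd (ha.pc1 s) i
        exact (h1.add (continuous_finsetSum _ fun j _ => (h2 j).mul (h3 j))).add h4)
      (fun i => pz i s) (fun i => ha.per i s) (fun i => pV i s) (fun i j => pW i j s)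
      (fun x k => by simp only [pPm s x k, ha.pper s x k])
      (fun i x => by simp only [hz]; ring)
      (fun x => by
        have h1 := hη.div_mol (hv.vcont.comp (by fun_prop : Continuous fun y => (s, y)))
          (hv.divFree s) x
        have h2 := ha.div s x
        have h3 : ∀ j, pd j (z j s) x = pd j (V j s) x - pd j (ua j s) x := fun j =>
          pd_sub j ((sV j s).differentiable one_ne_zero x) ((ha.c1 j s).differentiable one_ne_zero x)
        simp_rw [h3]
        rw [Finset.sum_sub_distrib, h2, sub_zero]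
        exact h1)
      (fun x => hη.div_mol (hv.vcont.comp (by fun_prop : Continuous fun y => (s, y)))
          (hv.divFree s) x)
    have hleft : (∫ x in Q n, ∑ i, z i s x * (-(∑ j, pd j (W i j s) x)
        - pd i (fun x => Pm s x - pa s x) x + (∑ j, ua j s x * pd j (ua i s) x)
        - (dua i s x + ∑ j, ua j s x * pd j (ua i s) x + pd i (pa s) x))) = e s := by
      simp only [he]
      congr 1
      ext x
      apply Finset.sum_congr rfl
      intro i _
      have h3 : pd i (fun x => Pm s x - pa s x) x = pd i (Pm s) x - pd i (pa s) x :=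
        pd_sub i ((sP s).differentiable one_ne_zero x) ((ha.pc1 s).differentiable one_ne_zero x)
      rw [h3]
      simp only [hH]
      ring
    rw [hleft] at hid
    rw [hid]
    -- bound the integrand
    have hpt : ∀ x, (-(∑ i, ∑ j, z i s x * z j s x * pd j (ua i s) x) -
        (∑ i, z i s x * (dua i s x + ∑ j, ua j s x * pd j (ua i s) x + pd i (pa s) x))
        + ∑ i, ∑ j, pd j (z i s) x * (W i j s x - V i s x * V j s x)) ≤
        (n * L + 1 / 2) * (∑ i, (z i s x) ^ 2) + (1 / 2 * δF ^ 2 + cr) := by
      intro x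
      have b1 : -(∑ i, ∑ j, z i s x * z j s x * pd j (ua i s) x) ≤
          n * L * ∑ i, (z i s x) ^ 2 := by
        rw [← Finset.sum_neg_distrib]
        calc ∑ i, -(∑ j, z i s x * z j s x * pd j (ua i s) x)
            ≤ ∑ i, ∑ j, L * (((z i s x) ^ 2 + (z j s x) ^ 2) / 2) := by
              apply Finset.sum_le_sum
              intro i _
              rw [← Finset.sum_neg_distrib]
              apply Finset.sum_le_sum
              intro j _
              have h1 := ha.grad s hs i j x
              have h2 : |z i s x * z j s x| ≤ ((z i s x) ^ 2 + (z j s x) ^ 2) / 2 := by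
                rw [abs_mul]
                nlinarith [sq_nonneg (|z i s x| - |z j s x|), sq_abs (z i s x), sq_abs (z j s x)]
              calc -(z i s x * z j s x * pd j (ua i s) x)
                  ≤ |z i s x * z j s x * pd j (ua i s) x| := neg_le_abs _
                _ = |z i s x * z j s x| * |pd j (ua i s) x| := abs_mul _ _
                _ ≤ (((z i s x) ^ 2 + (z j s x) ^ 2) / 2) * L := by gcongr
                _ = L * (((z i s x) ^ 2 + (z j s x) ^ 2) / 2) := mul_comm _ _
          _ = n * L * ∑ i, (z i s x) ^ 2 := by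
              simp only [← Finset.mul_sum, ← Finset.sum_div, Finset.sum_add_distrib,
                Finset.sum_const, Finset.card_univ, Fintype.card_fin, nsmul_eq_mul]
              ring
      have b2 : -(∑ i, z i s x * (dua i s x + ∑ j, ua j s x * pd j (ua i s) x + pd i (pa s) x)) ≤
          1 / 2 * (∑ i, (z i s x) ^ 2) + 1 / 2 * δF ^ 2 := by
        have hres := ha.res s hs x
        rw [← Finset.sum_neg_distrib]
        calc ∑ i, -(z i s x * (dua i s x + ∑ j, ua j s x * pd j (ua i s) x + pd i (pa s) x))
            ≤ ∑ i, (1 / 2 * (z i s x) ^ 2 + 1 / 2 *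
              (dua i s x + ∑ j, ua j s x * pd j (ua i s) x + pd i (pa s) x) ^ 2) := by
              apply Finset.sum_le_sum
              intro i _
              nlinarith [sq_nonneg (z i s x +
                (dua i s x + ∑ j, ua j s x * pd j (ua i s) x + pd i (pa s) x))]
          _ = 1 / 2 * (∑ i, (z i s x) ^ 2) + 1 / 2 *
              ∑ i, (dua i s x + ∑ j, ua j s x * pd j (ua i s) x + pd i (pa s) x) ^ 2 := by
              rw [Finset.sum_add_distrib, Finset.mul_sum, Finset.mul_sum]
          _ ≤ _ := by linarith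
      have b3 : ∑ i, ∑ j, pd j (z i s) x * (W i j s x - V i s x * V j s x) ≤ cr := by
        calc ∑ i, ∑ j, pd j (z i s) x * (W i j s x - V i s x * V j s x)
            ≤ ∑ i : Fin n, ∑ j : Fin n, ((A * (C₁ / r ^ 3) + L) * (4 * (CH * r ^ 2) ^ 2)) := by
              apply Finset.sum_le_sum
              intro i _
              apply Finset.sum_le_sum
              intro j _
              have h3 : pd j (z i s) x = pd j (V i s) x - pd j (ua i s) x :=
                pd_sub j ((sV i s).differentiable one_ne_zero x)
                  ((ha.c1 i s).differentiable one_ne_zero x)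
              have h4 : |pd j (V i s) x| ≤ A * (C₁ / r ^ 3) :=
                hη.abs_pd_mol_le (hvti s i) (fun y => (abs_coord_le _ _).trans (hv.bound s y)) j x
              have h5 : |pd j (z i s) x| ≤ A * (C₁ / r ^ 3) + L := by
                rw [h3]
                exact (abs_sub _ _).trans (add_le_add h4 (ha.grad s hs i j x))
              have h6 : |W i j s x - V i s x * V j s x| ≤ 4 * (CH * r ^ 2) ^ 2 := by
                apply hη.abs_cov_le (hvti s i) (hvti s j) x
                intro y hy
                rw [norm_sub_rev] at hy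
                have h7 := hv.holder s r hr0 hr1 y x hy
                have h8 : ∀ k, |v s y k - v s x k| ≤ CH * r ^ 2 := by
                  intro k
                  have := abs_coord_le (v s y - v s x) k
                  simp only [PiLp.sub_apply] at this
                  exact this.trans h7
                exact ⟨h8 i, h8 j⟩
              calc pd j (z i s) x * (W i j s x - V i s x * V j s x)
                  ≤ |pd j (z i s) x * (W i j s x - V i s x * V j s x)| := le_abs_self _
                _ = |pd j (z i s) x| * |W i j s x - V i s x * V j s x| := abs_mul _ _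
                _ ≤ (A * (C₁ / r ^ 3) + L) * (4 * (CH * r ^ 2) ^ 2) :=
                    mul_le_mul h5 h6 (abs_nonneg _) ((abs_nonneg _).trans h5)
          _ = cr := by
              simp only [Finset.sum_const, Finset.card_univ, Fintype.card_fin, nsmul_eq_mul, hcr]
              ring
      linarith
    have cz' : ∀ i, Continuous (fun x => z i s x) := fun i => (sz i s).continuous
    have cV' : ∀ i, Continuous (fun x => V i s x) := fun i => (sV i s).continuous
    have cW' : ∀ i j, Continuous (fun x => W i j s x) := fun i j => (sW i j s).continuous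
    have cpz : ∀ i j, Continuous (pd j (z i s)) := fun i j => continuous_pd (sz i s) j
    have cpu : ∀ i j, Continuous (pd j (ua i s)) := fun i j => continuous_pd (ha.c1 i s) j
    have cpp : ∀ j, Continuous (pd j (pa s)) := fun j => continuous_pd (ha.pc1 s) j
    have cu : ∀ j, Continuous (ua j s) := fun j => (ha.c1 j s).continuous
    have cdu : ∀ i, Continuous (fun x => dua i s x) := fun i =>
      (ha.dcont i).comp (by fun_prop : Continuous fun x : E n => (s, x))
    have hle : (∫ x in Q n, (-(∑ i, ∑ j, z i s x * z j s x * pd j (ua i s) x) -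
        (∑ i, z i s x * (dua i s x + ∑ j, ua j s x * pd j (ua i s) x + pd i (pa s) x))
        + ∑ i, ∑ j, pd j (z i s) x * (W i j s x - V i s x * V j s x))) ≤
        ∫ x in Q n, ((n * L + 1 / 2) * (∑ i, (z i s x) ^ 2) + (1 / 2 * δF ^ 2 + cr)) := by
      apply integral_mono
      · apply integrableOn_Q
        exact cont_aux (z := fun i x => z i s x) (dz := fun i j x => pd j (z i s) x)
          (du := fun i j x => pd j (ua i s) x) (W := fun i j x => W i j s x)
          (V := fun i x => V i s x)
          (F := fun i x => dua i s x + ∑ j, ua j s x * pd j (ua i s) x + pd i (pa s) x)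
          cz' cpz cpu cW' cV'
          (fun i => ((cdu i).add (continuous_finsetSum _ fun j _ => (cu j).mul (cpu i j))).add
            (cpp i))
      · apply integrableOn_Q
        exact cont_aux' (z := fun i x => z i s x) cz' _ _
      · exact hpt
    have hval : (∫ x in Q n, ((n * L + 1 / 2) * (∑ i, (z i s x) ^ 2) + (1 / 2 * δF ^ 2 + cr))) =
        (n * L + 1 / 2) * Y s + (1 / 2 * δF ^ 2 + cr) * (volume (Q n)).toReal := by
      rw [integral_add]
      · rw [integral_const_mul, setIntegral_const]
        simp only [smul_eq_mul, measureReal_def]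
        rw [mul_comm (volume (Q n)).toReal]
      · apply integrableOn_Q
        exact continuous_const.mul (cont_aux2 (z := fun i x => z i s x) cz')
      · exact integrableOn_Q continuous_const
    rw [hval] at hle
    linarith
  -- Gronwall
  set K : ℝ := 2 * (n * L) + 1 with hK
  have hK0 : 0 ≤ K := by positivity
  set c : ℝ := (δF ^ 2 + 2 * cr) * (volume (Q n)).toReal with hc
  have hc0 : 0 ≤ c := by positivity
  set Z : ℝ → ℝ := fun t => Y 0 + ∫ s in (0:ℝ)..t, 2 * e s with hZ
  have ce2 : Continuous (fun s => 2 * e s) := continuous_const.mul ce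
  have dZ : ∀ t, HasDerivAt Z (2 * e t) t := fun t =>
    (intervalIntegral.integral_hasDerivAt_right (ce2.intervalIntegrable _ _)
      ce2.stronglyMeasurable.stronglyMeasurableAtFilter ce2.continuousAt).const_add _
  have hZY : ∀ t ∈ Icc 0 T, Z t = Y t := fun t ht => (hYe t ht).symm
  have hgron : Z T * exp (-(K * T)) - c * T ≤ Z 0 := by
    have hd : ∀ t, HasDerivAt (fun t => Z t * exp (-(K * t)) - c * t)
        (2 * e t * exp (-(K * t)) + Z t * (exp (-(K * t)) * (-K)) - c) t := by
      intro t
      have h1 : HasDerivAt (fun t : ℝ => exp (-(K * t))) (exp (-(K * t)) * (-K)) t := by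
        have := (((hasDerivAt_id t).const_mul K).neg).exp
        simpa using this
      have h2 : HasDerivAt (fun t : ℝ => c * t) c t := by
        simpa using (hasDerivAt_id t).const_mul c
      exact ((dZ t).mul h1).sub h2
    have hanti : AntitoneOn (fun t => Z t * exp (-(K * t)) - c * t) (Icc 0 T) := by
      apply antitoneOn_of_deriv_nonpos (convex_Icc 0 T)
      · exact fun t _ => (hd t).continuousAt.continuousWithinAt
      · exact fun t _ => (hd t).differentiableAt.differentiableWithinAt
      · intro t ht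
        rw [interior_Icc] at ht
        have ht' : t ∈ Icc 0 T := Ioo_subset_Icc_self ht
        rw [(hd t).deriv]
        have h1 := hdiff t ht'
        rw [← hZY t ht'] at h1
        have h2 : 0 < exp (-(K * t)) := exp_pos _
        have h3 : exp (-(K * t)) ≤ 1 := exp_le_one_iff.2 (by nlinarith [ht.1])
        nlinarith
    have := hanti ⟨le_rfl, hT⟩ ⟨hT, le_rfl⟩ hT
    simpa using this
  have hYT : Y T ≤ exp (K * T) * (Y 0 + T * c) := by
    rw [hZY T ⟨hT, le_rfl⟩, hZY 0 ⟨le_rfl, hT⟩] at hgron
    have h1 : Y T * exp (-(K * T)) ≤ Y 0 + T * c := by linarith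
    rw [exp_neg] at h1
    have h2 := exp_pos (K * T)
    rw [← div_eq_mul_inv, div_le_iff₀ h2] at h1
    linarith
  -- comparison of z with v - ua
  have hclose : ∀ t i x, |V i t x - v t x i| ≤ CH * r ^ 2 := by
    intro t i x
    apply hη.abs_mol_sub_le (hvti t i)
    intro y hy
    rw [norm_sub_rev] at hy
    have h7 := hv.holder t r hr0 hr1 y x hy
    have := abs_coord_le (v t y - v t x) i
    simp only [PiLp.sub_apply] at this
    exact this.trans h7
  have hB0 : 0 ≤ CH * r ^ 2 := by positivity
  have hY0 : Y 0 ≤ (n * (CH * r ^ 2) ^ 2) * (volume (Q n)).toReal := by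
    have h1 : ∀ x, ∑ i, (z i 0 x) ^ 2 ≤ n * (CH * r ^ 2) ^ 2 := by
      intro x
      calc ∑ i, (z i 0 x) ^ 2 ≤ ∑ i : Fin n, (CH * r ^ 2) ^ 2 := by
            apply Finset.sum_le_sum
            intro i _
            have h2 := hclose 0 i x
            rw [h0 x i] at h2
            have h3 : |z i 0 x| ≤ CH * r ^ 2 := h2
            rw [← sq_abs]
            exact pow_le_pow_left₀ (abs_nonneg _) h3 2
        _ = n * (CH * r ^ 2) ^ 2 := by
            simp
    have h2 : Y 0 ≤ ∫ x in Q n, ((n : ℝ) * (CH * r ^ 2) ^ 2) := by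
      apply integral_mono
      · apply integrableOn_Q
        exact cont_aux2 (z := fun i x => z i 0 x) fun i => (sz i 0).continuous
      · exact integrableOn_Q continuous_const
      · exact h1
    rw [setIntegral_const] at h2
    simp only [smul_eq_mul, measureReal_def] at h2
    linarith
  have hfinal : (∫ x in Q n, ∑ i, (v T x i - ua i T x) ^ 2) ≤
      2 * Y T + 2 * (n * (CH * r ^ 2) ^ 2 * (volume (Q n)).toReal) := by
    have h1 : ∀ x, ∑ i, (v T x i - ua i T x) ^ 2 ≤
        2 * ∑ i, (z i T x) ^ 2 + 2 * (n * (CH * r ^ 2) ^ 2) := by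
      intro x
      have h2 : ∀ i, (v T x i - ua i T x) ^ 2 ≤ 2 * (z i T x) ^ 2 + 2 * (CH * r ^ 2) ^ 2 := by
        intro i
        have h3 := hclose T i x
        have h4 : v T x i - ua i T x = z i T x - (V i T x - v T x i) := by
          simp only [hz]; ring
        rw [h4]
        have h5 : (V i T x - v T x i) ^ 2 ≤ (CH * r ^ 2) ^ 2 := by
          rw [← sq_abs (V i T x - v T x i)]
          exact pow_le_pow_left₀ (abs_nonneg _) h3 2
        nlinarith [sq_nonneg (z i T x + (V i T x - v T x i))]
      calc ∑ i, (v T x i - ua i T x) ^ 2 ≤ ∑ i, (2 * (z i T x) ^ 2 + 2 * (CH * r ^ 2) ^ 2) :=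
            Finset.sum_le_sum fun i _ => h2 i
        _ = 2 * ∑ i, (z i T x) ^ 2 + 2 * (n * (CH * r ^ 2) ^ 2) := by
            rw [Finset.sum_add_distrib, Finset.mul_sum]
            simp
            ring
    have cz' : ∀ i, Continuous (fun x => z i T x) := fun i => (sz i T).continuous
    have h3 : (∫ x in Q n, ∑ i, (v T x i - ua i T x) ^ 2) ≤
        ∫ x in Q n, (2 * ∑ i, (z i T x) ^ 2 + 2 * (n * (CH * r ^ 2) ^ 2)) := by
      apply integral_mono
      · apply integrableOn_Q
        exact cont_aux2 (z := fun i x => v T x i - ua i T x) fun i =>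
          (hvti T i).sub (ha.c1 i T).continuous
      · apply integrableOn_Q
        exact cont_aux' (z := fun i x => z i T x) cz' _ _
      · exact h1
    rw [integral_add, integral_const_mul, setIntegral_const] at h3
    · simp only [smul_eq_mul, measureReal_def] at h3
      linarith
    · apply integrableOn_Q
      exact continuous_const.mul (cont_aux2 (z := fun i x => z i T x) cz')
    · exact integrableOn_Q continuous_const
  calc (∫ x in Q n, ∑ i, (v T x i - ua i T x) ^ 2)
      ≤ 2 * Y T + 2 * (n * (CH * r ^ 2) ^ 2 * (volume (Q n)).toReal) := hfinal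
    _ ≤ 2 * (exp (K * T) * ((n * (CH * r ^ 2) ^ 2) * (volume (Q n)).toReal + T * c))
        + 2 * (n * (CH * r ^ 2) ^ 2 * (volume (Q n)).toReal) := by
        have h1 : exp (K * T) * (Y 0 + T * c) ≤
            exp (K * T) * ((n * (CH * r ^ 2) ^ 2) * (volume (Q n)).toReal + T * c) := by
          gcongr
        linarith

end Pool.Agent.Helper865.EulerBesov
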