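import Pool.Agent.Helper865.EulerBesov.Defs

set_option autoImplicit false

open Set Filter Topology MeasureTheory Real
open scoped ContDiff ENNReal RealInnerProductSpace Pointwise

namespace Pool.Agent.Helper865.EulerBesov

variable {n : ℕ}

/-- periodicity with period `2π` in every coordinate -/
def IsPer {β : Type*} (f : E n → β) : Prop :=
  ∀ (x : E n) (i : Fin n), f (x + EuclideanSpace.single i (2 * π)) = f x

/-- basis of the lattice `2πℤⁿ` -/
noncomputable def latBasis (n : ℕ) : Module.Basis (Fin n) ℝ (E n) :=
  (EuclideanSpace.basisFun (Fin n) ℝ).toBasis.isUnitSMul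
    (fun _ => (isUnit_iff_ne_zero.2 two_pi_pos.ne' : IsUnit (2 * π)))

lemma latBasis_apply (i : Fin n) : latBasis n i = EuclideanSpace.single i (2 * π) := by
  simp only [latBasis, Module.Basis.isUnitSMul_apply, OrthonormalBasis.coe_toBasis,
    EuclideanSpace.basisFun_apply]
  ext j
  simp

abbrev lat (n : ℕ) : Submodule ℤ (E n) := Submodule.span ℤ (Set.range (latBasis n))

/-- fundamental cell -/
noncomputable def Q (n : ℕ) : Set (E n) := ZSpan.fundamentalDomain (latBasis n)

lemma measurableSet_Q : MeasurableSet (Q n) := ZSpan.fundamentalDomain_measurableSet _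

lemma isBounded_Q : Bornology.IsBounded (Q n) := ZSpan.fundamentalDomain_isBounded _

lemma volume_Q_lt_top : volume (Q n) < ⊤ := isBounded_Q.measure_lt_top

lemma volume_Q_ne_zero : volume (Q n) ≠ 0 := ZSpan.measure_fundamentalDomain_ne_zero _

instance : IsFiniteMeasure (volume.restrict (Q n)) := ⟨by simpa using volume_Q_lt_top⟩

lemma IsPer.vadd {β : Type*} {f : E n → β} (hf : IsPer f) (g : E n) (hg : g ∈ lat n) :
    ∀ x, f (g + x) = f x := by
  induction hg using Submodule.span_induction with
  | mem v hv =>
    obtain ⟨i, rfl⟩ := hv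
    intro x
    rw [latBasis_apply, add_comm]
    exact hf x i
  | zero => intro x; rw [zero_add]
  | add u v _ _ hu hv => intro x; rw [add_assoc, hu, hv]
  | smul k v _ hv =>
    intro x
    have hnat : ∀ m : ℕ, ∀ x, f (m • v + x) = f x := by
      intro m
      induction m with
      | zero => intro x; simp
      | succ m ih => intro x; rw [succ_nsmul, add_assoc, ih, hv]
    obtain ⟨m, rfl | rfl⟩ := k.eq_nat_or_neg
    · rw [natCast_zsmul]; exact hnat m x
    · rw [neg_smul, natCast_zsmul]
      have := hnat m (-(m • v) + x)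
      rw [add_neg_cancel_left] at this
      exact this.symm

lemma setIntegral_Q_translate {F : Type*} [NormedAddCommGroup F] [NormedSpace ℝ F]
    {f : E n → F} (hf : IsPer f) (y : E n) :
    (∫ x in Q n, f (x + y)) = ∫ x in Q n, f x := by
  have h1 : IsAddFundamentalDomain (lat n) (Q n) (volume : Measure (E n)) :=
    ZSpan.isAddFundamentalDomain (latBasis n) volume
  have h2 : IsAddFundamentalDomain (lat n) (y +ᵥ Q n) (volume : Measure (E n)) :=
    h1.vadd_of_comm y
  have hinv : VAddInvariantMeasure (lat n) (E n) volume :=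
    inferInstanceAs <| VAddInvariantMeasure (lat n).toAddSubgroup (E n) volume
  have h3 : (∫ x in (y +ᵥ Q n), f x) = ∫ x in Q n, f x := by
    refine h2.setIntegral_eq h1 ?_
    intro g x
    exact hf.vadd g.1 g.2 x
  rw [← h3]
  have h4 : MeasurePreserving (fun x : E n => x + y) volume volume :=
    measurePreserving_add_right volume y
  have h5 : MeasurableEmbedding (fun x : E n => x + y) := measurableEmbedding_addRight y
  have h6 : (fun x : E n => x + y) '' Q n = y +ᵥ Q n := by
    ext z
    simp only [mem_image, Set.mem_vadd_set, vadd_eq_add]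
    constructor
    · rintro ⟨x, hx, rfl⟩; exact ⟨x, hx, add_comm _ _⟩
    · rintro ⟨x, hx, rfl⟩; exact ⟨x, hx, add_comm _ _⟩
  rw [← h6, h4.setIntegral_image_emb h5]

lemma setIntegral_Q_translate_sub {F : Type*} [NormedAddCommGroup F] [NormedSpace ℝ F]
    {f : E n → F} (hf : IsPer f) (y : E n) :
    (∫ x in Q n, f (x - y)) = ∫ x in Q n, f x := by
  have := setIntegral_Q_translate hf (-y)
  simpa [sub_eq_add_neg] using this

lemma integrableOn_Q {F : Type*} [NormedAddCommGroup F] {f : E n → F}
    (hf : Continuous f) : IntegrableOn f (Q n) := by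
  have hc : IsCompact (closure (Q n)) := isBounded_Q.isCompact_closure
  exact (hf.continuousOn.integrableOn_compact hc).mono_set subset_closure

lemma IsPer.bounded {F : Type*} [NormedAddCommGroup F] {f : E n → F} (hf : IsPer f)
    (hc : Continuous f) : ∃ C : ℝ, ∀ x, ‖f x‖ ≤ C := by
  have hK : IsCompact (closure (Q n)) := isBounded_Q.isCompact_closure
  obtain ⟨C, hC⟩ := hK.exists_bound_of_continuousOn hc.continuousOn
  refine ⟨C, fun x => ?_⟩
  have h1 : ZSpan.fract (latBasis n) x ∈ Q n := ZSpan.fract_mem_fundamentalDomain _ _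
  have h2 : f (ZSpan.fract (latBasis n) x) = f x := by
    have h3 : x = (ZSpan.floor (latBasis n) x : E n) + ZSpan.fract (latBasis n) x := by
      rw [ZSpan.fract_apply]; abel
    conv_rhs => rw [h3]
    exact (hf.vadd _ (ZSpan.floor (latBasis n) x).2 _).symm
  rw [← h2]
  exact hC _ (subset_closure h1)

/-- every point is a lattice translate of a point of the cell -/
lemma exists_mem_Q (x : E n) : ∃ y ∈ Q n, ∀ {β : Type} (f : E n → β), IsPer f → f y = f x := by
  refine ⟨ZSpan.fract (latBasis n) x, ZSpan.fract_mem_fundamentalDomain _ _, ?_⟩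
  intro β f hf
  have h3 : x = (ZSpan.floor (latBasis n) x : E n) + ZSpan.fract (latBasis n) x := by
    rw [ZSpan.fract_apply]; abel
  conv_rhs => rw [h3]
  exact (hf.vadd _ (ZSpan.floor (latBasis n) x).2 _).symm

/-- The integral of a directional derivative of a periodic `C¹` function vanishes. -/
lemma setIntegral_Q_fderiv {f : E n → ℝ} (hf : IsPer f) (hd : ContDiff ℝ 1 f) (e : E n) :
    (∫ x in Q n, fderiv ℝ f x e) = 0 := by
  have hcont : Continuous (fun x => fderiv ℝ f x e) :=
    (hd.continuous_fderiv one_ne_zero).clm_apply continuous_const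
  have hper : IsPer (fun x => fderiv ℝ f x e) := by
    intro x i
    have : (fun z => f (z + EuclideanSpace.single i (2 * π))) = f := funext fun z => hf z i
    have h2 : fderiv ℝ (fun z => f (z + EuclideanSpace.single i (2 * π))) x =
        fderiv ℝ f (x + EuclideanSpace.single i (2 * π)) := fderiv_comp_add_right _
    rw [this] at h2
    simp only
    rw [h2]
  -- f(x+e) - f(x) = ∫_0^1 fderiv f (x + s e) e ds
  have h1 : ∀ x, f (x + e) - f x = ∫ s in (0:ℝ)..1, fderiv ℝ f (x + s • e) e := by
    intro x
    have hderiv : ∀ s ∈ uIcc (0:ℝ) 1, HasDerivAt (fun s : ℝ => f (x + s • e))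
        (fderiv ℝ f (x + s • e) e) s := by
      intro s _
      have h2 : HasDerivAt (fun s : ℝ => x + s • e) e s := by
        have := ((hasDerivAt_id s).smul_const e).const_add x
        simpa using this
      exact (hd.differentiable one_ne_zero _).hasFDerivAt.comp_hasDerivAt s h2
    have hc : Continuous (fun s : ℝ => fderiv ℝ f (x + s • e) e) := by
      exact hcont.comp (by fun_prop : Continuous fun s : ℝ => x + s • e)
    rw [intervalIntegral.integral_eq_sub_of_hasDerivAt hderiv (hc.intervalIntegrable _ _)]
    simp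
  have h2 : (∫ x in Q n, (f (x + e) - f x)) = 0 := by
    rw [integral_sub]
    · rw [setIntegral_Q_translate hf e, sub_self]
    · exact integrableOn_Q (hd.continuous.comp (by fun_prop))
    · exact integrableOn_Q hd.continuous
  simp_rw [h1, intervalIntegral.integral_of_le (zero_le_one (α := ℝ))] at h2
  rw [integral_integral_swap] at h2
  · have h3 : ∀ s : ℝ, (∫ x in Q n, fderiv ℝ f (x + s • e) e) = ∫ x in Q n, fderiv ℝ f x e :=
      fun s => setIntegral_Q_translate hper (s • e)
    simp_rw [h3] at h2
    simpa using h2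
  · obtain ⟨C, hC⟩ := hper.bounded hcont
    have hc2 : Continuous (fun p : E n × ℝ => fderiv ℝ f (p.1 + p.2 • e) e) :=
      hcont.comp (by fun_prop : Continuous fun p : E n × ℝ => p.1 + p.2 • e)
    refine Integrable.of_bound (C := C) hc2.aestronglyMeasurable ?_
    exact Filter.Eventually.of_forall fun p => hC _

end Pool.Agent.Helper865.EulerBesov
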